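import Pool.Agent.Work.MP_46fa68_17.Orb

/-!
# MP_46fa68_co: orders of centralisers

helper17
-/

set_option autoImplicit false

namespace Pool.Col46

open Equiv Nat

variable {n : ℕ}

theorem card_Cen (ρ : Perm (Fin n)) (s : Multiset ℕ) (h : ρ.cycleType = s) :
    (Cen ρ).card = (n - s.sum)! * s.prod * ∏ c ∈ s.toFinset, (s.count c)! := by
  have h1 := Equiv.Perm.nat_card_centralizer ρ
  rw [h, Fintype.card_fin] at h1
  rw [← h1]
  refine (Nat.subtype_card (Cen ρ) (fun g => ?_)).symm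
  rw [mem_Cen, Subgroup.mem_centralizer_singleton_iff]
  try exact ⟨fun h => h.symm, fun h => h.symm⟩

theorem ct_cycle (l : List (Fin n)) (hl : l.Nodup) (h2 : 2 ≤ l.length) :
    (List.formPerm l).cycleType = {l.length} := by
  have hc := List.isCycle_formPerm hl h2
  rw [hc.cycleType, List.support_formPerm_of_nodup l hl, List.toFinset_card_of_nodup hl]
  intro x hx
  rw [hx] at h2
  simp at h2

theorem ct_two (l l' : List (Fin n)) (hl : l.Nodup) (hl' : l'.Nodup) (h2 : 2 ≤ l.length)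
    (h2' : 2 ≤ l'.length) (hd : ∀ a ∈ l, a ∉ l') :
    (List.formPerm l * List.formPerm l').cycleType = {l.length} + {l'.length} := by
  rw [((List.formPerm_disjoint_iff hl hl' h2 h2').2 (fun a h h' => hd a h h')).cycleType_mul, ct_cycle l hl h2,
    ct_cycle l' hl' h2']

theorem ct_three (l l' l'' : List (Fin n)) (hl : l.Nodup) (hl' : l'.Nodup) (hl'' : l''.Nodup)
    (h2 : 2 ≤ l.length) (h2' : 2 ≤ l'.length) (h2'' : 2 ≤ l''.length) (hd : ∀ a ∈ l, a ∉ l')
    (hd1 : ∀ a ∈ l, a ∉ l'') (hd2 : ∀ a ∈ l', a ∉ l'') :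
    (List.formPerm l * List.formPerm l' * List.formPerm l'').cycleType =
      {l.length} + {l'.length} + {l''.length} := by
  have d1 := (List.formPerm_disjoint_iff hl hl'' h2 h2'').2 (fun a h h' => hd1 a h h')
  have d2 := (List.formPerm_disjoint_iff hl' hl'' h2' h2'').2 (fun a h h' => hd2 a h h')
  rw [(d1.mul_left d2).cycleType_mul, ct_two l l' hl hl' h2 h2' hd, ct_cycle l'' hl'' h2'']

/-- single cycles -/
theorem cen_one (l : List (Fin n)) (hl : l.Nodup) (h2 : 2 ≤ l.length) (C : ℕ)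
    (hC : (n - ({l.length} : Multiset ℕ).sum)! * ({l.length} : Multiset ℕ).prod *
      ∏ c ∈ ({l.length} : Multiset ℕ).toFinset, (({l.length} : Multiset ℕ).count c)! = C) :
    (Cen (List.formPerm l)).card ≤ C := by
  rw [card_Cen _ _ (ct_cycle l hl h2), hC]

/-- two cycles -/
theorem cen_two (l l' : List (Fin n)) (hl : l.Nodup) (hl' : l'.Nodup) (h2 : 2 ≤ l.length)
    (h2' : 2 ≤ l'.length) (hd : ∀ a ∈ l, a ∉ l') (C : ℕ)
    (hC : (n - ({l.length} + {l'.length} : Multiset ℕ).sum)! *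
      ({l.length} + {l'.length} : Multiset ℕ).prod *
      ∏ c ∈ ({l.length} + {l'.length} : Multiset ℕ).toFinset,
        (({l.length} + {l'.length} : Multiset ℕ).count c)! = C) :
    (Cen (List.formPerm l * List.formPerm l')).card ≤ C := by
  rw [card_Cen _ _ (ct_two l l' hl hl' h2 h2' hd), hC]

/-- three cycles -/
theorem cen_three (l l' l'' : List (Fin n)) (hl : l.Nodup) (hl' : l'.Nodup) (hl'' : l''.Nodup)
    (h2 : 2 ≤ l.length) (h2' : 2 ≤ l'.length) (h2'' : 2 ≤ l''.length) (hd : ∀ a ∈ l, a ∉ l')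
    (hd1 : ∀ a ∈ l, a ∉ l'') (hd2 : ∀ a ∈ l', a ∉ l'') (C : ℕ)
    (hC : (n - ({l.length} + {l'.length} + {l''.length} : Multiset ℕ).sum)! *
      ({l.length} + {l'.length} + {l''.length} : Multiset ℕ).prod *
      ∏ c ∈ ({l.length} + {l'.length} + {l''.length} : Multiset ℕ).toFinset,
        (({l.length} + {l'.length} + {l''.length} : Multiset ℕ).count c)! = C) :
    (Cen (List.formPerm l * List.formPerm l' * List.formPerm l'')).card ≤ C := by
  rw [card_Cen _ _ (ct_three l l' l'' hl hl' hl'' h2 h2' h2'' hd hd1 hd2), hC]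

example : (Cen (List.formPerm [0, 1, 2, 3, 4, 5] : Perm (Fin 11))).card ≤ 720 :=
  cen_one _ (by decide) (by decide) _ (by decide +kernel)

example : (Cen (List.formPerm [0, 1, 2] * List.formPerm [3, 4, 5] : Perm (Fin 11))).card ≤ 2160 :=
  cen_two _ _ (by decide) (by decide) (by decide) (by decide) (by decide) _ (by decide +kernel)

end Pool.Col46
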