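import Pool.Agent.Work.MP_46fa68_17.O11a
import Pool.Agent.Work.MP_46fa68_17.O11b
import Pool.Agent.Work.MP_46fa68_17.O11c
import Pool.Agent.Work.MP_46fa68_17.O11d
import Pool.Agent.Work.MP_46fa68_17.E11_2
import Pool.Agent.Work.MP_46fa68_17.E11_3
import Pool.Agent.Work.MP_46fa68_17.E11_4a
import Pool.Agent.Work.MP_46fa68_17.E11_4b
import Pool.Agent.Work.MP_46fa68_17.E11_5a
import Pool.Agent.Work.MP_46fa68_17.E11_5b
import Pool.Agent.Work.MP_46fa68_17.Cent

/-!
# MP_46fa68_co: all tables for n = 11

helper17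
-/

set_option autoImplicit false

namespace Pool.Col46

/-- `m = 6`, one cycle of length 6 -/
theorem T11a.res : Tab 11 6 720 (List.formPerm [0, 1, 2, 3, 4, 5]) :=
  O11a.res (cen_one _ (by decide) (by decide) _ (by decide +kernel))

/-- `m = 6`, cycles of length 2, 4 -/
theorem T11b.res : Tab 11 6 720 (List.formPerm [0, 1] * List.formPerm [2, 3, 4, 5]) :=
  O11b.res (cen_two _ _ (by decide) (by decide) (by decide) (by decide) (by decide) _
    (by decide +kernel))

/-- `m = 6`, cycles of length 3, 3 -/
theorem T11c.res : Tab 11 6 720 (List.formPerm [0, 1, 2] * List.formPerm [3, 4, 5]) :=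
  O11c.res (cen_two _ _ (by decide) (by decide) (by decide) (by decide) (by decide) _
    (by decide +kernel))

/-- `m = 6`, cycles of length 2, 2, 2 -/
theorem T11d.res :
    Tab 11 6 720 (List.formPerm [0, 1] * List.formPerm [2, 3] * List.formPerm [4, 5]) :=
  O11d.res (cen_three _ _ _ (by decide) (by decide) (by decide) (by decide) (by decide)
    (by decide) (by decide) (by decide) (by decide) _ (by decide +kernel))

theorem D11_2.res (A : Finset (Equiv.Perm (Fin 11))) (F : Fam 11 9 (List.formPerm [0, 1]) A) :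
    A.card ≤ 3 :=
  (E11_2.res (cen_one _ (by decide) (by decide) _ (by decide +kernel)) A F).1

theorem D11_3.res (A : Finset (Equiv.Perm (Fin 11))) (F : Fam 11 8 (List.formPerm [0, 1, 2]) A) :
    A.card ≤ 14 :=
  (E11_3.res (cen_one _ (by decide) (by decide) _ (by decide +kernel)) A F).1

theorem D11_4a.res (A : Finset (Equiv.Perm (Fin 11)))
    (F : Fam 11 7 (List.formPerm [0, 1, 2, 3]) A) : A.card ≤ 52 :=
  (E11_4a.res (cen_one _ (by decide) (by decide) _ (by decide +kernel)) A F).1

theorem D11_4b.res (A : Finset (Equiv.Perm (Fin 11)))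
    (F : Fam 11 7 (List.formPerm [0, 1] * List.formPerm [2, 3]) A) : A.card ≤ 62 :=
  (E11_4b.res (cen_two _ _ (by decide) (by decide) (by decide) (by decide) (by decide) _
    (by decide +kernel)) A F).1

theorem D11_5a.res (A : Finset (Equiv.Perm (Fin 11)))
    (F : Fam 11 6 (List.formPerm [0, 1, 2, 3, 4]) A) : A.card ≤ 218 :=
  (E11_5a.res (cen_one _ (by decide) (by decide) _ (by decide +kernel)) A F).1

theorem D11_5b.res (A : Finset (Equiv.Perm (Fin 11)))
    (F : Fam 11 6 (List.formPerm [0, 1] * List.formPerm [2, 3, 4]) A) : A.card ≤ 206 :=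
  (E11_5b.res (cen_two _ _ (by decide) (by decide) (by decide) (by decide) (by decide) _
    (by decide +kernel)) A F).1

end Pool.Col46
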