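import Pool.Agent.Work.MP_46fa68_17.Q5a
import Pool.Agent.Work.MP_46fa68_17.Q3a
import Pool.Agent.Work.MP_46fa68_17.Cent

/-!
# MP_46fa68_co: the tables for n = 3, 5

helper17
-/

set_option autoImplicit false

namespace Pool.Col46

namespace D5_2

/-- the second point -/
def rho : Equiv.Perm (Fin 5) := List.formPerm [0, 1]

/-- the colour classes -/
def tab : List (List ℕ) :=
  [[274945],
[274960]]

theorem fc : FC 5 2 69905 rho tab where
  le := by norm_num
  hm := by norm_num
  hmsk := by decide +kernel
  all := by decide +kernel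
  ind := by decide +kernel

theorem len : tab.length = 2 := by decide +kernel

/-- bound for families of diameter `2` -/
theorem res (A : Finset (Equiv.Perm (Fin 5))) (F : Fam 5 3 rho A) : A.card ≤ 2 :=
  (fc.card_le F).trans (le_of_eq len)

end D5_2

/-- `n = 5`, `t = 2`, `m = 3` -/
theorem T5.res : Tab 5 3 6 (List.formPerm [0, 1, 2]) :=
  Q5a.res (cen_one _ (by decide) (by decide) _ (by decide +kernel))

/-- `n = 3`, `t = 1`, `m = 2` -/
theorem T3.res : Tab 3 2 2 (List.formPerm [0, 1]) :=
  Q3a.res (cen_one _ (by decide) (by decide) _ (by decide +kernel))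

end Pool.Col46
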