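import Pool.Agent.Work.MP_46fa68_17.Fast

/-!
# MP_46fa68_co: bounds for families of small diameter, n = 7
-/

set_option autoImplicit false

namespace Pool.Col46

namespace D7_2

/-- the second point -/
def rho : Equiv.Perm (Fin 7) := List.formPerm [0, 1]

/-- the colour classes -/
def tab : List (List ℕ) :=
  [[106181121],
[106181136]]

theorem fc : FC 7 2 17895697 rho tab where
  le := by norm_num
  hm := by norm_num
  hmsk := by decide +kernel
  all := by decide +kernel
  ind := by decide +kernel

theorem len : tab.length = 2 := by decide +kernel

/-- bound for families of diameter `2` -/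
theorem res (A : Finset (Equiv.Perm (Fin 7))) (F : Fam 7 5 rho A) : A.card ≤ 2 :=
  (fc.card_le F).trans (le_of_eq len)

end D7_2

namespace D7_3

/-- the second point -/
def rho : Equiv.Perm (Fin 7) := List.formPerm [0, 1, 2]

/-- the colour classes -/
def tab : List (List ℕ) :=
  [[106180641],
[106181136],
[106180626, 105985056, 106168881],
[106180896, 106049556, 5517921],
[106181121, 22296096, 106176531],
[106173216, 105919041, 103034901, 106180866],
[101987616, 100938321, 39071766]]

theorem fc : FC 7 3 17895697 rho tab where
  le := by norm_num
  hm := by norm_num
  hmsk := by decide +kernel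
  all := by decide +kernel
  ind := by decide +kernel

theorem len : tab.length = 7 := by decide +kernel

/-- bound for families of diameter `3` -/
theorem res (A : Finset (Equiv.Perm (Fin 7))) (F : Fam 7 4 rho A) : A.card ≤ 7 :=
  (fc.card_le F).trans (le_of_eq len)

end D7_3

end Pool.Col46
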