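import Pool.Agent.Work.MP_46fa68_17.Fast

/-!
# MP_46fa68_co: colouring table, `n = 7`, `m = 4`, `ρ = List.formPerm [0, 1, 2, 3]`
-/

set_option autoImplicit false

namespace Pool.Col46.T7a

/-- the second point -/
def rho : Equiv.Perm (Fin 7) := List.formPerm [0, 1, 2, 3]

/-- the colour classes -/
def tab : List (List ℕ) :=
  [[106181136],
[106177296, 12103589311745, 11107828307, 14249373734],
[106180896, 11001933283841, 8863900434, 2213356373011, 1103023571510],
[106173216, 11001883025921, 5516186234945, 14266140179],
[106176816, 1716531777, 5499006419986, 1110539764323],
[106172976, 1716532257, 2790392596],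
[6606032228640, 106181121, 2787377941],
[11380274208, 106177281, 2788426261],
[1106325541712, 106180641, 2790457876],
[106169121],
[2217649378592, 106176561, 5504374944036, 2723414806],
[7001629472, 106168881, 1108470944530, 2203692642340],
[7085310752, 1716716097, 106180866, 14330103059, 8863884054],
[9904569139488, 1711551057, 106173186, 3595633204],
[5506472370464, 6816867136, 1714684497, 106180626],
[18628154400, 1616131617, 1448100401, 106169106],
[24265245456, 11296585248, 12101442884097, 106172466, 11111825987],
[9165890320, 1616130657, 106168626, 4665389093],
[9229849360, 1711551777, 5498956154386, 106176771, 3591635509],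
[11376284448, 7715206475857, 6598516016402, 106172931, 4407010796308, 5504274542886],
[11376276768, 6816928576, 1666450017, 106176531],
[3317112772128, 1106324497232, 8814654140513, 106168851, 6603881591077],
[6733177696, 11004013721089, 1100954751537, 4407010804498, 106172451, 2740191766],
[6749950816, 13203103953921, 1347707441, 106168611, 1108470932245]]

/-- the permutations used -/
def gs : List (ℕ × ℕ) :=
  [(106181136, 106181136), (90452496, 90452496), (105198096, 105198096), (73740816, 88486416),
    (88486416, 73740816), (106169121, 106176771), (90440481, 90448131), (105186081, 105193731),
    (73728801, 88482051), (88474401, 73736451), (106172466, 106172466), (90443826, 90443826),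
    (88477746, 73732146)]

theorem fc : FC 7 4 17895697 rho tab where
  le := by norm_num
  hm := by norm_num
  hmsk := by decide +kernel
  all := by decide +kernel
  ind := by decide +kernel

theorem uc : UC 7 4 17895697 268435456 1620 106169121 rho gs tab where
  hN := by norm_num
  hS := by decide +kernel
  hR := by decide +kernel
  supp := by decide +kernel
  hgs := by decide +kernel
  chk := by decide +kernel

/-- result of the table -/
theorem res : Tab 7 4 24 rho := tab_of (by decide +kernel) fc uc

end Pool.Col46.T7a
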