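import Pool.Agent.Work.MP_46fa68_17.Fast

/-!
# MP_46fa68_co: colouring table, `n = 7`, `m = 4`, `ρ = List.formPerm [0, 1] * List.formPerm [2, 3]`
-/

set_option autoImplicit false

namespace Pool.Col46.T7b

/-- the second point -/
def rho : Equiv.Perm (Fin 7) := List.formPerm [0, 1] * List.formPerm [2, 3]

/-- the colour classes -/
def tab : List (List ℕ) :=
  [[106181136],
[106177296, 3861132545, 13195587633713],
[106180896, 3813958145, 7085237012],
[106173216, 13195587813953, 12118621696081, 4422043251714, 1364484611, 6621061457171],
[106176816, 3864015425, 23913051650, 1100955800067, 23929815830],
[7069770512, 106172976, 3864146945, 4422043190034],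
[5522628747584, 3323538445152, 106181121, 5521454409235, 23993778965],
[106177281],
[7035168272, 2224090780496, 106180641, 4399494676995, 2223020049172],
[7085433872, 106169121, 1123504370946, 1398018566],
[7018406672, 106176561, 3780391430],
[7001613152, 106168881, 1123503330066, 9919601320979, 23929827590],
[13218136277792, 14317564208688, 12096074154577, 106180866, 7080256277],
[7084516112, 3848548865, 11019113082945, 106173186, 5521504739350],
[7081304912, 3862188545, 106180626],
[16516671153200, 3763614305, 106169106, 23996805380, 1100957880837],
[7721649971536, 3864216065, 12118619600161, 106172466, 6984835862],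
[7085376272, 3797169665, 106168626, 4399494795780, 5521552973845],
[7052075792, 12118620656416, 3863294465, 10996463985201, 106176771],
[7082365712, 8821113364832, 11019012552225, 106172931, 7720578261012],
[11019029340960, 13218136208417, 10996514292321, 106176531, 3860083205],
[15417155527984, 25070539584, 3830854145, 106168851, 1123505418501],
[7085302592, 3859034705, 106172451],
[7083402512, 12096071029297, 11019046105185, 23896285970, 106168611, 3864080900]]

/-- the permutations used -/
def gs : List (ℕ × ℕ) :=
  [(106181136, 106181136), (90452496, 90452496), (105198096, 105198096), (73740816, 88486416),
    (88486416, 73740816), (106177296, 106177296), (90448656, 90448656), (105194256, 105194256),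
    (73736976, 88482576), (88482576, 73736976), (106181121, 106181121), (90452481, 90452481),
    (88486401, 73740801), (106177281, 106177281), (90448641, 90448641), (88482561, 73736961)]

theorem fc : FC 7 4 17895697 rho tab where
  le := by norm_num
  hm := by norm_num
  hmsk := by decide +kernel
  all := by decide +kernel
  ind := by decide +kernel

theorem uc : UC 7 4 17895697 268435456 1620 106177281 rho gs tab where
  hN := by norm_num
  hS := by decide +kernel
  hR := by decide +kernel
  supp := by decide +kernel
  hgs := by decide +kernel
  chk := by decide +kernel

/-- result of the table -/
theorem res : Tab 7 4 24 rho := tab_of (by decide +kernel) fc uc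

end Pool.Col46.T7b
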