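import Mathlib

/-!
# MP_46fa68_co: clique bounds from colourings of common neighbourhoods, computed in the kernel

Permutations of `Fin n` (`n ≤ 16`) are coded as numbers in base 16.  helper17
-/

set_option autoImplicit false

namespace Pool.Col46

open Equiv

/-! ### lists and codes -/

/-- number of places where two lists agree -/
def eqc : List ℕ → List ℕ → ℕ
  | a :: l, b :: l' => (if a = b then 1 else 0) + eqc l l'
  | _, _ => 0

/-- base 16 -/
def enc : List ℕ → ℕ
  | [] => 0
  | v :: vs => v + 16 * enc vs

/-- agreement count of two codes -/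
def agr : ℕ → ℕ → ℕ → ℕ
  | 0, _, _ => 0
  | k + 1, x, y => cond (Nat.beq (x % 16) (y % 16)) (agr k (x / 16) (y / 16) + 1)
      (agr k (x / 16) (y / 16))

def mem (x : ℕ) : List ℕ → Bool
  | [] => false
  | c :: cs => Nat.beq x c || mem x cs

lemma mem_spec (x : ℕ) (l : List ℕ) (h : mem x l = true) : x ∈ l := by
  induction l with
  | nil => simp [mem] at h
  | cons c cs ih =>
    unfold mem at h
    rcases Bool.or_eq_true _ _ ▸ h with h | h
    · rw [Nat.eq_of_beq_eq_true h]; simp
    · exact List.mem_cons_of_mem _ (ih h)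

lemma eqc_le (l l' : List ℕ) : eqc l l' ≤ l.length := by
  induction l generalizing l' with
  | nil => simp [eqc]
  | cons a l ih =>
    cases l' with
    | nil => simp [eqc]
    | cons b l' =>
      unfold eqc
      have := ih l'
      simp only [List.length_cons]
      split_ifs <;> omega

/-- the search: all lists of pairwise different values from `vals` which agree in at least `t`
places with both lists of `L` are in `cand` -/
def go (t : ℕ) : List (ℕ × ℕ) → List ℕ → ℕ → ℕ → ℕ → ℕ → List ℕ → Bool
  | [], _, a, b, _, acc, cand => Nat.ble (a + 1) t || (Nat.ble (b + 1) t || mem acc cand)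
  | pr :: L, vals, a, b, w, acc, cand =>
    Nat.ble (a + (L.length + 2)) t || (Nat.ble (b + (L.length + 2)) t ||
      vals.all (fun v => go t L (vals.erase v) (cond (Nat.beq v pr.1) (a + 1) a)
        (cond (Nat.beq v pr.2) (b + 1) b) (w * 16) (acc + v * w)
        (cand.filter (fun c => Nat.beq (c / w % 16) v))))

theorem go_spec (t : ℕ) : ∀ (L : List (ℕ × ℕ)) (vals : List ℕ) (a b w acc : ℕ) (cand τs : List ℕ),
    τs.length = L.length → τs.Nodup → (∀ v ∈ τs, v ∈ vals) →
    t ≤ a + eqc τs (L.map Prod.fst) → t ≤ b + eqc τs (L.map Prod.snd) →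
    go t L vals a b w acc cand = true → acc + w * enc τs ∈ cand := by
  intro L
  induction L with
  | nil =>
    intro vals a b w acc cand τs hl hn hv ha hb h
    have : τs = [] := List.length_eq_zero_iff.1 hl
    subst this
    unfold go at h
    simp only [eqc, enc] at *
    have h1 : Nat.ble (a + 1) t = false := by
      rw [Bool.eq_false_iff]; intro hh; have := Nat.le_of_ble_eq_true hh; omega
    have h2 : Nat.ble (b + 1) t = false := by
      rw [Bool.eq_false_iff]; intro hh; have := Nat.le_of_ble_eq_true hh; omega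
    rw [h1, h2, Bool.false_or, Bool.false_or] at h
    simpa using mem_spec _ _ h
  | cons pr L ih =>
    intro vals a b w acc cand τs hl hn hv ha hb h
    cases τs with
    | nil => simp at hl
    | cons v vs =>
      unfold go at h
      simp only [List.map_cons, eqc] at ha hb
      have hlen : vs.length = L.length := by simpa using hl
      have e1 := eqc_le vs (L.map Prod.fst)
      have e2 := eqc_le vs (L.map Prod.snd)
      have h1 : Nat.ble (a + (L.length + 2)) t = false := by
        rw [Bool.eq_false_iff]; intro hh; have := Nat.le_of_ble_eq_true hh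
        split_ifs at ha <;> omega
      have h2 : Nat.ble (b + (L.length + 2)) t = false := by
        rw [Bool.eq_false_iff]; intro hh; have := Nat.le_of_ble_eq_true hh
        split_ifs at hb <;> omega
      rw [h1, h2, Bool.false_or, Bool.false_or, List.all_eq_true] at h
      have hv0 : v ∈ vals := hv v (by simp)
      have h3 := h v hv0
      rw [List.nodup_cons] at hn
      have h4 := ih (vals.erase v) (cond (Nat.beq v pr.1) (a + 1) a)
        (cond (Nat.beq v pr.2) (b + 1) b) (w * 16) (acc + v * w)
        (cand.filter (fun c => Nat.beq (c / w % 16) v)) vs hlen hn.2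
        (fun u hu => by
          have hne : u ≠ v := fun h => hn.1 (h ▸ hu)
          exact (List.mem_erase_of_ne hne).2 (hv u (by simp [hu])))
        (by
          by_cases hvp : v = pr.1
          · have : Nat.beq v pr.1 = true := by rw [hvp]; exact Nat.beq_refl _
            rw [this, cond_true]; rw [if_pos hvp] at ha; omega
          · rw [if_neg hvp] at ha
            cases Nat.beq v pr.1 <;> simp only [cond_true, cond_false] <;> omega)
        (by
          by_cases hvp : v = pr.2
          · have : Nat.beq v pr.2 = true := by rw [hvp]; exact Nat.beq_refl _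
            rw [this, cond_true]; rw [if_pos hvp] at hb; omega
          · rw [if_neg hvp] at hb
            cases Nat.beq v pr.2 <;> simp only [cond_true, cond_false] <;> omega)
        h3
      have h5 := List.mem_of_mem_filter h4
      have e : acc + v * w + w * 16 * enc vs = acc + w * enc (v :: vs) := by
        show _ = acc + w * (v + 16 * enc vs)
        ring
      rw [e] at h5
      exact h5

lemma agr_enc : ∀ (l l' : List ℕ), l.length = l'.length → (∀ v ∈ l, v < 16) → (∀ v ∈ l', v < 16) →
    agr l.length (enc l) (enc l') = eqc l l' := by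
  intro l
  induction l with
  | nil => intro l' _ _ _; cases l' <;> simp [agr, eqc]
  | cons a l ih =>
    intro l' hl h h'
    cases l' with
    | nil => simp at hl
    | cons b l' =>
      have ha : a < 16 := h a (by simp)
      have hb : b < 16 := h' b (by simp)
      have e1 : (a + 16 * enc l) % 16 = a := by omega
      have e2 : (b + 16 * enc l') % 16 = b := by omega
      have e3 : (a + 16 * enc l) / 16 = enc l := by omega
      have e4 : (b + 16 * enc l') / 16 = enc l' := by omega
      have ih' := ih l' (by simpa using hl) (fun v hv => h v (by simp [hv]))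
        (fun v hv => h' v (by simp [hv]))
      show agr (l.length + 1) (a + 16 * enc l) (b + 16 * enc l') = (if a = b then 1 else 0) + eqc l l'
      unfold agr
      rw [e1, e2, e3, e4, ih']
      by_cases hab : a = b
      · have : Nat.beq a b = true := by rw [hab]; exact Nat.beq_refl _
        rw [this, if_pos hab, cond_true]; omega
      · have : Nat.beq a b = false := by
          rw [Bool.eq_false_iff]; intro hh; exact hab (Nat.eq_of_beq_eq_true hh)
        rw [this, if_neg hab, cond_false]; omega

/-! ### permutations -/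

variable {n : ℕ}

/-- the list of values -/
def vl (σ : Perm (Fin n)) : List ℕ := List.ofFn (fun i => (σ i : ℕ))

/-- the code -/
def code (σ : Perm (Fin n)) : ℕ := enc (vl σ)

/-- number of agreements -/
def ag (σ τ : Perm (Fin n)) : ℕ := (Finset.univ.filter (fun i : Fin n => σ i = τ i)).card

lemma eqc_ofFn : ∀ (k : ℕ) (f g : Fin k → ℕ),
    eqc (List.ofFn f) (List.ofFn g) = (Finset.univ.filter (fun i => f i = g i)).card := by
  intro k
  induction k with
  | zero => intro f g; simp [eqc]
  | succ k ih =>
    intro f g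
    rw [List.ofFn_succ, List.ofFn_succ]
    show (if f 0 = g 0 then 1 else 0) + eqc _ _ = _
    rw [ih, Finset.card_filter, Finset.card_filter, Fin.sum_univ_succ]

lemma eqc_vl (σ τ : Perm (Fin n)) : eqc (vl σ) (vl τ) = ag σ τ := by
  unfold vl ag
  rw [eqc_ofFn]
  congr 1
  ext i
  simp [Fin.val_inj]

lemma vl_length (σ : Perm (Fin n)) : (vl σ).length = n := by simp [vl]

lemma vl_lt (σ : Perm (Fin n)) (v : ℕ) (hv : v ∈ vl σ) : v < n := by
  unfold vl at hv
  rw [List.mem_ofFn] at hv
  obtain ⟨i, rfl⟩ := hv
  exact (σ i).2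

lemma vl_nodup (σ : Perm (Fin n)) : (vl σ).Nodup := by
  unfold vl
  rw [List.nodup_ofFn]
  intro i j h
  exact σ.injective (Fin.val_injective h)

lemma agr_code (hn : n ≤ 16) (σ τ : Perm (Fin n)) : agr n (code σ) (code τ) = ag σ τ := by
  have h := agr_enc (vl σ) (vl τ) (by rw [vl_length, vl_length])
    (fun v hv => lt_of_lt_of_le (vl_lt σ v hv) hn) (fun v hv => lt_of_lt_of_le (vl_lt τ v hv) hn)
  rw [vl_length] at h
  rw [← eqc_vl]
  exact h

lemma ag_self (σ : Perm (Fin n)) : ag σ σ = n := by simp [ag]

lemma ag_comm (σ τ : Perm (Fin n)) : ag σ τ = ag τ σ := by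
  unfold ag; congr 1; ext i; simp [eq_comm]

lemma ag_mul_left (g σ τ : Perm (Fin n)) : ag (g * σ) (g * τ) = ag σ τ := by
  unfold ag; congr 1; ext i; simp

lemma ag_mul_right (g σ τ : Perm (Fin n)) : ag (σ * g) (τ * g) = ag σ τ := by
  unfold ag
  apply Finset.card_bij (fun i _ => g i)
  · intro i hi
    simpa using hi
  · intro i _ j _ h; exact g.injective h
  · intro j hj
    refine ⟨g⁻¹ j, ?_, by simp⟩
    simpa using hj

lemma ag_eq_n (σ τ : Perm (Fin n)) (h : n ≤ ag σ τ) : σ = τ := by
  have h1 : (Finset.univ.filter (fun i : Fin n => σ i = τ i)) = Finset.univ := by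
    apply Finset.eq_univ_of_card
    rw [Fintype.card_fin]
    refine le_antisymm ?_ h
    calc _ ≤ (Finset.univ : Finset (Fin n)).card := Finset.card_filter_le _ _
      _ = n := by simp
  ext i
  have : i ∈ Finset.univ.filter (fun i : Fin n => σ i = τ i) := by rw [h1]; simp
  simpa using congrArg Fin.val (Finset.mem_filter.1 this).2

/-! ### the bound -/

/-- pairwise agreement `< t` -/
def pw (n t : ℕ) : List ℕ → Bool
  | [] => true
  | x :: xs => xs.all (fun y => Nat.ble (agr n x y + 1) t) && pw n t xs

lemma agr_comm : ∀ (k x y : ℕ), agr k x y = agr k y x := by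
  intro k
  induction k with
  | zero => intro x y; rfl
  | succ k ih =>
    intro x y
    unfold agr
    rw [ih (x / 16) (y / 16)]
    have : Nat.beq (x % 16) (y % 16) = Nat.beq (y % 16) (x % 16) := by
      by_cases h : x % 16 = y % 16
      · rw [h]
      · have h1 : Nat.beq (x % 16) (y % 16) = false := by
          rw [Bool.eq_false_iff]; intro hh; exact h (Nat.eq_of_beq_eq_true hh)
        have h2 : Nat.beq (y % 16) (x % 16) = false := by
          rw [Bool.eq_false_iff]; intro hh; exact h (Nat.eq_of_beq_eq_true hh).symm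
        rw [h1, h2]
    rw [this]

lemma pw_spec (n t : ℕ) (l : List ℕ) (h : pw n t l = true) (x y : ℕ) (hx : x ∈ l) (hy : y ∈ l)
    (hne : x ≠ y) : agr n x y < t := by
  induction l with
  | nil => simp at hx
  | cons z zs ih =>
    unfold pw at h
    rw [Bool.and_eq_true, List.all_eq_true] at h
    rcases List.mem_cons.1 hx with hx | hx
    · rcases List.mem_cons.1 hy with hy | hy
      · exact absurd (hx.trans hy.symm) hne
      · have := Nat.le_of_ble_eq_true (h.1 y hy)
        rw [hx]; omega
    · rcases List.mem_cons.1 hy with hy | hy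
      · have := Nat.le_of_ble_eq_true (h.1 x hx)
        rw [hy, agr_comm]; omega
      · exact ih h.2 hx hy

/-- the certificate: every permutation agreeing in at least `t` places with `1` and with `ρ` is in
one of the classes, the classes are codes -/
structure Cert (n t : ℕ) (ρ : Perm (Fin n)) (cls : List (List ℕ)) : Prop where
  le : n ≤ 16
  all : go t ((vl (1 : Perm (Fin n))).zip (vl ρ)) (List.range n) 0 0 1 0 cls.flatten = true
  ind : cls.all (pw n t) = true

/-- `A` contains `1` and `ρ`, any two members agree in at least `t` places -/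
structure Fam (n t : ℕ) (ρ : Perm (Fin n)) (A : Finset (Perm (Fin n))) : Prop where
  one : 1 ∈ A
  rho : ρ ∈ A
  int : ∀ σ ∈ A, ∀ τ ∈ A, t ≤ ag σ τ

lemma mem_cls {t : ℕ} {ρ : Perm (Fin n)} {cls : List (List ℕ)} (C : Cert n t ρ cls)
    {A : Finset (Perm (Fin n))} (F : Fam n t ρ A) (τ : Perm (Fin n)) (hτ : τ ∈ A) :
    ∃ c : Fin cls.length, code τ ∈ cls.get c := by
  have h1 := F.int τ hτ 1 F.one
  have h2 := F.int τ hτ ρ F.rho
  have hfst : ((vl (1 : Perm (Fin n))).zip (vl ρ)).map Prod.fst = vl (1 : Perm (Fin n)) := by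
    apply List.map_fst_zip; rw [vl_length, vl_length]
  have hsnd : ((vl (1 : Perm (Fin n))).zip (vl ρ)).map Prod.snd = vl ρ := by
    apply List.map_snd_zip; rw [vl_length, vl_length]
  have h := go_spec t ((vl (1 : Perm (Fin n))).zip (vl ρ)) (List.range n) 0 0 1 0 cls.flatten (vl τ)
    (by rw [List.length_zip, vl_length, vl_length, vl_length, min_self]) (vl_nodup τ)
    (fun v hv => List.mem_range.2 (vl_lt τ v hv))
    (by rw [hfst, eqc_vl]; omega) (by rw [hsnd, eqc_vl]; omega) C.all
  rw [zero_add, one_mul] at h
  obtain ⟨l, hl, hx⟩ := List.mem_flatten.1 h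
  obtain ⟨c, hc⟩ := List.get_of_mem hl
  exact ⟨c, by rw [hc]; exact hx⟩

/-- the colouring -/
theorem exists_col {t : ℕ} {ρ : Perm (Fin n)} {cls : List (List ℕ)} (C : Cert n t ρ cls)
    {A : Finset (Perm (Fin n))} (F : Fam n t ρ A) :
    ∃ f : {τ // τ ∈ A} → Fin cls.length, Function.Injective f ∧
      ∀ τ, code τ.1 ∈ cls.get (f τ) := by
  choose f hf using fun τ : {τ // τ ∈ A} => mem_cls C F τ.1 τ.2
  refine ⟨f, ?_, hf⟩
  intro τ υ h
  by_contra hne
  have hne' : τ.1 ≠ υ.1 := fun hh => hne (Subtype.ext hh)
  have hx := hf τ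
  have hy := hf υ
  rw [← h] at hy
  have hag := F.int τ.1 τ.2 υ.1 υ.2
  rw [← agr_code C.le] at hag
  have hcne : code τ.1 ≠ code υ.1 := by
    intro hh
    have : ag τ.1 υ.1 = n := by
      rw [← agr_code C.le, hh, agr_code C.le, ag_self]
    exact hne' (ag_eq_n _ _ this.ge)
  have hind := List.all_eq_true.1 C.ind (cls.get (f τ)) (List.get_mem _ _)
  have := pw_spec n t _ hind _ _ hx hy hcne
  omega

theorem card_le {t : ℕ} {ρ : Perm (Fin n)} {cls : List (List ℕ)} (C : Cert n t ρ cls)
    {A : Finset (Perm (Fin n))} (F : Fam n t ρ A) : A.card ≤ cls.length := by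
  obtain ⟨f, hf, -⟩ := exists_col C F
  have := Fintype.card_le_of_injective f hf
  simpa using this

theorem surj {t : ℕ} {ρ : Perm (Fin n)} {cls : List (List ℕ)} (C : Cert n t ρ cls)
    {A : Finset (Perm (Fin n))} (F : Fam n t ρ A) (hA : A.card = cls.length) (c : Fin cls.length) :
    ∃ τ ∈ A, code τ ∈ cls.get c := by
  obtain ⟨f, hf, hfm⟩ := exists_col C F
  have hb : Function.Bijective f := by
    rw [Fintype.bijective_iff_injective_and_card]
    exact ⟨hf, by simpa using hA⟩
  obtain ⟨τ, hτ⟩ := hb.2 c
  exact ⟨τ.1, τ.2, hτ ▸ hfm τ⟩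

end Pool.Col46
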