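import Pool.Agent.Work.MP_46fa68_17.Oq5

/-!
# MP_46fa68_co: orbit certificate E13_3, representatives
-/

set_option autoImplicit false

namespace Pool.Col46.E13_3

/-- the second point -/
def rho : Equiv.Perm (Fin 13) := List.formPerm [0, 1, 2]

/-- the positions -/
def vs : List ℕ := [nat_lit 0, nat_lit 1, nat_lit 2, nat_lit 3, nat_lit 4, nat_lit 5, nat_lit 6, nat_lit 7, nat_lit 8, nat_lit 9, nat_lit 10, nat_lit 11, nat_lit 12]

/-- the pairs of values -/
def prs : List (ℕ × ℕ) := [(nat_lit 1, nat_lit 2), (nat_lit 2, nat_lit 0), (nat_lit 3, nat_lit 3), (nat_lit 4, nat_lit 4), (nat_lit 5, nat_lit 5), (nat_lit 6, nat_lit 6), (nat_lit 7, nat_lit 7), (nat_lit 8, nat_lit 8), (nat_lit 9, nat_lit 9), (nat_lit 10, nat_lit 10), (nat_lit 11, nat_lit 11), (nat_lit 12, nat_lit 12)]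

/-- block 0 of the representatives -/
def rb0 : List (ℕ × List ℕ) :=
    [(3582863703552528, [3582863703552033, 3582863703552258, 3582863703552528]), 
    (3582863703552288, [3582863703552528]), (3582863703544608, [3582863703552528]), 
    (3582863703552033, [3582863703552033, 3582863703552258, 3582863703552528]), 
    (3582863703552258, [3582863703552033, 3582863703552258, 3582863703552528])]

/-- a group of blocks -/
def rg0 : List (List (ℕ × List ℕ)) := [rb0]

/-- all representatives -/
def reps : List (List (ℕ × List ℕ)) :=
  rg0 ++ []

/-- codes with weights, part 0 -/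
def sets0 : List (ℕ × List ℕ) :=
    [(102, [66092169790416651662512848886837776]), (342, [66092169770016028465523180814218528
    , 66092169789278303094731431711093313, 66092169790416651680527247396319490
    , 66092085280825889691180649925586968]), (752, [65746016667199387793890383058189088
    , 66092164508916996609208937685987953, 66092169460597445369587540121890838]), (102, [
    66092169790416651676023647768948769]), (302, [66092169790407520528699962286157842])]

theorem sets0_ok : allR (fun s => cond (pwR 300239975158033 3 s.2)
    (allR (chkXq 4503599627370496 18446744073709551616 8191 3582863703552033 vs reps) s.2) false) sets0 = true := by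
  decide +kernel

/-- canonical members, part 0 -/
def lf0 : List ℕ :=
    [66092169790416651662512848886837776, 66092169790416651667016448514208032, 
    66092169790416651671520048141570848, 66092169790411671046116546935271937, 
    66092169790416651676023647768948769, 66092169790411671050620146562630193, 
    66092169790416651680527247396319490, 66092169790407520528699962286157842, 
    66092169790407520533203561913524243]

theorem lf0_ok : allR (chkXq 4503599627370496 18446744073709551616 8191 3582863703552033 vs reps) lf0 = true := by
  decide +kernel

/-- all codes -/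
def sets : List (ℕ × List ℕ) :=
  sets0 ++ []

/-- all canonical members -/
def lf : List ℕ :=
  lf0 ++ []

theorem wt : wtR sets = 100 * 16 := by decide +kernel

theorem rg0_ok : chkAq 3 4503599627370496 8191 3582863703552033 1088640000 vs sets rg0 0 = true := by
  decide +kernel

theorem go0_ok : allR (rt7 10 3 (0, 1) prs vs 300239975158033 lf) [nat_lit 0, nat_lit 1, nat_lit 2, nat_lit 3, nat_lit 4, nat_lit 5, nat_lit 6, nat_lit 7, nat_lit 8, nat_lit 9, nat_lit 10, nat_lit 11, nat_lit 12] = true := by
  decide +kernel

theorem sets_all : allR (fun s => cond (pwR 300239975158033 3 s.2)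
    (allR (chkXq 4503599627370496 18446744073709551616 8191 3582863703552033 vs reps) s.2) false) sets = true := by
  unfold sets
  refine allR_append _ _ _ sets0_ok ?_
  rfl

theorem lf_all : allR (chkXq 4503599627370496 18446744073709551616 8191 3582863703552033 vs reps) lf = true := by
  unfold lf
  refine allR_append _ _ _ lf0_ok ?_
  rfl

theorem reps_all : chkAq 3 4503599627370496 8191 3582863703552033 1088640000 vs sets reps 0 = true := by
  unfold reps
  refine chkAq_append _ _ _ 1 (by rfl) rg0_ok ?_
  rfl

theorem go_all : allR (rt7 10 3 (0, 1) prs vs 300239975158033 lf) vs = true := by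
  exact go0_ok

theorem hmsk : mask 13 = 300239975158033 := by decide +kernel

theorem hzip : (vl (1 : Equiv.Perm (Fin 13))).zip (vl rho) = (0, 1) :: prs := by decide +kernel

theorem hcov : Covers 13 3 rho lf :=
  covers_of (t := 10) (by norm_num) (by norm_num) (by norm_num) (by decide +kernel)
    (by decide +kernel) hmsk hzip go_all

theorem oq (h : (Cen rho).card ≤ 10886400) : OR 13 3 300239975158033 4503599627370496 18446744073709551616 8191 3582863703552033
    100 16 10886400 rho vs sets reps lf where
  le := by norm_num
  hm := by norm_num
  hmsk := hmsk
  hN := by norm_num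
  hNL := by norm_num
  hfull := by norm_num
  hvs := by decide +kernel
  hR := by decide +kernel
  hρ := by decide +kernel
  hD := by norm_num
  hCC := h
  wt := wt
  hsets := sets_of sets_all
  hreps := reps_of reps_all
  hlf := allR_spec _ _ lf_all
  hcov := hcov

/-- result of the table -/
theorem res (h : (Cen rho).card ≤ 10886400) : Tab 13 3 16 rho := (oq h).tab

end Pool.Col46.E13_3
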