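import Pool.Agent.Work.MP_46fa68_17.Core

/-!
# MP_46fa68_co: colouring tables with uniqueness, fast kernel version

An entry of a table is `code + 16 ^ n * w`, where `w` holds the level and the witness.  helper17
-/

set_option autoImplicit false

namespace Pool.Col46

open Equiv

/-! ### counting disagreements with bit operations -/

/-- `111...1` in base 16 -/
def mask : ℕ → ℕ
  | 0 => 0
  | k + 1 => 16 * mask k + 1

/-- number of nonzero digits -/
def dz (msk z : ℕ) : ℕ :=
  Nat.mod (Nat.land (Nat.lor (Nat.lor z (Nat.shiftRight z 1))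
    (Nat.lor (Nat.shiftRight z 2) (Nat.shiftRight z 3))) msk) 15

/-- number of disagreements -/
def dis (msk x y : ℕ) : ℕ := dz msk (Nat.xor x y)

/-- number of nonzero digits, slow -/
def nz : ℕ → ℕ → ℕ
  | 0, _ => 0
  | k + 1, z => (if z % 16 = 0 then 0 else 1) + nz k (z / 16)

/-- folded bits -/
def fb (z : ℕ) : ℕ := (z ||| z >>> 1) ||| (z >>> 2 ||| z >>> 3)

lemma fb_div (z : ℕ) : fb z / 16 = fb (z / 16) := by
  unfold fb
  have h16 : (16 : ℕ) = 2 ^ 4 := by norm_num
  rw [h16, Nat.or_div_two_pow, Nat.or_div_two_pow, Nat.or_div_two_pow]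
  simp only [Nat.shiftRight_eq_div_pow, Nat.div_div_eq_div_mul, Nat.mul_comm]

lemma fb_mod (z : ℕ) : fb z % 2 = if z % 16 = 0 then 0 else 1 := by
  have h2 : (2 : ℕ) = 2 ^ 1 := by norm_num
  have e : fb z % 2 = ((z % 2) ||| (z / 2 % 2)) ||| ((z / 4 % 2) ||| (z / 8 % 2)) := by
    unfold fb
    conv_lhs => rw [h2]
    rw [Nat.or_mod_two_pow, Nat.or_mod_two_pow, Nat.or_mod_two_pow]
    simp only [Nat.shiftRight_eq_div_pow]
    norm_num
  rw [e]
  have h1 : z % 2 = (z % 16) % 2 := by omega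
  have h3 : z / 2 % 2 = (z % 16) / 2 % 2 := by omega
  have h4 : z / 4 % 2 = (z % 16) / 4 % 2 := by omega
  have h5 : z / 8 % 2 = (z % 16) / 8 % 2 := by omega
  rw [h1, h3, h4, h5]
  have hr : z % 16 < 16 := Nat.mod_lt _ (by norm_num)
  generalize z % 16 = r at hr
  interval_cases r <;> rfl

lemma fb_and (k z : ℕ) :
    fb z &&& mask (k + 1) = (if z % 16 = 0 then 0 else 1) + 16 * (fb (z / 16) &&& mask k) := by
  have h16 : (16 : ℕ) = 2 ^ 4 := by norm_num
  have hm : mask (k + 1) % 16 = 1 := by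
    show (16 * mask k + 1) % 16 = 1
    omega
  have hd : mask (k + 1) / 16 = mask k := by
    show (16 * mask k + 1) / 16 = mask k
    omega
  have e1 : (fb z &&& mask (k + 1)) % 16 = fb z % 2 := by
    conv_lhs => rw [h16]
    rw [Nat.and_mod_two_pow, ← h16, hm, Nat.and_one_is_mod]
    omega
  have e2 : (fb z &&& mask (k + 1)) / 16 = fb (z / 16) &&& mask k := by
    conv_lhs => rw [h16]
    rw [Nat.and_div_two_pow, ← h16, hd, fb_div]
  rw [← fb_mod, ← e1, ← e2]
  omega

lemma nz_le (k z : ℕ) : nz k z ≤ k := by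
  induction k generalizing z with
  | zero => exact le_rfl
  | succ k ih =>
    unfold nz
    have := ih (z / 16)
    split_ifs <;> omega

lemma fb_and_mod (k z : ℕ) : (fb z &&& mask k) % 15 = nz k z % 15 := by
  induction k generalizing z with
  | zero => simp [mask, nz]
  | succ k ih =>
    rw [fb_and]
    unfold nz
    have := ih (z / 16)
    omega

lemma dz_eq (k z : ℕ) (hk : k ≤ 14) : dz (mask k) z = nz k z := by
  have h := fb_and_mod k z
  have h2 := nz_le k z
  have e : dz (mask k) z = (fb z &&& mask k) % 15 := rfl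
  rw [e, h]
  omega

lemma nz_xor (k x y : ℕ) : nz k (x ^^^ y) + agr k x y = k := by
  induction k generalizing x y with
  | zero => rfl
  | succ k ih =>
    have h16 : (16 : ℕ) = 2 ^ 4 := by norm_num
    have e1 : (x ^^^ y) % 16 = (x % 16) ^^^ (y % 16) := by
      conv_lhs => rw [h16]
      rw [Nat.xor_mod_two_pow, ← h16]
    have e2 : (x ^^^ y) / 16 = (x / 16) ^^^ (y / 16) := by
      conv_lhs => rw [h16]
      rw [Nat.xor_div_two_pow, ← h16]
    unfold nz agr
    rw [e1, e2]
    have := ih (x / 16) (y / 16)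
    by_cases h : x % 16 = y % 16
    · rw [if_pos (Nat.xor_eq_zero_iff.2 h)]
      have hb : Nat.beq (x % 16) (y % 16) = true := by rw [h]; exact Nat.beq_refl _
      rw [hb, cond_true]
      omega
    · rw [if_neg (fun hh => h (Nat.xor_eq_zero_iff.1 hh))]
      have hb : Nat.beq (x % 16) (y % 16) = false := by
        rw [Bool.eq_false_iff]; intro hh; exact h (Nat.eq_of_beq_eq_true hh)
      rw [hb, cond_false]
      omega

lemma dis_agr (k x y : ℕ) (hk : k ≤ 14) : dis (mask k) x y + agr k x y = k := by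
  have h := nz_xor k x y
  have e : dis (mask k) x y = nz k (x ^^^ y) := dz_eq k _ hk
  omega

lemma agr_mod (k x y : ℕ) : agr k (x % 16 ^ k) y = agr k x y := by
  induction k generalizing x y with
  | zero => rfl
  | succ k ih =>
    unfold agr
    have e1 : x % 16 ^ (k + 1) % 16 = x % 16 := by
      rw [pow_succ, Nat.mul_comm, Nat.mod_mul_right_mod]
    have e2 : x % 16 ^ (k + 1) / 16 = x / 16 % 16 ^ k := by
      rw [pow_succ, Nat.mul_comm, Nat.mod_mul, Nat.add_mul_div_left _ _ (by norm_num : 0 < 16),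
        Nat.div_eq_of_lt (Nat.mod_lt _ (by norm_num)), Nat.zero_add]
    rw [e1, e2, ih]

lemma agr_mod' (k x y : ℕ) : agr k x (y % 16 ^ k) = agr k x y := by
  rw [agr_comm, agr_mod, agr_comm]

/-! ### the search -/

/-- `go` without the accumulator: entries may have further digits -/
def go2 (t : ℕ) : List (ℕ × ℕ) → List ℕ → ℕ → ℕ → ℕ → List ℕ → Bool
  | [], _, a, b, _, cand => Nat.ble (a + 1) t || (Nat.ble (b + 1) t || !cand.isEmpty)
  | pr :: L, vals, a, b, w, cand =>
    Nat.ble (a + (L.length + 2)) t || (Nat.ble (b + (L.length + 2)) t ||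
      vals.all (fun v => go2 t L (vals.erase v) (cond (Nat.beq v pr.1) (a + 1) a)
        (cond (Nat.beq v pr.2) (b + 1) b) (w * 16)
        (cand.filter (fun c => Nat.beq (c / w % 16) v))))

theorem go2_spec (t : ℕ) : ∀ (L : List (ℕ × ℕ)) (vals : List ℕ) (a b w : ℕ) (cand τs : List ℕ),
    τs.length = L.length → τs.Nodup → (∀ v ∈ τs, v ∈ vals) →
    t ≤ a + eqc τs (L.map Prod.fst) → t ≤ b + eqc τs (L.map Prod.snd) →
    go2 t L vals a b w cand = true → ∃ c ∈ cand, c / w % 16 ^ L.length = enc τs := by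
  intro L
  induction L with
  | nil =>
    intro vals a b w cand τs hl hn hv ha hb h
    have : τs = [] := List.length_eq_zero_iff.1 hl
    subst this
    unfold go2 at h
    simp only [eqc, enc] at *
    have h1 : Nat.ble (a + 1) t = false := by
      rw [Bool.eq_false_iff]; intro hh; have := Nat.le_of_ble_eq_true hh; omega
    have h2 : Nat.ble (b + 1) t = false := by
      rw [Bool.eq_false_iff]; intro hh; have := Nat.le_of_ble_eq_true hh; omega
    rw [h1, h2, Bool.false_or, Bool.false_or] at h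
    cases cand with
    | nil => simp at h
    | cons c cs => exact ⟨c, by simp, by simp [Nat.mod_one]⟩
  | cons pr L ih =>
    intro vals a b w cand τs hl hn hv ha hb h
    cases τs with
    | nil => simp at hl
    | cons v vs =>
      unfold go2 at h
      simp only [List.map_cons, eqc] at ha hb
      have hlen : vs.length = L.length := by simpa using hl
      have e1 := eqc_le vs (L.map Prod.fst)
      have e2 := eqc_le vs (L.map Prod.snd)
      have h1 : Nat.ble (a + (L.length + 2)) t = false := by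
        rw [Bool.eq_false_iff]; intro hh; have := Nat.le_of_ble_eq_true hh
        split_ifs at ha <;> omega
      have h2 : Nat.ble (b + (L.length + 2)) t = false := by
        rw [Bool.eq_false_iff]; intro hh; have := Nat.le_of_ble_eq_true hh
        split_ifs at hb <;> omega
      rw [h1, h2, Bool.false_or, Bool.false_or, List.all_eq_true] at h
      have hv0 : v ∈ vals := hv v (by simp)
      have h3 := h v hv0
      rw [List.nodup_cons] at hn
      obtain ⟨c, hc, hce⟩ := ih (vals.erase v) (cond (Nat.beq v pr.1) (a + 1) a)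
        (cond (Nat.beq v pr.2) (b + 1) b) (w * 16)
        (cand.filter (fun c => Nat.beq (c / w % 16) v)) vs hlen hn.2
        (fun u hu => by
          have hne : u ≠ v := fun h => hn.1 (h ▸ hu)
          exact (List.mem_erase_of_ne hne).2 (hv u (by simp [hu])))
        (by
          by_cases hvp : v = pr.1
          · have : Nat.beq v pr.1 = true := by rw [hvp]; exact Nat.beq_refl _
            rw [this, cond_true]; rw [if_pos hvp] at ha; omega
          · rw [if_neg hvp] at ha
            cases Nat.beq v pr.1 <;> simp only [cond_true, cond_false] <;> omega)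
        (by
          by_cases hvp : v = pr.2
          · have : Nat.beq v pr.2 = true := by rw [hvp]; exact Nat.beq_refl _
            rw [this, cond_true]; rw [if_pos hvp] at hb; omega
          · rw [if_neg hvp] at hb
            cases Nat.beq v pr.2 <;> simp only [cond_true, cond_false] <;> omega)
        h3
      rw [List.mem_filter] at hc
      refine ⟨c, hc.1, ?_⟩
      have hv1 : c / w % 16 = v := Nat.eq_of_beq_eq_true hc.2
      show c / w % 16 ^ (L.length + 1) = v + 16 * enc vs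
      rw [pow_succ, Nat.mul_comm, Nat.mod_mul, hv1, Nat.div_div_eq_div_mul, hce]

/-! ### tables -/

variable {n : ℕ}

/-- pairwise at distance more than `m` -/
def pw2 (msk m : ℕ) : List ℕ → Bool
  | [] => true
  | x :: xs => xs.all (fun y => Nat.ble (m + 1) (dis msk x y)) && pw2 msk m xs

lemma pw2_spec (msk m : ℕ) (hs : ∀ x y, dis msk x y = dis msk y x) (l : List ℕ)
    (h : pw2 msk m l = true) (x y : ℕ) (hx : x ∈ l) (hy : y ∈ l) (hne : x ≠ y) :
    m < dis msk x y := by
  induction l with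
  | nil => simp at hx
  | cons z zs ih =>
    unfold pw2 at h
    rw [Bool.and_eq_true, List.all_eq_true] at h
    rcases List.mem_cons.1 hx with hx | hx
    · rcases List.mem_cons.1 hy with hy | hy
      · exact absurd (hx.trans hy.symm) hne
      · have := Nat.le_of_ble_eq_true (h.1 y hy)
        rw [hx]; omega
    · rcases List.mem_cons.1 hy with hy | hy
      · have := Nat.le_of_ble_eq_true (h.1 x hx)
        rw [hs, hy]; omega
      · exact ih h.2 hx hy

lemma dis_symm (k x y : ℕ) : dis (mask k) x y = dis (mask k) y x := by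
  unfold dis
  rw [show Nat.xor x y = Nat.xor y x from Nat.xor_comm x y]

/-- the certificate for the bound: `m` is the largest allowed distance -/
structure FC (n m msk : ℕ) (ρ : Perm (Fin n)) (tab : List (List ℕ)) : Prop where
  le : n ≤ 14
  hm : m ≤ n
  hmsk : mask n = msk
  all : go2 (n - m) ((vl (1 : Perm (Fin n))).zip (vl ρ)) (List.range n) 0 0 1 tab.flatten = true
  ind : tab.all (pw2 msk m) = true

lemma dis_code {m msk : ℕ} {ρ : Perm (Fin n)} {tab : List (List ℕ)} (C : FC n m msk ρ tab)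
    (σ τ : Perm (Fin n)) (e e' : ℕ) (he : e % 16 ^ n = code σ) (he' : e' % 16 ^ n = code τ) :
    dis msk e e' + ag σ τ = n := by
  have h := dis_agr n e e' C.le
  rw [C.hmsk] at h
  have hn : n ≤ 16 := le_trans C.le (by norm_num)
  rw [← agr_code hn, ← he, ← he', agr_mod, agr_mod']
  exact h

lemma FC.mem {m msk : ℕ} {ρ : Perm (Fin n)} {tab : List (List ℕ)} (C : FC n m msk ρ tab)
    {A : Finset (Perm (Fin n))} (F : Fam n (n - m) ρ A) (τ : Perm (Fin n)) (hτ : τ ∈ A) :
    ∃ c : Fin tab.length, ∃ e ∈ tab.get c, e % 16 ^ n = code τ := by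
  have h1 := F.int τ hτ 1 F.one
  have h2 := F.int τ hτ ρ F.rho
  have hfst : ((vl (1 : Perm (Fin n))).zip (vl ρ)).map Prod.fst = vl (1 : Perm (Fin n)) := by
    apply List.map_fst_zip; rw [vl_length, vl_length]
  have hsnd : ((vl (1 : Perm (Fin n))).zip (vl ρ)).map Prod.snd = vl ρ := by
    apply List.map_snd_zip; rw [vl_length, vl_length]
  obtain ⟨e, he, hee⟩ := go2_spec (n - m) ((vl (1 : Perm (Fin n))).zip (vl ρ)) (List.range n) 0 0 1
    tab.flatten (vl τ)
    (by rw [List.length_zip, vl_length, vl_length, vl_length, min_self]) (vl_nodup τ)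
    (fun v hv => List.mem_range.2 (vl_lt τ v hv))
    (by rw [hfst, eqc_vl]; omega) (by rw [hsnd, eqc_vl]; omega) C.all
  rw [Nat.div_one, List.length_zip, vl_length, vl_length, min_self] at hee
  obtain ⟨l, hl, hx⟩ := List.mem_flatten.1 he
  obtain ⟨c, hc⟩ := List.get_of_mem hl
  exact ⟨c, e, by rw [hc]; exact hx, hee⟩

theorem FC.exists_col {m msk : ℕ} {ρ : Perm (Fin n)} {tab : List (List ℕ)} (C : FC n m msk ρ tab)
    {A : Finset (Perm (Fin n))} (F : Fam n (n - m) ρ A) :
    ∃ f : {τ // τ ∈ A} → Fin tab.length, Function.Injective f ∧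
      ∀ τ, ∃ e ∈ tab.get (f τ), e % 16 ^ n = code τ.1 := by
  choose f hf using fun τ : {τ // τ ∈ A} => C.mem F τ.1 τ.2
  refine ⟨f, ?_, hf⟩
  intro τ υ h
  by_contra hne
  have hne' : τ.1 ≠ υ.1 := fun hh => hne (Subtype.ext hh)
  obtain ⟨x, hx, hxe⟩ := hf τ
  obtain ⟨y, hy, hye⟩ := hf υ
  rw [← h] at hy
  have hag := F.int τ.1 τ.2 υ.1 υ.2
  have hd := dis_code C τ.1 υ.1 x y hxe hye
  have hn : n ≤ 16 := le_trans C.le (by norm_num)
  have hcne : x ≠ y := by
    intro hh
    have h1 : code τ.1 = code υ.1 := by rw [← hxe, ← hye, hh]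
    have : ag τ.1 υ.1 = n := by
      rw [← agr_code hn, h1, agr_code hn, ag_self]
    exact hne' (ag_eq_n _ _ this.ge)
  have hind := List.all_eq_true.1 C.ind (tab.get (f τ)) (List.get_mem _ _)
  have := pw2_spec msk m (by rw [← C.hmsk]; exact dis_symm n) _ hind _ _ hx hy hcne
  have := C.hm
  omega

theorem FC.card_le {m msk : ℕ} {ρ : Perm (Fin n)} {tab : List (List ℕ)} (C : FC n m msk ρ tab)
    {A : Finset (Perm (Fin n))} (F : Fam n (n - m) ρ A) : A.card ≤ tab.length := by
  obtain ⟨f, hf, -⟩ := C.exists_col F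
  have := Fintype.card_le_of_injective f hf
  simpa using this

theorem FC.surj {m msk : ℕ} {ρ : Perm (Fin n)} {tab : List (List ℕ)} (C : FC n m msk ρ tab)
    {A : Finset (Perm (Fin n))} (F : Fam n (n - m) ρ A) (hA : A.card = tab.length)
    (cl : List ℕ) (hcl : cl ∈ tab) : ∃ τ ∈ A, ∃ e ∈ cl, e % 16 ^ n = code τ := by
  obtain ⟨f, hf, hfm⟩ := C.exists_col F
  have hb : Function.Bijective f := by
    rw [Fintype.bijective_iff_injective_and_card]
    exact ⟨hf, by simpa using hA⟩
  obtain ⟨c, hc⟩ := List.get_of_mem hcl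
  obtain ⟨τ, hτ⟩ := hb.2 c
  obtain ⟨e, he, hee⟩ := hfm τ
  exact ⟨τ.1, τ.2, e, by rw [← hc, ← hτ]; exact he, hee⟩

/-! ### conjugation -/

/-- digit -/
def dg (x i : ℕ) : ℕ := x / 16 ^ i % 16

/-- the code of the conjugate -/
def cj (G G' x : ℕ) : ℕ → ℕ → ℕ
  | 0, _ => 0
  | k + 1, i => dg G (dg x (dg G' i)) + 16 * cj G G' x k (i + 1)

lemma cj_eq (G G' x : ℕ) : ∀ (k i : ℕ),
    cj G G' x k i = enc (List.ofFn (fun j : Fin k => dg G (dg x (dg G' (i + j))))) := by
  intro k
  induction k with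
  | zero => intro i; simp [cj, enc]
  | succ k ih =>
    intro i
    unfold cj
    rw [ih, List.ofFn_succ]
    have e : (fun j : Fin k => dg G (dg x (dg G' (i + 1 + (j : ℕ))))) =
        fun j : Fin k => dg G (dg x (dg G' (i + ((Fin.succ j : Fin (k + 1)) : ℕ)))) := by
      funext j
      rw [Fin.val_succ, show i + ((j : ℕ) + 1) = i + 1 + (j : ℕ) by omega]
    rw [e]
    rfl

lemma dg_enc : ∀ (l : List ℕ), (∀ v ∈ l, v < 16) → ∀ (i : ℕ) (hi : i < l.length),
    dg (enc l) i = l[i] := by
  intro l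
  induction l with
  | nil => intro _ i hi; simp at hi
  | cons a l ih =>
    intro h i hi
    have ha : a < 16 := h a (by simp)
    unfold dg
    show (a + 16 * enc l) / 16 ^ i % 16 = _
    cases i with
    | zero => simp only [pow_zero, Nat.div_one, List.getElem_cons_zero]; omega
    | succ i =>
      have e0 : (a + 16 * enc l) / 16 = enc l := by omega
      have e : (a + 16 * enc l) / 16 ^ (i + 1) = enc l / 16 ^ i := by
        rw [pow_succ, Nat.mul_comm (16 ^ i) 16, ← Nat.div_div_eq_div_mul, e0]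
      rw [e]
      have := ih (fun v hv => h v (by simp [hv])) i (by simpa using hi)
      unfold dg at this
      rw [this]
      simp

lemma dg_code (hn : n ≤ 16) (σ : Perm (Fin n)) (i : Fin n) : dg (code σ) i = (σ i : ℕ) := by
  unfold code
  rw [dg_enc (vl σ) (fun v hv => lt_of_lt_of_le (vl_lt σ v hv) hn) i (by rw [vl_length]; exact i.2)]
  simp [vl]

lemma dg_mod (x i k : ℕ) (hi : i < k) : dg (x % 16 ^ k) i = dg x i := by
  unfold dg
  obtain ⟨d, rfl⟩ := Nat.exists_eq_add_of_lt hi
  have e : (16 : ℕ) ^ (i + d + 1) = 16 ^ i * 16 ^ (d + 1) := by rw [← pow_add]; congr 1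
  have h1 : x % 16 ^ (i + d + 1) / 16 ^ i = x / 16 ^ i % 16 ^ (d + 1) := by
    rw [e, Nat.mod_mul_right_div_self]
  have h2 : x / 16 ^ i % 16 ^ (d + 1) % 16 = x / 16 ^ i % 16 := by
    rw [pow_succ, Nat.mod_mul_left_mod]
  rw [h1, h2]

/-- `G`, `G'` are the codes of inverse permutations which commute with `R` -/
def okG (n R : ℕ) (g : ℕ × ℕ) : Bool :=
  (List.range n).all fun i => Nat.ble (dg g.1 i + 1) n && (Nat.ble (dg g.2 i + 1) n &&
    (Nat.beq (dg g.2 (dg g.1 i)) i && (Nat.beq (dg g.1 (dg g.2 i)) i &&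
      Nat.beq (dg g.1 (dg R i)) (dg R (dg g.1 i)))))

lemma okG_spec (hn : n ≤ 16) (ρ : Perm (Fin n)) (R : ℕ) (hR : code ρ = R) (g : ℕ × ℕ)
    (h : okG n R g = true) :
    ∃ γ : Perm (Fin n), γ * ρ = ρ * γ ∧ ∀ τ : Perm (Fin n), ∀ x, x % 16 ^ n = code τ →
      cj g.1 g.2 x n 0 = code (γ * τ * γ⁻¹) := by
  unfold okG at h
  rw [List.all_eq_true] at h
  have h' : ∀ i : Fin n, dg g.1 i < n ∧ dg g.2 i < n ∧ dg g.2 (dg g.1 i) = i ∧
      dg g.1 (dg g.2 i) = i ∧ dg g.1 (dg R i) = dg R (dg g.1 i) := by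
    intro i
    have h1 := h i (List.mem_range.2 i.2)
    rw [Bool.and_eq_true, Bool.and_eq_true, Bool.and_eq_true, Bool.and_eq_true] at h1
    exact ⟨Nat.le_of_ble_eq_true h1.1, Nat.le_of_ble_eq_true h1.2.1,
      Nat.eq_of_beq_eq_true h1.2.2.1, Nat.eq_of_beq_eq_true h1.2.2.2.1,
      Nat.eq_of_beq_eq_true h1.2.2.2.2⟩
  let γ : Perm (Fin n) :=
    { toFun := fun i => ⟨dg g.1 i, (h' i).1⟩
      invFun := fun i => ⟨dg g.2 i, (h' i).2.1⟩
      left_inv := fun i => Fin.ext (h' i).2.2.1
      right_inv := fun i => Fin.ext (h' i).2.2.2.1 }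
  have hγ : ∀ i : Fin n, ((γ i : Fin n) : ℕ) = dg g.1 i := fun i => rfl
  have hγ' : ∀ i : Fin n, ((γ⁻¹ i : Fin n) : ℕ) = dg g.2 i := fun i => rfl
  refine ⟨γ, ?_, ?_⟩
  · ext i
    rw [Perm.mul_apply, Perm.mul_apply, hγ, ← dg_code hn ρ i, hR, (h' i).2.2.2.2, ← hγ i, ← hR,
      dg_code hn ρ]
  · intro τ x hx
    rw [cj_eq]
    unfold code
    congr 1
    unfold vl
    congr 1
    funext j
    rw [Nat.zero_add, Perm.mul_apply, Perm.mul_apply, hγ, ← hγ' j]
    congr 1
    rw [← dg_mod x _ n (γ⁻¹ j).2, hx, dg_code hn τ]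

/-! ### uniqueness -/

/-- lookup with continuation -/
def nth {α : Type} : List α → ℕ → (α → Bool) → Bool
  | [], _, _ => false
  | a :: _, 0, k => k a
  | _ :: l, i + 1, k => nth l i k

lemma nth_spec {α : Type} (l : List α) (i : ℕ) (k : α → Bool) (h : nth l i k = true) :
    ∃ a ∈ l, k a = true := by
  induction l generalizing i with
  | nil => simp [nth] at h
  | cons a l ih =>
    cases i with
    | zero => exact ⟨a, by simp, h⟩
    | succ i =>
      obtain ⟨b, hb, hk⟩ := ih i h
      exact ⟨b, by simp [hb], hk⟩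

/-- level of an entry -/
def lv (N e : ℕ) : ℕ := e / N % 4

/-- check of one entry -/
def chkE (n m msk N S : ℕ) (gs : List (ℕ × ℕ)) (tab : List (List ℕ)) (e : ℕ) : Bool :=
  cond (Nat.beq (lv N e) 0) (Nat.beq (e / 16 ^ m % 16 ^ (n - m)) S)
    (nth gs (e / (4096 * N)) fun g => nth tab (e / (4 * N) % 1024) fun cl =>
      cl.all fun z => Nat.ble (m + 1) (dis msk (cj g.1 g.2 e n 0) z) ||
        (Nat.ble 1 (lv N z) && Nat.ble (lv N z + 1) (lv N e)))

/-- the certificate for uniqueness -/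
structure UC (n m msk N S R : ℕ) (ρ : Perm (Fin n)) (gs : List (ℕ × ℕ)) (tab : List (List ℕ)) :
    Prop where
  hN : 16 ^ n = N
  hS : code (1 : Perm (Fin n)) / 16 ^ m = S
  hR : code ρ = R
  supp : ∀ i, ρ i = i → m ≤ (i : ℕ)
  hgs : gs.all (okG n R) = true
  chk : tab.all (fun cl => cl.all (chkE n m msk N S gs tab)) = true

lemma Fam.conj {t : ℕ} {ρ : Perm (Fin n)} {A : Finset (Perm (Fin n))} (F : Fam n t ρ A)
    (γ : Perm (Fin n)) (h : γ * ρ = ρ * γ) : Fam n t ρ (A.image fun τ => γ * τ * γ⁻¹) := by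
  refine ⟨?_, ?_, ?_⟩
  · rw [Finset.mem_image]
    exact ⟨1, F.one, by simp⟩
  · rw [Finset.mem_image]
    refine ⟨ρ, F.rho, ?_⟩
    rw [h, mul_assoc, mul_inv_cancel, mul_one]
  · intro σ hσ τ hτ
    rw [Finset.mem_image] at hσ hτ
    obtain ⟨σ', hσ', rfl⟩ := hσ
    obtain ⟨τ', hτ', rfl⟩ := hτ
    rw [ag_mul_right, ag_mul_left]
    exact F.int σ' hσ' τ' hτ'

lemma card_conj (A : Finset (Perm (Fin n))) (γ : Perm (Fin n)) :
    (A.image fun τ => γ * τ * γ⁻¹).card = A.card := by
  apply Finset.card_image_of_injective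
  intro σ τ h
  simpa using h

theorem UC.excl {m msk N S R : ℕ} {ρ : Perm (Fin n)} {gs : List (ℕ × ℕ)} {tab : List (List ℕ)}
    (C : FC n m msk ρ tab) (U : UC n m msk N S R ρ gs tab) :
    ∀ (l : ℕ) (A : Finset (Perm (Fin n))), Fam n (n - m) ρ A → A.card = tab.length →
      ∀ cl ∈ tab, ∀ e ∈ cl, 1 ≤ lv N e → lv N e ≤ l → ∀ τ ∈ A, e % 16 ^ n ≠ code τ := by
  intro l
  induction l with
  | zero => intro A _ _ cl _ e _ h1 h2; omega
  | succ l ih =>
    intro A F hA cl hcl e he h1 h2 τ hτ hcode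
    have hchk := List.all_eq_true.1 (List.all_eq_true.1 U.chk cl hcl) e he
    unfold chkE at hchk
    have h0 : Nat.beq (lv N e) 0 = false := by
      rw [Bool.eq_false_iff]; intro hh; have := Nat.eq_of_beq_eq_true hh; omega
    rw [h0, cond_false] at hchk
    obtain ⟨g, hg, hchk⟩ := nth_spec _ _ _ hchk
    obtain ⟨cl', hcl', hchk⟩ := nth_spec _ _ _ hchk
    rw [List.all_eq_true] at hchk
    have hn : n ≤ 16 := le_trans C.le (by norm_num)
    obtain ⟨γ, hγ, hγc⟩ := okG_spec hn ρ R U.hR g (List.all_eq_true.1 U.hgs g hg)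
    have F' := F.conj γ hγ
    have hA' : (A.image fun τ => γ * τ * γ⁻¹).card = tab.length := by rw [card_conj, hA]
    obtain ⟨υ, hυ, z, hz, hze⟩ := C.surj F' hA' cl' hcl'
    have hτ' : γ * τ * γ⁻¹ ∈ A.image fun τ => γ * τ * γ⁻¹ := Finset.mem_image_of_mem _ hτ
    have hint := F'.int _ hτ' _ hυ
    have hcc := hγc τ e hcode
    have hlt : cj g.1 g.2 e n 0 % 16 ^ n = code (γ * τ * γ⁻¹) := by
      rw [hcc]
      apply Nat.mod_eq_of_lt
      have : ∀ l : List ℕ, (∀ v ∈ l, v < 16) → enc l < 16 ^ l.length := by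
        intro l
        induction l with
        | nil => intro _; simp [enc]
        | cons a l ih =>
          intro h
          have ha := h a (by simp)
          have := ih (fun v hv => h v (by simp [hv]))
          show a + 16 * enc l < 16 ^ (l.length + 1)
          rw [pow_succ]
          omega
      have h3 := this (vl (γ * τ * γ⁻¹)) (fun v hv => lt_of_lt_of_le (vl_lt _ v hv) hn)
      rw [vl_length] at h3
      exact h3
    have hd := dis_code C (γ * τ * γ⁻¹) υ _ z hlt hze
    have hm := C.hm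
    have hz2 := hchk z hz
    rw [Bool.or_eq_true, Bool.and_eq_true] at hz2
    rcases hz2 with hz2 | ⟨hz2, hz3⟩
    · have := Nat.le_of_ble_eq_true hz2
      omega
    · have h4 := Nat.le_of_ble_eq_true hz2
      have h5 := Nat.le_of_ble_eq_true hz3
      exact ih _ F' hA' cl' hcl' z hz h4 (by omega) υ hυ hze

/-- the result of a table -/
def Tab (n m B : ℕ) (ρ : Perm (Fin n)) : Prop :=
  ∀ A : Finset (Perm (Fin n)), Fam n (n - m) ρ A →
    A.card ≤ B ∧ (A.card = B → ∀ τ ∈ A, ∀ i, ρ i = i → τ i = i)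

theorem tab_of {m msk N S R B : ℕ} {ρ : Perm (Fin n)} {gs : List (ℕ × ℕ)} {tab : List (List ℕ)}
    (hB : tab.length = B) (C : FC n m msk ρ tab) (U : UC n m msk N S R ρ gs tab) :
    Tab n m B ρ := by
  intro A F
  refine ⟨hB ▸ C.card_le F, ?_⟩
  intro hA τ hτ i hi
  rw [← hB] at hA
  have hn : n ≤ 16 := le_trans C.le (by norm_num)
  obtain ⟨c, e, he, hee⟩ := C.mem F τ hτ
  have hcl := List.get_mem tab c
  by_cases h1 : 1 ≤ lv N e
  · exact absurd hee (UC.excl C U _ A F hA _ hcl e he h1 le_rfl τ hτ)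
  · have hchk := List.all_eq_true.1 (List.all_eq_true.1 U.chk _ hcl) e he
    unfold chkE at hchk
    have h0 : Nat.beq (lv N e) 0 = true := by
      have : lv N e = 0 := by omega
      rw [this]; rfl
    rw [h0, cond_true] at hchk
    have h2 := Nat.eq_of_beq_eq_true hchk
    have hmi := U.supp i hi
    have h3 : dg (code τ) i = dg (code (1 : Perm (Fin n))) i := by
      have hk : (i : ℕ) - m < n - m := by have := i.2; omega
      have e1 : ∀ x, dg x i = dg (x / 16 ^ m) ((i : ℕ) - m) := by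
        intro x
        unfold dg
        rw [Nat.div_div_eq_div_mul, ← pow_add]
        congr 3
        omega
      rw [← hee, dg_mod e i n i.2, e1, e1, U.hS, ← h2, dg_mod _ _ _ hk]
    rw [dg_code hn, dg_code hn] at h3
    exact Fin.ext h3

end Pool.Col46
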