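import Pool.Agent.Work.MP_46fa68_17.Orb4

/-!
# MP_46fa68_co: the orbit certificate, version for large tables

Entries are `code + N * (label + 4096 * G)`, labels are `64 * block + position`.  helper17
-/

set_option autoImplicit false

namespace Pool.Col46

open Equiv

variable {n : ℕ}

/-! ### kernel functions with raw arithmetic -/

/-- digit -/
def dq (x i : ℕ) : ℕ := Nat.mod (Nat.div x (Nat.pow (nat_lit 16) i)) (nat_lit 16)

lemma dq_eq (x i : ℕ) : dq x i = dg x i := rfl

/-- all values which occur, as a bit mask -/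
noncomputable def borQ (vs : List ℕ) (G : ℕ) : ℕ :=
  List.rec (motive := fun _ => ℕ) (nat_lit 0)
    (fun i _ ih => Nat.lor (Nat.pow (nat_lit 2) (dq G i)) ih) vs

/-- the permutations commute -/
noncomputable def cmQ (vs : List ℕ) (G R : ℕ) : Bool :=
  allR (fun i => Nat.beq (dq G (dq R i)) (dq R (dq G i))) vs

/-- label of an entry -/
def labQ (N e : ℕ) : ℕ := Nat.mod (Nat.div e N) (nat_lit 4096)

/-- commutation with `R` and `x = G r G⁻¹` -/
noncomputable def cxQ (vs : List ℕ) (G R r x : ℕ) : Bool :=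
  allR (fun i => cond (Nat.beq (dq G (dq R i)) (dq R (dq G i)))
    (Nat.beq (dq x (dq G i)) (dq G (dq r i))) false) vs

/-- check of one entry; `NL = 4096 * N`, `full = 2 ^ n - 1` -/
noncomputable def chkXq (N NL full R : ℕ) (vs : List ℕ) (reps : List (List (ℕ × List ℕ)))
    (e : ℕ) : Bool :=
  nthR reps (Nat.div (labQ N e) (nat_lit 64)) fun b =>
    nthR b (Nat.mod (labQ N e) (nat_lit 64)) fun r =>
      cond (Nat.beq (borQ vs (Nat.div e NL)) full) (cxQ vs (Nat.div e NL) R r.1 e) false

/-- check of one element of the stabiliser of the representative `c` -/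
noncomputable def chkUq (m full R : ℕ) (vs : List ℕ) (c u : ℕ) : Bool :=
  cond (Nat.beq (borQ vs u) full) (cond (cmQ vs u R) (cond (cmQ vs u c)
    (allR (fun i => cond (Nat.ble m i) (cond (Nat.beq (dq c i) i) (Nat.beq (dq u i) i) true) true)
      vs) false) false) false

/-- weights and labels of the entries in block `h` of one set -/
noncomputable def bl1 (N h Y : ℕ) (es : List ℕ) (tail : List (ℕ × ℕ)) : List (ℕ × ℕ) :=
  List.rec (motive := fun _ => List (ℕ × ℕ)) tail
    (fun e _ ih => cond (Nat.beq (Nat.div (labQ N e) (nat_lit 64)) h) ((Y, labQ N e) :: ih) ih) es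

/-- weights and labels of the entries in block `h` -/
noncomputable def bl2 (N h : ℕ) (sets : List (ℕ × List ℕ)) : List (ℕ × ℕ) :=
  List.rec (motive := fun _ => List (ℕ × ℕ)) [] (fun s _ ih => bl1 N h s.1 s.2 ih) sets

/-- total weight of a label -/
noncomputable def cvQ (l : ℕ) (L : List (ℕ × ℕ)) : ℕ :=
  List.rec (motive := fun _ => ℕ) (nat_lit 0)
    (fun p _ ih => cond (Nat.beq p.2 l) (Nat.add p.1 ih) ih) L

/-- check of one representative; `L` are the weights and labels of its block -/
noncomputable def chkRq (m N full R DC : ℕ) (vs : List ℕ) (L : List (ℕ × ℕ)) (l : ℕ)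
    (r : ℕ × List ℕ) : Bool :=
  cond (Nat.beq (borQ vs r.1) full) (cond (allR (chkUq m full R vs r.1) r.2)
    (cond (incR N r.2 0) (Nat.ble (DC + cond (stR m r.1 vs) 0 1)
      (cvQ l L * (r.2.length * Nat.factorial (fxR m r.1 vs)))) false) false) false

/-- check of a block -/
noncomputable def chkBq (m N full R DC : ℕ) (vs : List ℕ) (L : List (ℕ × ℕ))
    (b : List (ℕ × List ℕ)) : ℕ → Bool :=
  List.rec (motive := fun _ => ℕ → Bool) (fun _ => true)
    (fun r _ ih l => cond (chkRq m N full R DC vs L l r) (ih (Nat.add l 1)) false) b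

/-- check of all blocks -/
noncomputable def chkAq (m N full R DC : ℕ) (vs : List ℕ) (sets : List (ℕ × List ℕ))
    (reps : List (List (ℕ × List ℕ))) : ℕ → Bool :=
  List.rec (motive := fun _ => ℕ → Bool) (fun _ => true)
    (fun b _ ih h => cond (chkBq m N full R DC vs (bl2 N h sets) b (Nat.mul 64 h))
      (ih (Nat.add h 1)) false) reps

/-! ### their meaning -/

/-- the representative with label `l` -/
def repAt (reps : List (List (ℕ × List ℕ))) (l : ℕ) : Option (ℕ × List ℕ) :=
  (reps[l / 64]?).bind fun b => b[l % 64]?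

/-- the permutation with code `G` -/
def Rq (G : ℕ) (γ : Perm (Fin n)) : Prop := ∀ i : Fin n, (γ i : ℕ) = dg G i

lemma borQ_bit (vs : List ℕ) (G v : ℕ) (h : (borQ vs G).testBit v = true) :
    ∃ i ∈ vs, dg G i = v := by
  induction vs with
  | nil =>
    have e : borQ [] G = 0 := rfl
    rw [e, Nat.zero_testBit] at h
    exact absurd h (by decide)
  | cons i vs ih =>
    have e : borQ (i :: vs) G = 2 ^ dg G i ||| borQ vs G := rfl
    rw [e, Nat.testBit_or, Bool.or_eq_true] at h
    rcases h with h | h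
    · rw [Nat.testBit_two_pow] at h
      exact ⟨i, by simp, by simpa using h⟩
    · obtain ⟨j, hj, hjv⟩ := ih h
      exact ⟨j, by simp [hj], hjv⟩

lemma borQ_spec {vs : List ℕ} (hvs : vs = List.range n) {G full : ℕ} (hfull : 2 ^ n - 1 = full)
    (h : Nat.beq (borQ vs G) full = true) : ∃ γ : Perm (Fin n), Rq G γ := by
  have h0 := Nat.eq_of_beq_eq_true h
  have h1 : ∀ v < n, ∃ i : Fin n, dg G i = v := by
    intro v hv
    have hb : (borQ vs G).testBit v = true := by
      rw [h0, ← hfull, Nat.testBit_two_pow_sub_one]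
      simpa using hv
    obtain ⟨i, hi, hiv⟩ := borQ_bit _ _ _ hb
    rw [hvs, List.mem_range] at hi
    exact ⟨⟨i, hi⟩, hiv⟩
  set f : Fin n → ℕ := fun i => dg G i with hf
  have hsub : Finset.range n ⊆ Finset.univ.image f := by
    intro v hv
    rw [Finset.mem_range] at hv
    obtain ⟨i, hi⟩ := h1 v hv
    rw [Finset.mem_image]
    exact ⟨i, Finset.mem_univ _, hi⟩
  have hcard : (Finset.univ.image f).card ≤ (Finset.range n).card := by
    rw [Finset.card_range]
    calc (Finset.univ.image f).card ≤ (Finset.univ : Finset (Fin n)).card := Finset.card_image_le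
      _ = n := by simp
  have heq : Finset.range n = Finset.univ.image f := Finset.eq_of_subset_of_card_le hsub hcard
  have hlt : ∀ i : Fin n, f i < n := by
    intro i
    have : f i ∈ Finset.range n := by
      rw [heq]; exact Finset.mem_image_of_mem _ (Finset.mem_univ _)
    exact Finset.mem_range.1 this
  have hinj : Function.Injective f := by
    have h2 : (Finset.univ.image f).card = (Finset.univ : Finset (Fin n)).card := by
      rw [← heq, Finset.card_range]; simp
    have h3 := Finset.card_image_iff.1 h2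
    intro a b hab
    exact h3 (by simp) (by simp) hab
  have hinj2 : Function.Injective (fun i : Fin n => (⟨f i, hlt i⟩ : Fin n)) := by
    intro a b hab
    exact hinj (by simpa using congrArg Fin.val hab)
  exact ⟨Equiv.ofBijective _ (Finite.injective_iff_bijective.1 hinj2), fun i => rfl⟩

lemma Rq.code {G : ℕ} {γ : Perm (Fin n)} (hn : n ≤ 16) (h : Rq G γ) :
    Pool.Col46.code γ = G % 16 ^ n := by
  have h1 : Pool.Col46.code γ % 16 ^ n = G % 16 ^ n := by
    apply dg_ext
    intro j hj
    rw [dg_code hn γ ⟨j, hj⟩, h ⟨j, hj⟩]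
  rw [Nat.mod_eq_of_lt (code_lt hn γ)] at h1
  exact h1

lemma cmQ_spec {vs : List ℕ} (hvs : vs = List.range n) (hn : n ≤ 16) {G R : ℕ}
    {γ ρ : Perm (Fin n)} (hγ : Rq G γ) (hR : Pool.Col46.code ρ = R % 16 ^ n)
    (h : cmQ vs G R = true) : γ * ρ = ρ * γ := by
  ext i
  have h1 := allR_spec _ _ h (i : ℕ) (by rw [hvs]; exact List.mem_range.2 i.2)
  have h2 := Nat.eq_of_beq_eq_true h1
  rw [dq_eq, dq_eq, dq_eq, dq_eq] at h2
  rw [Perm.mul_apply, Perm.mul_apply, hγ, ← dg_of_code hn hR i, h2, ← hγ i,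
    dg_of_code hn hR]

lemma cxQ_spec {vs : List ℕ} (hvs : vs = List.range n) (hn : n ≤ 16) {G R c x : ℕ}
    {γ ρ r : Perm (Fin n)} (hγ : Rq G γ) (hR : Pool.Col46.code ρ = R % 16 ^ n)
    (hr : Pool.Col46.code r = c % 16 ^ n) (h : cxQ vs G R c x = true) :
    γ * ρ = ρ * γ ∧ Pool.Col46.code (γ * r * γ⁻¹) = x % 16 ^ n := by
  have h1 : ∀ i : Fin n, dg G (dg R i) = dg R (dg G i) ∧ dg x (dg G i) = dg G (dg c i) := by
    intro i
    have h1 := allR_spec _ _ h (i : ℕ) (by rw [hvs]; exact List.mem_range.2 i.2)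
    obtain ⟨h2, h3⟩ := cond_and h1
    exact ⟨Nat.eq_of_beq_eq_true h2, Nat.eq_of_beq_eq_true h3⟩
  constructor
  · ext i
    rw [Perm.mul_apply, Perm.mul_apply, hγ, ← dg_of_code hn hR i, (h1 i).1, ← hγ i,
      dg_of_code hn hR]
  · have h2 : Pool.Col46.code (γ * r * γ⁻¹) % 16 ^ n = x % 16 ^ n := by
      apply dg_ext
      intro j hj
      have h3 := (h1 (γ⁻¹ ⟨j, hj⟩)).2
      rw [← hγ, dg_of_code hn hr, ← hγ] at h3
      rw [dg_code hn (γ * r * γ⁻¹) ⟨j, hj⟩, Perm.mul_apply, Perm.mul_apply, ← h3]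
      congr 1
      rw [show γ (γ⁻¹ ⟨j, hj⟩) = ⟨j, hj⟩ by simp]
    rw [Nat.mod_eq_of_lt (code_lt hn _)] at h2
    exact h2

lemma nthR2_spec {α : Type} (l : List α) (i : ℕ) (k : α → Bool) (h : nthR l i k = true) :
    ∃ a, l[i]? = some a ∧ k a = true := nthR_spec l i k h

lemma chkBq_spec {m N full R DC : ℕ} {vs : List ℕ} {L : List (ℕ × ℕ)} {b : List (ℕ × List ℕ)}
    (l : ℕ) (h : chkBq m N full R DC vs L b l = true) (i : ℕ) (r : ℕ × List ℕ)
    (hr : b[i]? = some r) : chkRq m N full R DC vs L (l + i) r = true := by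
  induction b generalizing l i with
  | nil => simp at hr
  | cons a b ih =>
    have h' : cond (chkRq m N full R DC vs L l a) (chkBq m N full R DC vs L b (l + 1)) false
      = true := h
    obtain ⟨h1, h2⟩ := cond_and h'
    cases i with
    | zero =>
      have : a = r := by simpa using hr
      rw [← this]; exact h1
    | succ i =>
      have h3 := ih (l + 1) h2 i (by simpa using hr)
      rw [show l + (i + 1) = l + 1 + i by omega]
      exact h3

lemma chkAq_spec {m N full R DC : ℕ} {vs : List ℕ} {sets : List (ℕ × List ℕ)}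
    {reps : List (List (ℕ × List ℕ))} (h0 : ℕ)
    (h : chkAq m N full R DC vs sets reps h0 = true) (i : ℕ) (b : List (ℕ × List ℕ))
    (hb : reps[i]? = some b) :
    chkBq m N full R DC vs (bl2 N (h0 + i) sets) b (64 * (h0 + i)) = true := by
  induction reps generalizing h0 i with
  | nil => simp at hb
  | cons a reps ih =>
    have h' : cond (chkBq m N full R DC vs (bl2 N h0 sets) a (64 * h0))
      (chkAq m N full R DC vs sets reps (h0 + 1)) false = true := h
    obtain ⟨h1, h2⟩ := cond_and h'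
    cases i with
    | zero =>
      have : a = b := by simpa using hb
      rw [← this]; exact h1
    | succ i =>
      have h3 := ih (h0 + 1) h2 i (by simpa using hb)
      rw [show h0 + (i + 1) = h0 + 1 + i by omega]
      exact h3

lemma cvQ_bl1 (N l Y : ℕ) (es : List ℕ) (tail : List (ℕ × ℕ)) :
    cvQ l (bl1 N (l / 64) Y es tail) = Y * cntR N l es + cvQ l tail := by
  induction es with
  | nil =>
    have e : bl1 N (l / 64) Y [] tail = tail := rfl
    have e2 : cntR N l [] = 0 := rfl
    rw [e, e2, Nat.mul_zero, Nat.zero_add]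
  | cons e es ih =>
    have h1 : bl1 N (l / 64) Y (e :: es) tail =
      cond (Nat.beq (e / N % 4096 / 64) (l / 64)) ((Y, e / N % 4096) :: bl1 N (l / 64) Y es tail)
        (bl1 N (l / 64) Y es tail) := rfl
    have h2 : cntR N l (e :: es) = cond (Nat.beq (e / N % 4096) l) (cntR N l es + 1)
      (cntR N l es) := rfl
    rw [h1, h2]
    by_cases hl : e / N % 4096 = l
    · rw [beq_true hl, cond_true, beq_true (by rw [hl]), cond_true]
      have h3 : cvQ l ((Y, e / N % 4096) :: bl1 N (l / 64) Y es tail) =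
        cond (Nat.beq (e / N % 4096) l) (Y + cvQ l (bl1 N (l / 64) Y es tail))
          (cvQ l (bl1 N (l / 64) Y es tail)) := rfl
      rw [h3, beq_true hl, cond_true, ih]
      ring
    · rw [beq_false hl, cond_false]
      cases hb : Nat.beq (e / N % 4096 / 64) (l / 64) with
      | false => rw [cond_false, ih]
      | true =>
        rw [cond_true]
        have h3 : cvQ l ((Y, e / N % 4096) :: bl1 N (l / 64) Y es tail) =
          cond (Nat.beq (e / N % 4096) l) (Y + cvQ l (bl1 N (l / 64) Y es tail))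
            (cvQ l (bl1 N (l / 64) Y es tail)) := rfl
        rw [h3, beq_false hl, cond_false, ih]

lemma cvQ_bl2 (N l : ℕ) (sets : List (ℕ × List ℕ)) :
    cvQ l (bl2 N (l / 64) sets) = covR N l sets := by
  induction sets with
  | nil => rfl
  | cons s sets ih =>
    have h1 : bl2 N (l / 64) (s :: sets) = bl1 N (l / 64) s.1 s.2 (bl2 N (l / 64) sets) := rfl
    have h2 : covR N l (s :: sets) = s.1 * cntR N l s.2 + covR N l sets := rfl
    rw [h1, cvQ_bl1, ih, h2]

theorem stab_geq (hn : n ≤ 16) {m R c full : ℕ} {vs : List ℕ} (hvs : vs = List.range n)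
    (hfull : 2 ^ n - 1 = full)
    {ρ r : Perm (Fin n)} (hR : Pool.Col46.code ρ = R % 16 ^ n)
    (hρ : ∀ i : Fin n, m ≤ (i : ℕ) → ρ i = i) (hr : Pool.Col46.code r = c % 16 ^ n) (U : List ℕ)
    (h1 : allR (chkUq m full R vs c) U = true) (h2 : incR (16 ^ n) U 0 = true) :
    U.length * Nat.factorial (fxR m c vs) ≤ fib ρ r r := by
  classical
  rw [fxR_eq hn hvs hr]
  set Z := Finset.univ.filter fun i : Fin n => m ≤ (i : ℕ) ∧ r i = i with hZ
  have hmemZ : ∀ i, i ∈ Z ↔ m ≤ (i : ℕ) ∧ r i = i := by
    intro i; rw [hZ]; simp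
  have hU : ∀ u ∈ U, ∃ γ : Perm (Fin n), Pool.Col46.code γ = u % 16 ^ n ∧ γ * ρ = ρ * γ ∧
      γ * r = r * γ ∧ ∀ i ∈ Z, γ i = i := by
    intro u hu
    have h3 := allR_spec _ _ h1 u hu
    unfold chkUq at h3
    obtain ⟨h4, h3⟩ := cond_and h3
    obtain ⟨h5, h3⟩ := cond_and h3
    obtain ⟨h6, h3⟩ := cond_and h3
    obtain ⟨γ, hγ⟩ := borQ_spec hvs hfull h4
    refine ⟨γ, hγ.code hn, cmQ_spec hvs hn hγ hR h5, cmQ_spec hvs hn hγ hr h6, ?_⟩
    intro i hi
    rw [hmemZ] at hi
    have h7 := allR_spec _ _ h3 (i : ℕ) (by rw [hvs]; exact List.mem_range.2 i.2)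
    rw [dq_eq, dq_eq, Nat.ble_eq_true_of_le hi.1, cond_true, dg_of_code hn hr, hi.2,
      beq_true rfl, cond_true] at h7
    apply Fin.ext
    rw [hγ]
    exact Nat.eq_of_beq_eq_true h7
  choose! γ hγc hγρ hγr hγZ using hU
  have hnd := (incR_spec _ _ _ h2).2
  let f : Fin U.length × Perm {x // x ∈ Z} → Perm (Fin n) := fun p =>
    γ (U.get p.1) * Perm.ofSubtype p.2
  have hdρ : ∀ h : Perm {x // x ∈ Z}, Commute (Perm.ofSubtype h) ρ := by
    intro h
    apply Perm.Disjoint.commute
    intro x
    by_cases hx : x ∈ Z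
    · exact Or.inr (hρ x ((hmemZ x).1 hx).1)
    · exact Or.inl (Perm.ofSubtype_apply_of_not_mem h hx)
  have hdr : ∀ h : Perm {x // x ∈ Z}, Commute (Perm.ofSubtype h) r := by
    intro h
    apply Perm.Disjoint.commute
    intro x
    by_cases hx : x ∈ Z
    · exact Or.inr ((hmemZ x).1 hx).2
    · exact Or.inl (Perm.ofSubtype_apply_of_not_mem h hx)
  have hfi : Function.Injective f := by
    intro p q hpq
    have hpq' : γ (U.get p.1) * Perm.ofSubtype p.2 = γ (U.get q.1) * Perm.ofSubtype q.2 := hpq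
    have hg : γ (U.get p.1) = γ (U.get q.1) := by
      ext x
      by_cases hx : x ∈ Z
      · rw [hγZ _ (List.get_mem _ _) x hx, hγZ _ (List.get_mem _ _) x hx]
      · have h3 := congrArg (fun g : Perm (Fin n) => ((g x : Fin n) : ℕ)) hpq'
        simp only [Perm.mul_apply] at h3
        rw [Perm.ofSubtype_apply_of_not_mem _ hx, Perm.ofSubtype_apply_of_not_mem _ hx] at h3
        exact h3
    have h3 : U.get p.1 % 16 ^ n = U.get q.1 % 16 ^ n := by
      rw [← hγc _ (List.get_mem _ _), ← hγc _ (List.get_mem _ _), hg]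
    have h4 : p.1 = q.1 := by
      have h5 := List.nodup_iff_injective_get.1 hnd
      have h6 : (U.map (· % 16 ^ n)).get ⟨p.1, by simp⟩ =
          (U.map (· % 16 ^ n)).get ⟨q.1, by simp⟩ := by
        simp only [List.get_eq_getElem, List.getElem_map]
        exact h3
      have h7 := h5 h6
      exact Fin.ext (by simpa using congrArg Fin.val h7)
    rw [hg] at hpq'
    have h8 := Perm.ofSubtype_injective (mul_left_cancel hpq')
    exact Prod.ext h4 h8
  have hmaps : ∀ p, f p ∈ (Cen ρ).filter (fun g => g * r * g⁻¹ = r) := by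
    intro p
    have hu := List.get_mem U p.1
    rw [Finset.mem_filter]
    constructor
    · apply mul_mem_Cen
      · rw [mem_Cen]; exact hγρ _ hu
      · rw [mem_Cen]; exact hdρ p.2
    · show γ (U.get p.1) * Perm.ofSubtype p.2 * r * (γ (U.get p.1) * Perm.ofSubtype p.2)⁻¹ = r
      rw [mul_assoc (γ (U.get p.1)), (hdr p.2).eq, ← mul_assoc, hγr _ hu]
      group
  unfold fib
  calc U.length * Nat.factorial Z.card = Fintype.card (Fin U.length × Perm {x // x ∈ Z}) := by
        rw [Fintype.card_prod, Fintype.card_fin, Fintype.card_perm, Fintype.card_coe]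
    _ = (Finset.univ.image f).card := by
        rw [Finset.card_image_of_injective _ hfi, Finset.card_univ]
    _ ≤ _ := by
        apply Finset.card_le_card
        intro g hg
        rw [Finset.mem_image] at hg
        obtain ⟨p, -, rfl⟩ := hg
        exact hmaps p

end Pool.Col46
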