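import Pool.Agent.Work.MP_46fa68_17.Oq2

/-!
# MP_46fa68_co: a faster search, split at the root

helper17
-/

set_option autoImplicit false

namespace Pool.Col46

open Equiv

variable {n : ℕ}

/-- one branch at a node; `ih` is the search below -/
noncomputable def brF (m : ℕ) (pr : ℕ × ℕ) (ih : ℕ → ℕ → ℕ → ℕ → ℕ → List ℕ → Bool)
    (av u a b w : ℕ) (cand : List ℕ) (v : ℕ) : Bool :=
  cond (Nat.beq (Nat.land av (Nat.pow (nat_lit 16) v)) (nat_lit 0)) true
    (cond (cond (Nat.ble (Nat.add pr.1 (nat_lit 1)) m)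
        (Nat.ble (Nat.add (Nat.add m u) (nat_lit 1)) v) false) true
      (ih (Nat.xor av (Nat.pow (nat_lit 16) v))
        (cond (cond (Nat.ble (Nat.add pr.1 (nat_lit 1)) m) (Nat.beq v (Nat.add m u)) false)
          (Nat.add u (nat_lit 1)) u)
        (cond (Nat.beq v pr.1) (Nat.add a (nat_lit 1)) a)
        (cond (Nat.beq v pr.2) (Nat.add b (nat_lit 1)) b) (Nat.mul w (nat_lit 16))
        (filR (fun c => Nat.beq (Nat.mod (Nat.div c w) (nat_lit 16)) v) cand)))

/-- the search -/
noncomputable def go5 (t m : ℕ) (vs : List ℕ) (l : List (ℕ × ℕ)) :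
    ℕ → ℕ → ℕ → ℕ → ℕ → List ℕ → Bool :=
  List.rec (motive := fun _ => ℕ → ℕ → ℕ → ℕ → ℕ → List ℕ → Bool)
    (fun _ _ a b _ cand => cond (Nat.ble (Nat.add a (nat_lit 1)) t) true
      (cond (Nat.ble (Nat.add b (nat_lit 1)) t) true (ne cand)))
    (fun pr L ih av u a b w cand =>
      cond (Nat.ble (Nat.add (Nat.add a (Nat.mod (Nat.land (mk1 (pr :: L)) av) (nat_lit 15)))
          (nat_lit 1)) t) true
        (cond (Nat.ble (Nat.add (Nat.add b (Nat.mod (Nat.land (mk2 (pr :: L)) av) (nat_lit 15)))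
            (nat_lit 1)) t) true
          (allR (brF m pr ih av u a b w cand) vs))) l

lemma mask_bits (k i : ℕ) : (mask k).testBit i = decide (i % 4 = 0 ∧ i < 4 * k) := by
  induction k generalizing i with
  | zero =>
    have e : mask 0 = 0 := rfl
    rw [e, Nat.zero_testBit]
    symm
    rw [decide_eq_false_iff_not]
    omega
  | succ k ih =>
    have e : mask (k + 1) = 16 * mask k + 1 := rfl
    rcases lt_or_ge i 4 with h | h
    · have h1 : (mask (k + 1)).testBit i = (mask (k + 1) % 2 ^ 4).testBit i := by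
        rw [Nat.testBit_mod_two_pow]
        simp [h]
      have h2 : mask (k + 1) % 2 ^ 4 = 1 := by rw [e]; omega
      rw [h1, h2]
      interval_cases i
      · simp
      · simp; decide
      · simp; decide
      · simp; decide
    · obtain ⟨j, rfl⟩ := Nat.exists_eq_add_of_le h
      rw [← Nat.testBit_shiftRight]
      have h2 : mask (k + 1) >>> 4 = mask k := by
        rw [Nat.shiftRight_eq_div_pow, e]; omega
      rw [h2, ih]
      congr 1
      apply propext
      constructor <;> rintro ⟨h3, h4⟩ <;> constructor <;> omega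

lemma dz_small (z : ℕ) (hn : n ≤ 14) (h : ∀ i, z.testBit i = true → ∃ j < n, i = 4 * j) :
    dz (mask n) z = z % 15 := by
  have e : dz (mask n) z = (fb z &&& mask n) % 15 := rfl
  rw [e]
  congr 1
  apply Nat.eq_of_testBit_eq
  intro i
  rw [Nat.testBit_and, mask_bits]
  unfold fb
  rw [Nat.testBit_or, Nat.testBit_or, Nat.testBit_or, Nat.testBit_shiftRight,
    Nat.testBit_shiftRight, Nat.testBit_shiftRight]
  by_cases hi : i % 4 = 0 ∧ i < 4 * n
  · have h1 : ∀ d, 1 ≤ d → d ≤ 3 → z.testBit (d + i) = false := by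
      intro d hd1 hd2
      rw [Bool.eq_false_iff]
      intro hh
      obtain ⟨j, _, hj⟩ := h _ hh
      omega
    rw [h1 1 le_rfl (by norm_num), h1 2 (by norm_num) (by norm_num), h1 3 (by norm_num) le_rfl]
    simp [hi]
  · have h1 : z.testBit i = false := by
      rw [Bool.eq_false_iff]
      intro hh
      obtain ⟨j, hj1, hj⟩ := h _ hh
      apply hi
      omega
    rw [h1]
    simp [hi]

lemma mk1_bits (l : List (ℕ × ℕ)) (i : ℕ) (h : (mk1 l).testBit i = true) :
    ∃ x ∈ l, i = 4 * x.1 := by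
  induction l with
  | nil =>
    have e : mk1 [] = 0 := rfl
    rw [e, Nat.zero_testBit] at h
    exact absurd h (by decide)
  | cons a l ih =>
    have e : mk1 (a :: l) = 2 ^ (4 * a.1) ||| mk1 l := rfl
    rw [e, Nat.testBit_or, Bool.or_eq_true] at h
    rcases h with h | h
    · rw [Nat.testBit_two_pow] at h
      exact ⟨a, by simp, by simpa using (of_decide_eq_true h).symm⟩
    · obtain ⟨x, hx, hxi⟩ := ih h
      exact ⟨x, by simp [hx], hxi⟩

lemma mk2_bits (l : List (ℕ × ℕ)) (i : ℕ) (h : (mk2 l).testBit i = true) :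
    ∃ x ∈ l, i = 4 * x.2 := by
  induction l with
  | nil =>
    have e : mk2 [] = 0 := rfl
    rw [e, Nat.zero_testBit] at h
    exact absurd h (by decide)
  | cons a l ih =>
    have e : mk2 (a :: l) = 2 ^ (4 * a.2) ||| mk2 l := rfl
    rw [e, Nat.testBit_or, Bool.or_eq_true] at h
    rcases h with h | h
    · rw [Nat.testBit_two_pow] at h
      exact ⟨a, by simp, by simpa using (of_decide_eq_true h).symm⟩
    · obtain ⟨x, hx, hxi⟩ := ih h
      exact ⟨x, by simp [hx], hxi⟩

lemma land_beq (av v : ℕ) : Nat.beq (Nat.land av (Nat.pow 16 v)) 0 =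
    Nat.beq (Nat.land (Nat.shiftRight av (Nat.mul 4 v)) 1) 0 := by
  have e1 : Nat.land av (Nat.pow 16 v) = av &&& 2 ^ (4 * v) := by
    show av &&& 16 ^ v = _
    rw [show (16 : ℕ) = 2 ^ 4 by norm_num, ← pow_mul]
  have e2 : Nat.land (Nat.shiftRight av (Nat.mul 4 v)) 1 = (av >>> (4 * v)) &&& 1 := rfl
  rw [e1, e2, Nat.and_two_pow, Nat.and_one_is_mod, Nat.shiftRight_eq_div_pow,
    Nat.testBit_eq_decide_div_mod_eq]
  have h2 : 0 < 2 ^ (4 * v) := Nat.pos_of_ne_zero (by positivity)
  by_cases h : av / 2 ^ (4 * v) % 2 = 1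
  · rw [h]
    have e3 : (decide True).toNat * 2 ^ (4 * v) = 2 ^ (4 * v) := by simp
    rw [show decide (1 = 1) = decide True by simp, e3, beq_false (by omega), beq_false (by omega)]
  · have h3 : av / 2 ^ (4 * v) % 2 = 0 := by omega
    rw [h3]
    simp

lemma allR_congr {α : Type} (p q : α → Bool) (l : List α) (h : ∀ x ∈ l, p x = q x) :
    allR p l = allR q l := by
  induction l with
  | nil => rfl
  | cons a l ih =>
    show cond (p a) (allR p l) false = cond (q a) (allR q l) false
    rw [h a (by simp), ih (fun x hx => h x (by simp [hx]))]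

lemma go5_eq (t m : ℕ) (hn : n ≤ 14) (vs : List ℕ) (l : List (ℕ × ℕ))
    (hl : ∀ x ∈ l, x.1 < n ∧ x.2 < n) : go5 t m vs l = go4 t m (mask n) vs l := by
  induction l with
  | nil => rfl
  | cons pr L ih =>
    have ih' := ih (fun x hx => hl x (by simp [hx]))
    funext av u a b w cand
    show cond (Nat.ble (Nat.add (Nat.add a (Nat.mod (Nat.land (mk1 (pr :: L)) av) 15)) 1) t) true
        (cond (Nat.ble (Nat.add (Nat.add b (Nat.mod (Nat.land (mk2 (pr :: L)) av) 15)) 1) t) true
          (allR (brF m pr (go5 t m vs L) av u a b w cand) vs)) =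
      cond (Nat.ble (Nat.add (Nat.add a (dz (mask n) (Nat.land (mk1 (pr :: L)) av))) 1) t) true
        (cond (Nat.ble (Nat.add (Nat.add b (dz (mask n) (Nat.land (mk2 (pr :: L)) av))) 1) t)
          true
          (allR (fun v => cond (Nat.beq (Nat.land (Nat.shiftRight av (Nat.mul 4 v)) 1) 0) true
            (cond (cond (Nat.ble (Nat.add pr.1 1) m)
                (Nat.ble (Nat.add (Nat.add m u) 1) v) false) true
              (go4 t m (mask n) vs L (Nat.xor av (Nat.pow 2 (Nat.mul 4 v)))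
                (cond (cond (Nat.ble (Nat.add pr.1 1) m) (Nat.beq v (Nat.add m u)) false)
                  (Nat.add u 1) u)
                (cond (Nat.beq v pr.1) (Nat.add a 1) a)
                (cond (Nat.beq v pr.2) (Nat.add b 1) b) (Nat.mul w 16)
                (filR (fun c => Nat.beq (Nat.mod (Nat.div c w) 16) v) cand)))) vs))
    have h1 : dz (mask n) (Nat.land (mk1 (pr :: L)) av) =
        Nat.mod (Nat.land (mk1 (pr :: L)) av) 15 := by
      apply dz_small _ hn
      intro i hi
      have e : Nat.land (mk1 (pr :: L)) av = mk1 (pr :: L) &&& av := rfl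
      rw [e, Nat.testBit_and, Bool.and_eq_true] at hi
      obtain ⟨x, hx, hxi⟩ := mk1_bits _ _ hi.1
      exact ⟨x.1, (hl x hx).1, hxi⟩
    have h2 : dz (mask n) (Nat.land (mk2 (pr :: L)) av) =
        Nat.mod (Nat.land (mk2 (pr :: L)) av) 15 := by
      apply dz_small _ hn
      intro i hi
      have e : Nat.land (mk2 (pr :: L)) av = mk2 (pr :: L) &&& av := rfl
      rw [e, Nat.testBit_and, Bool.and_eq_true] at hi
      obtain ⟨x, hx, hxi⟩ := mk2_bits _ _ hi.1
      exact ⟨x.2, (hl x hx).2, hxi⟩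
    rw [h1, h2, ih']
    congr 2
    apply allR_congr
    intro v _
    unfold brF
    rw [land_beq]
    have e3 : Nat.pow 16 v = Nat.pow 2 (Nat.mul 4 v) := by
      show 16 ^ v = 2 ^ (4 * v)
      rw [show (16 : ℕ) = 2 ^ 4 by norm_num, ← pow_mul]
    rw [e3]

lemma zip_lt (ρ : Perm (Fin n)) (x : ℕ × ℕ) (h : x ∈ (vl (1 : Perm (Fin n))).zip (vl ρ)) :
    x.1 < n ∧ x.2 < n := by
  have h1 := List.of_mem_zip h
  exact ⟨vl_lt _ _ h1.1, vl_lt _ _ h1.2⟩

/-- root of the search -/
lemma go4_root {t m : ℕ} (hn : n ≤ 14) {vs : List ℕ} {ρ : Perm (Fin n)} {pr : ℕ × ℕ}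
    {L : List (ℕ × ℕ)} (hz : (vl (1 : Perm (Fin n))).zip (vl ρ) = pr :: L) {av u a b w : ℕ}
    {cand : List ℕ}
    (h : allR (brF m pr (go5 t m vs L) av u a b w cand) vs = true) :
    go4 t m (mask n) vs ((vl (1 : Perm (Fin n))).zip (vl ρ)) av u a b w cand = true := by
  rw [← go5_eq t m hn vs _ (fun x hx => zip_lt ρ x hx), hz]
  show cond (Nat.ble (Nat.add (Nat.add a (Nat.mod (Nat.land (mk1 (pr :: L)) av) 15)) 1) t) true
        (cond (Nat.ble (Nat.add (Nat.add b (Nat.mod (Nat.land (mk2 (pr :: L)) av) 15)) 1) t) true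
          (allR (brF m pr (go5 t m vs L) av u a b w cand) vs)) = true
  rw [h]
  cases Nat.ble (Nat.add (Nat.add a (Nat.mod (Nat.land (mk1 (pr :: L)) av) 15)) 1) t <;>
    cases Nat.ble (Nat.add (Nat.add b (Nat.mod (Nat.land (mk2 (pr :: L)) av) 15)) 1) t <;> rfl

/-- all sets in order -/
lemma sets_of {m msk N NL full R : ℕ} {vs : List ℕ} {sets : List (ℕ × List ℕ)}
    {reps : List (List (ℕ × List ℕ))}
    (h : allR (fun s => cond (pwR msk m s.2) (allR (chkXq N NL full R vs reps) s.2) false) sets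
      = true) :
    ∀ s ∈ sets, pwR msk m s.2 = true ∧ allR (chkXq N NL full R vs reps) s.2 = true :=
  fun s hs => cond_and (allR_spec _ _ h s hs)

/-- all blocks in order -/
lemma reps_of {m N full R DC : ℕ} {vs : List ℕ} {sets : List (ℕ × List ℕ)}
    {reps : List (List (ℕ × List ℕ))} (h : chkAq m N full R DC vs sets reps 0 = true) :
    ∀ k b, reps[k]? = some b → chkBq m N full R DC vs (bl2 N k sets) b (64 * k) = true := by
  intro k b hb
  have h1 := chkAq_spec 0 h k b hb
  rw [Nat.zero_add] at h1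
  exact h1

end Pool.Col46
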