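import Pool.Agent.Work.MP_46fa68_17.Oq3

/-!
# MP_46fa68_co: the search with a shortcut in the tail

helper17
-/

set_option autoImplicit false

namespace Pool.Col46

open Equiv

variable {n : ℕ}

/-- exists -/
noncomputable def anyR (p : ℕ → Bool) (l : List ℕ) : Bool :=
  List.rec (motive := fun _ => Bool) false (fun c _ ih => cond (p c) true ih) l

lemma anyR_spec (p : ℕ → Bool) (l : List ℕ) (h : anyR p l = true) : ∃ x ∈ l, p x = true := by
  induction l with
  | nil =>
    have h' : false = true := h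
    exact absurd h' (by decide)
  | cons c l ih =>
    have h' : cond (p c) true (anyR p l) = true := h
    cases hp : p c with
    | true => exact ⟨c, by simp, hp⟩
    | false =>
      rw [hp, cond_false] at h'
      obtain ⟨x, hx, hpx⟩ := ih h'
      exact ⟨x, by simp [hx], hpx⟩

/-- code of the identity on the positions -/
noncomputable def idc (l : List (ℕ × ℕ)) : ℕ :=
  List.rec (motive := fun _ => ℕ) (nat_lit 0)
    (fun x _ ih => Nat.add x.1 (Nat.mul (nat_lit 16) ih)) l

lemma idc_eq (l : List (ℕ × ℕ)) : idc l = enc (l.map Prod.fst) := by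
  induction l with
  | nil => rfl
  | cons x l ih =>
    have e : idc (x :: l) = x.1 + 16 * idc l := rfl
    rw [e, ih]
    rfl

/-- all remaining points must be fixed -/
noncomputable def tailC (t m : ℕ) (pr : ℕ × ℕ) (L : List (ℕ × ℕ)) (av a b : ℕ) : Bool :=
  cond (Nat.ble m pr.1) (cond (Nat.beq av (mk1 (pr :: L)))
    (cond (Nat.ble (Nat.add a (List.length (pr :: L))) (Nat.add t (nat_lit 1))) true
      (Nat.ble (Nat.add b (List.length (pr :: L))) (Nat.add t (nat_lit 1)))) false) false

/-- the remaining points are fixed in some candidate -/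
noncomputable def tailX (pr : ℕ × ℕ) (L : List (ℕ × ℕ)) (w : ℕ) (cand : List ℕ) : Bool :=
  anyR (fun c => Nat.beq (Nat.mod (Nat.div c w)
    (Nat.pow (nat_lit 16) (List.length (pr :: L)))) (idc (pr :: L))) cand

/-- one branch -/
noncomputable def br7 (m : ℕ) (pr : ℕ × ℕ) (ih : ℕ → ℕ → ℕ → ℕ → ℕ → List ℕ → Bool)
    (av u a b w : ℕ) (cand : List ℕ) (v : ℕ) : Bool :=
  cond (cond (Nat.ble (Nat.add pr.1 (nat_lit 1)) m)
      (Nat.ble (Nat.add (Nat.add m u) (nat_lit 1)) v) false) true
    (ih (Nat.xor av (Nat.pow (nat_lit 16) v))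
      (cond (cond (Nat.ble (Nat.add pr.1 (nat_lit 1)) m) (Nat.beq v (Nat.add m u)) false)
        (Nat.add u (nat_lit 1)) u)
      (cond (Nat.beq v pr.1) (Nat.add a (nat_lit 1)) a)
      (cond (Nat.beq v pr.2) (Nat.add b (nat_lit 1)) b) (Nat.mul w (nat_lit 16))
      (filR (fun c => Nat.beq (Nat.mod (Nat.div c w) (nat_lit 16)) v) cand))

/-- the search -/
noncomputable def go7 (t m : ℕ) (vs : List ℕ) (l : List (ℕ × ℕ)) :
    ℕ → ℕ → ℕ → ℕ → ℕ → List ℕ → Bool :=
  List.rec (motive := fun _ => ℕ → ℕ → ℕ → ℕ → ℕ → List ℕ → Bool)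
    (fun _ _ a b _ cand => cond (Nat.ble (Nat.add a (nat_lit 1)) t) true
      (cond (Nat.ble (Nat.add b (nat_lit 1)) t) true (ne cand)))
    (fun pr L ih av u a b w cand =>
      cond (Nat.ble (Nat.add (Nat.add a (Nat.mod (Nat.land (mk1 (pr :: L)) av) (nat_lit 15)))
          (nat_lit 1)) t) true
        (cond (Nat.ble (Nat.add (Nat.add b (Nat.mod (Nat.land (mk2 (pr :: L)) av) (nat_lit 15)))
            (nat_lit 1)) t) true
          (cond (tailC t m pr L av a b) (tailX pr L w cand)
            (allR (fun v => cond (Nat.beq (Nat.land av (Nat.pow (nat_lit 16) v)) (nat_lit 0)) true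
              (br7 m pr ih av u a b w cand v)) vs)))) l

/-- the count bounds at a node -/
lemma prune_le {m : ℕ} (hn : n ≤ 14) (ρ : Perm (Fin n)) {τ : Perm (Fin n)} (i : ℕ) (hin : i < n)
    {av u a b : ℕ} {cand : List ℕ} (hS : St m ρ τ i av u a b cand) :
    (Finset.univ.filter (fun j : Fin n => i ≤ (j : ℕ) ∧ τ j = (1 : Perm (Fin n)) j)).card
      ≤ dz (mask n) (Nat.land (mk1 ((i, (ρ ⟨i, hin⟩ : ℕ)) ::
        ((vl (1 : Perm (Fin n))).zip (vl ρ)).drop (i + 1))) av) ∧
    (Finset.univ.filter (fun j : Fin n => i ≤ (j : ℕ) ∧ τ j = ρ j)).card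
      ≤ dz (mask n) (Nat.land (mk2 ((i, (ρ ⟨i, hin⟩ : ℕ)) ::
        ((vl (1 : Perm (Fin n))).zip (vl ρ)).drop (i + 1))) av) := by
  constructor
  · apply dz_ge hn
    intro x hx
    simp only [Finset.mem_filter, Finset.mem_univ, true_and] at hx
    have e : ∀ z, Nat.land z av = z &&& av := fun z => rfl
    rw [e, Nat.testBit_and, Bool.and_eq_true]
    constructor
    · have hm := mem_zip_drop ρ i x hx.1
      rw [drop_cons ρ i hin] at hm
      exact mk1_bit _ _ hm
    · apply hS.av
      have : τ⁻¹ x = x := by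
        rw [Perm.inv_eq_iff_eq]
        exact hx.2.symm
      rw [this]; exact hx.1
  · rw [← Finset.card_image_of_injective _ ρ.injective]
    apply dz_ge hn
    intro x hx
    rw [Finset.mem_image] at hx
    obtain ⟨y, hy, rfl⟩ := hx
    simp only [Finset.mem_filter, Finset.mem_univ, true_and] at hy
    have e : ∀ z, Nat.land z av = z &&& av := fun z => rfl
    rw [e, Nat.testBit_and, Bool.and_eq_true]
    constructor
    · have hm := mem_zip_drop ρ i y hy.1
      rw [drop_cons ρ i hin] at hm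
      exact mk2_bit _ _ hm
    · apply hS.av
      have : τ⁻¹ (ρ y) = y := by
        rw [Perm.inv_eq_iff_eq]
        exact hy.2.symm
      rw [this]; exact hy.1

/-- a permutation of the last points with many fixed points is the identity there -/
lemma all_fixed (τ : Perm (Fin n)) (i : ℕ) (hS : ∀ j : Fin n, i ≤ (j : ℕ) → i ≤ (τ j : ℕ))
    (hc : n - i ≤ (Finset.univ.filter (fun j : Fin n => i ≤ (j : ℕ) ∧ τ j = j)).card + 1)
    (j : Fin n) (hj : i ≤ (j : ℕ)) : τ j = j := by
  by_contra hne
  have hsub : Finset.univ.filter (fun j : Fin n => i ≤ (j : ℕ) ∧ τ j = j) ⊆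
      ((Finset.univ.filter (fun j : Fin n => i ≤ (j : ℕ))).erase j).erase (τ j) := by
    intro x hx
    simp only [Finset.mem_filter, Finset.mem_univ, true_and] at hx
    rw [Finset.mem_erase, Finset.mem_erase, Finset.mem_filter]
    refine ⟨?_, ?_, Finset.mem_univ _, hx.1⟩
    · intro h
      rw [h] at hx
      exact hne (τ.injective hx.2)
    · intro h
      rw [h] at hx
      exact hne hx.2
  have h1 := Finset.card_le_card hsub
  have h2 : (Finset.univ.filter (fun j : Fin n => i ≤ (j : ℕ))).card = n - i := by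
    have h3 : (Finset.univ.filter (fun j : Fin n => i ≤ (j : ℕ))).card =
        (Finset.Ico i n).card := by
      apply Finset.card_bij (fun (x : Fin n) _ => (x : ℕ))
      · intro x hx
        simp only [Finset.mem_filter, Finset.mem_univ, true_and] at hx
        rw [Finset.mem_Ico]
        exact ⟨hx, x.2⟩
      · intro x _ y _ h; exact Fin.ext h
      · intro x hx
        rw [Finset.mem_Ico] at hx
        exact ⟨⟨x, hx.2⟩, by simp [hx.1], rfl⟩
    rw [h3, Nat.card_Ico]
  have hm1 : j ∈ Finset.univ.filter (fun j : Fin n => i ≤ (j : ℕ)) := by simp [hj]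
  have hm2 : τ j ∈ (Finset.univ.filter (fun j : Fin n => i ≤ (j : ℕ))).erase j := by
    rw [Finset.mem_erase]
    exact ⟨hne, by simp [hS j hj]⟩
  have h4 := Finset.card_pos.2 ⟨τ j, hm2⟩
  rw [Finset.card_erase_of_mem hm2, Finset.card_erase_of_mem hm1, h2] at h1
  rw [Finset.card_erase_of_mem hm1, h2] at h4
  omega

lemma tail_spec {t m : ℕ} (hn : n ≤ 14) (ρ : Perm (Fin n))
    (hρ : ∀ i : Fin n, m ≤ (i : ℕ) → ρ i = i) (P : Perm (Fin n) → Prop) {τ : Perm (Fin n)}
    (i : ℕ) (hin : i < n) {av u a b : ℕ} {cand : List ℕ} (hS : St m ρ τ i av u a b cand)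
    (h1 : t ≤ ag τ 1) (h2 : t ≤ ag τ ρ)
    (htc : tailC t m (i, (ρ ⟨i, hin⟩ : ℕ)) (((vl (1 : Perm (Fin n))).zip (vl ρ)).drop (i + 1))
      av a b = true)
    (htx : tailX (i, (ρ ⟨i, hin⟩ : ℕ)) (((vl (1 : Perm (Fin n))).zip (vl ρ)).drop (i + 1))
      (16 ^ i) cand = true)
    (hC : ∀ c ∈ cand, ∀ τ : Perm (Fin n), c % 16 ^ n = code τ → P τ) : P τ := by
  have hn' : n ≤ 16 := le_trans hn (by norm_num)
  unfold tailC at htc
  unfold tailX at htx
  rw [← drop_cons ρ i hin] at htc htx
  have hlen : (((vl (1 : Perm (Fin n))).zip (vl ρ)).drop i).length = n - i := by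
    rw [List.length_drop, List.length_zip, vl_length, vl_length, min_self]
  rw [hlen] at htc htx
  obtain ⟨e1, htc⟩ := cond_and htc
  obtain ⟨e2, htc⟩ := cond_and htc
  have e1' : m ≤ i := Nat.le_of_ble_eq_true e1
  have e2' := Nat.eq_of_beq_eq_true e2
  have hcnt : a + (n - i) ≤ t + 1 ∨ b + (n - i) ≤ t + 1 := by
    cases hb : Nat.ble (Nat.add a (n - i)) (Nat.add t (nat_lit 1)) with
    | true => exact Or.inl (Nat.le_of_ble_eq_true hb)
    | false =>
      rw [hb, cond_false] at htc
      exact Or.inr (Nat.le_of_ble_eq_true htc)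
  have hpres : ∀ j : Fin n, i ≤ (j : ℕ) → i ≤ (τ j : ℕ) := by
    intro j hj
    have hb := hS.av (τ j) (by rw [show τ⁻¹ (τ j) = j by simp]; exact hj)
    rw [e2'] at hb
    obtain ⟨x, hx, hxe⟩ := mk1_bits _ _ hb
    obtain ⟨k, hk, rfl⟩ := List.mem_iff_getElem.1 hx
    rw [List.getElem_drop, List.getElem_zip] at hxe
    simp only [vl, List.getElem_ofFn] at hxe
    have : 4 * ((τ j : Fin n) : ℕ) = 4 * (i + k) := hxe
    omega
  have hfix : ∀ j : Fin n, i ≤ (j : ℕ) → τ j = j := by
    apply all_fixed τ i hpres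
    have c1 := split_count τ 1 i
    have c2 := split_count τ ρ i
    rw [← hS.a] at c1
    rw [← hS.b] at c2
    rcases hcnt with hcnt | hcnt
    · have e3 : (Finset.univ.filter (fun j : Fin n => i ≤ (j : ℕ) ∧ τ j = j)).card =
          (Finset.univ.filter (fun j : Fin n => i ≤ (j : ℕ) ∧ τ j = (1 : Perm (Fin n)) j)).card :=
        rfl
      omega
    · have e3 : (Finset.univ.filter (fun j : Fin n => i ≤ (j : ℕ) ∧ τ j = j)).card =
          (Finset.univ.filter (fun j : Fin n => i ≤ (j : ℕ) ∧ τ j = ρ j)).card := by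
        congr 1
        ext j
        simp only [Finset.mem_filter, Finset.mem_univ, true_and]
        constructor
        · rintro ⟨h3, h4⟩; exact ⟨h3, by rw [hρ j (by omega)]; exact h4⟩
        · rintro ⟨h3, h4⟩; exact ⟨h3, by rw [hρ j (by omega)] at h4; exact h4⟩
      omega
  obtain ⟨c, hc, hce⟩ := anyR_spec _ _ htx
  have hce' : c / 16 ^ i % 16 ^ (n - i) = idc (((vl (1 : Perm (Fin n))).zip (vl ρ)).drop i) :=
    Nat.eq_of_beq_eq_true hce
  refine hC c hc τ ?_
  have h5 : c % 16 ^ n = code τ % 16 ^ n := by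
    apply dg_ext
    intro j hj
    rcases lt_or_ge j i with hji | hji
    · rw [← dg_mod c j i hji, ← dg_mod (code τ) j i hji, hS.c c hc]
    · have h6 : dg c j = dg (c / 16 ^ i % 16 ^ (n - i)) (j - i) := by
        rw [dg_mod _ _ _ (by omega)]
        unfold dg
        rw [Nat.div_div_eq_div_mul, ← pow_add]
        congr 3
        omega
      have hmap : (((vl (1 : Perm (Fin n))).zip (vl ρ)).drop i).map Prod.fst =
          (vl (1 : Perm (Fin n))).drop i := by
        rw [List.map_drop, List.map_fst_zip (by rw [vl_length, vl_length])]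
      rw [h6, hce', idc_eq, hmap, dg_enc _ (fun v hv => lt_of_lt_of_le
        (vl_lt _ v (List.mem_of_mem_drop hv)) hn') (j - i)
        (by rw [List.length_drop, vl_length]; omega)]
      rw [List.getElem_drop]
      simp only [vl, List.getElem_ofFn]
      rw [dg_code hn' τ ⟨j, hj⟩, hfix ⟨j, hj⟩ hji]
      show i + (j - i) = j
      omega
  rw [h5, Nat.mod_eq_of_lt (code_lt hn' τ)]

theorem go7_spec {t m : ℕ} (hn : n ≤ 14) (ρ : Perm (Fin n))
    (hρ : ∀ i : Fin n, m ≤ (i : ℕ) → ρ i = i) (P : Perm (Fin n) → Prop)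
    (hP : ∀ (τ : Perm (Fin n)) (x y : Fin n), m ≤ (x : ℕ) → m ≤ (y : ℕ) →
      P (swap x y * τ * swap x y) → P τ) (vs : List ℕ) (hvs : ∀ v < n, v ∈ vs) :
    ∀ (k i : ℕ), i + k = n → ∀ (av u a b : ℕ) (cand : List ℕ),
      go7 t m vs (((vl (1 : Perm (Fin n))).zip (vl ρ)).drop i) av u a b (16 ^ i) cand
        = true →
      (∀ c ∈ cand, ∀ τ : Perm (Fin n), c % 16 ^ n = code τ → P τ) →
      ∀ τ : Perm (Fin n), t ≤ ag τ 1 → t ≤ ag τ ρ → St m ρ τ i av u a b cand → P τ := by
  have hn' : n ≤ 16 := le_trans hn (by norm_num)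
  intro k
  induction k with
  | zero =>
    intro i hi av u a b cand h hC τ h1 h2 hS
    have hin : i = n := by omega
    subst hin
    have hd : ((vl (1 : Perm (Fin i))).zip (vl ρ)).drop i = [] := by
      apply List.drop_eq_nil_of_le
      rw [List.length_zip, vl_length, vl_length, min_self]
    rw [hd] at h
    have h' : cond (Nat.ble (a + 1) t) true (cond (Nat.ble (b + 1) t) true (ne cand)) = true := h
    have ea : a = ag τ 1 := by
      rw [hS.a]; unfold ag; congr 1; ext j; simp
    have eb : b = ag τ ρ := by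
      rw [hS.b]; unfold ag; congr 1; ext j; simp
    rw [ble_false (by omega), cond_false, ble_false (by omega), cond_false] at h'
    cases hc : cand with
    | nil => rw [hc] at h'; exact absurd h' (by decide)
    | cons c cs =>
      have hmem : c ∈ cand := by rw [hc]; simp
      have h3 := hS.c c hmem
      rw [Nat.mod_eq_of_lt (code_lt hn' τ)] at h3
      exact hC c hmem τ h3
  | succ k ih =>
    intro i hi av u a b cand h hC
    have hin : i < n := by omega
    rw [drop_cons ρ i hin] at h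
    set L := ((vl (1 : Perm (Fin n))).zip (vl ρ)).drop (i + 1) with hL
    have h' : cond (Nat.ble (a + (Nat.land (mk1 ((i, (ρ ⟨i, hin⟩ : ℕ)) :: L)) av) % 15 + 1) t)
        true (cond (Nat.ble (b + (Nat.land (mk2 ((i, (ρ ⟨i, hin⟩ : ℕ)) :: L)) av) % 15 + 1) t)
        true (cond (tailC t m (i, (ρ ⟨i, hin⟩ : ℕ)) L av a b)
          (tailX (i, (ρ ⟨i, hin⟩ : ℕ)) L (16 ^ i) cand)
          (allR (fun v => cond (Nat.beq (Nat.land av (Nat.pow 16 v)) 0) true
            (br7 m (i, (ρ ⟨i, hin⟩ : ℕ)) (go7 t m vs L) av u a b (16 ^ i) cand v)) vs))) = true := h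
    have hLlt : ∀ x ∈ (i, (ρ ⟨i, hin⟩ : ℕ)) :: L, x.1 < n ∧ x.2 < n := by
      intro x hx
      rw [hL, ← drop_cons ρ i hin] at hx
      exact zip_lt ρ x (List.mem_of_mem_drop hx)
    have d1 : dz (mask n) (Nat.land (mk1 ((i, (ρ ⟨i, hin⟩ : ℕ)) :: L)) av) =
        (Nat.land (mk1 ((i, (ρ ⟨i, hin⟩ : ℕ)) :: L)) av) % 15 := by
      apply dz_small _ hn
      intro j hj
      have e : Nat.land (mk1 ((i, (ρ ⟨i, hin⟩ : ℕ)) :: L)) av =
        mk1 ((i, (ρ ⟨i, hin⟩ : ℕ)) :: L) &&& av := rfl
      rw [e, Nat.testBit_and, Bool.and_eq_true] at hj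
      obtain ⟨x, hx, hxi⟩ := mk1_bits _ _ hj.1
      exact ⟨x.1, (hLlt x hx).1, hxi⟩
    have d2 : dz (mask n) (Nat.land (mk2 ((i, (ρ ⟨i, hin⟩ : ℕ)) :: L)) av) =
        (Nat.land (mk2 ((i, (ρ ⟨i, hin⟩ : ℕ)) :: L)) av) % 15 := by
      apply dz_small _ hn
      intro j hj
      have e : Nat.land (mk2 ((i, (ρ ⟨i, hin⟩ : ℕ)) :: L)) av =
        mk2 ((i, (ρ ⟨i, hin⟩ : ℕ)) :: L) &&& av := rfl
      rw [e, Nat.testBit_and, Bool.and_eq_true] at hj
      obtain ⟨x, hx, hxi⟩ := mk2_bits _ _ hj.1
      exact ⟨x.2, (hLlt x hx).2, hxi⟩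
    rw [← d1, ← d2] at h'
    by_cases htc : tailC t m (i, (ρ ⟨i, hin⟩ : ℕ)) L av a b = true
    · -- all remaining points are fixed
      intro τ h1 h2 hS
      have c1 := split_count τ 1 i
      have c2 := split_count τ ρ i
      rw [← hS.a] at c1
      rw [← hS.b] at c2
      obtain ⟨p1, p2⟩ := prune_le hn ρ i hin hS
      rw [← hL] at p1 p2
      rw [ble_false (by omega), cond_false, ble_false (by omega), cond_false, htc,
        cond_true] at h'
      rw [hL] at htc h'
      exact tail_spec hn ρ hρ P i hin hS h1 h2 htc h' hC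
    rw [Bool.not_eq_true] at htc
    rw [htc, cond_false] at h'
    -- the branch of a value
    have key : ∀ τ : Perm (Fin n), t ≤ ag τ 1 → t ≤ ag τ ρ → St m ρ τ i av u a b cand →
        (i < m → (τ ⟨i, hin⟩ : ℕ) ≤ m + u) → P τ := by
      intro τ h1 h2 hS hv
      have c1 := split_count τ 1 i
      have c2 := split_count τ ρ i
      rw [← hS.a] at c1
      rw [← hS.b] at c2
      have p1 : (Finset.univ.filter (fun j : Fin n => i ≤ (j : ℕ) ∧ τ j = (1 : Perm (Fin n)) j)).card
          ≤ dz (mask n) (Nat.land (mk1 ((i, (ρ ⟨i, hin⟩ : ℕ)) :: L)) av) := by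
        apply dz_ge hn
        intro x hx
        simp only [Finset.mem_filter, Finset.mem_univ, true_and] at hx
        have e : Nat.land (mk1 ((i, (ρ ⟨i, hin⟩ : ℕ)) :: L)) av =
          mk1 ((i, (ρ ⟨i, hin⟩ : ℕ)) :: L) &&& av := rfl
        rw [e, Nat.testBit_and, Bool.and_eq_true]
        constructor
        · have hm := mem_zip_drop ρ i x hx.1
          rw [drop_cons ρ i hin] at hm
          exact mk1_bit _ _ hm
        · apply hS.av
          have : τ⁻¹ x = x := by
            rw [Perm.inv_eq_iff_eq]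
            exact hx.2.symm
          rw [this]; exact hx.1
      have p2 : (Finset.univ.filter (fun j : Fin n => i ≤ (j : ℕ) ∧ τ j = ρ j)).card
          ≤ dz (mask n) (Nat.land (mk2 ((i, (ρ ⟨i, hin⟩ : ℕ)) :: L)) av) := by
        rw [← Finset.card_image_of_injective _ ρ.injective]
        apply dz_ge hn
        intro x hx
        rw [Finset.mem_image] at hx
        obtain ⟨y, hy, rfl⟩ := hx
        simp only [Finset.mem_filter, Finset.mem_univ, true_and] at hy
        have e : Nat.land (mk2 ((i, (ρ ⟨i, hin⟩ : ℕ)) :: L)) av =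
          mk2 ((i, (ρ ⟨i, hin⟩ : ℕ)) :: L) &&& av := rfl
        rw [e, Nat.testBit_and, Bool.and_eq_true]
        constructor
        · have hm := mem_zip_drop ρ i y hy.1
          rw [drop_cons ρ i hin] at hm
          exact mk2_bit _ _ hm
        · apply hS.av
          have : τ⁻¹ (ρ y) = y := by
            rw [Perm.inv_eq_iff_eq]
            exact hy.2.symm
          rw [this]; exact hy.1
      rw [ble_false (by omega), cond_false, ble_false (by omega), cond_false] at h'
      have h3 := allR_spec _ _ h' (τ ⟨i, hin⟩ : ℕ) (hvs _ (τ ⟨i, hin⟩).2)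
      have hlb := land_beq av (τ ⟨i, hin⟩ : ℕ)
      have hbit : av.testBit (4 * (τ ⟨i, hin⟩ : ℕ)) = true := by
        apply hS.av
        rw [show τ⁻¹ (τ ⟨i, hin⟩) = ⟨i, hin⟩ by simp]
      have h4 : Nat.beq (Nat.land (Nat.shiftRight av (4 * (τ ⟨i, hin⟩ : ℕ))) 1) 0 = false := by
        apply beq_false
        have e : Nat.land (Nat.shiftRight av (4 * (τ ⟨i, hin⟩ : ℕ))) 1 =
          (av >>> (4 * (τ ⟨i, hin⟩ : ℕ))) &&& 1 := rfl
        rw [e, Nat.and_one_is_mod, Nat.shiftRight_eq_div_pow]
        rw [Nat.testBit_eq_decide_div_mod_eq] at hbit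
        have : av / 2 ^ (4 * (τ ⟨i, hin⟩ : ℕ)) % 2 = 1 := by simpa using hbit
        omega
      have h4' : Nat.beq (Nat.land av (Nat.pow 16 (τ ⟨i, hin⟩ : ℕ))) 0 = false := hlb.trans h4
      rw [h4', cond_false] at h3
      unfold br7 at h3
      have h5 : cond (Nat.ble (i + 1) m) (Nat.ble (m + u + 1) (τ ⟨i, hin⟩ : ℕ)) false = false := by
        by_cases him : i < m
        · have : Nat.ble (i + 1) m = true := Nat.ble_eq_true_of_le him
          rw [this, cond_true]
          exact ble_false (by have := hv him; omega)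
        · rw [ble_false (by omega : m < i + 1), cond_false]
      have h5' : cond (Nat.ble (Nat.add (i, (ρ ⟨i, hin⟩ : ℕ)).1 (nat_lit 1)) m)
        (Nat.ble (Nat.add (Nat.add m u) (nat_lit 1)) (τ ⟨i, hin⟩ : ℕ)) false = false := h5
      rw [h5', cond_false] at h3
      have e16 : Nat.mul (16 ^ i) 16 = 16 ^ (i + 1) := (pow_succ 16 i).symm
      have h3 : go7 t m vs L (Nat.xor av (Nat.pow 16 (τ ⟨i, hin⟩ : ℕ)))
        (cond (cond (Nat.ble (i + 1) m) (Nat.beq (τ ⟨i, hin⟩ : ℕ) (m + u)) false) (u + 1) u)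
        (cond (Nat.beq (τ ⟨i, hin⟩ : ℕ) i) (a + 1) a)
        (cond (Nat.beq (τ ⟨i, hin⟩ : ℕ) (ρ ⟨i, hin⟩ : ℕ)) (b + 1) b) (Nat.mul (16 ^ i) 16)
        (filR (fun c => Nat.beq (c / 16 ^ i % 16) (τ ⟨i, hin⟩ : ℕ)) cand) = true := h3
      have e2 : Nat.pow 16 (τ ⟨i, hin⟩ : ℕ) = Nat.pow 2 (4 * (τ ⟨i, hin⟩ : ℕ)) := by
        show 16 ^ (τ ⟨i, hin⟩ : ℕ) = 2 ^ (4 * (τ ⟨i, hin⟩ : ℕ))
        rw [show (16 : ℕ) = 2 ^ 4 by norm_num, ← pow_mul]
      rw [e16, e2] at h3
      refine ih (i + 1) (by omega) _ _ _ _ _ h3 (fun c hc => hC c (mem_filR _ _ _ hc).1) τ h1 h2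
        ⟨?_, ?_, ?_, ?_, ?_⟩
      · intro x hx
        have e : Nat.xor av (Nat.pow 2 (4 * (τ ⟨i, hin⟩ : ℕ))) =
          av ^^^ 2 ^ (4 * (τ ⟨i, hin⟩ : ℕ)) := rfl
        rw [e, Nat.testBit_xor, hS.av x (by omega), Nat.testBit_two_pow]
        have hne : (4 * (τ ⟨i, hin⟩ : ℕ) ≠ 4 * (x : ℕ)) := by
          intro hh
          have h7 : τ ⟨i, hin⟩ = x := Fin.ext (by omega)
          rw [← h7, show τ⁻¹ (τ ⟨i, hin⟩) = ⟨i, hin⟩ by simp] at hx
          simp only at hx
          omega
        simp [hne]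
      · rw [succ_count τ 1 i hin, ← hS.a]
        by_cases hh : (τ ⟨i, hin⟩ : ℕ) = i
        · rw [beq_true hh, cond_true, if_pos]
          exact Fin.ext hh
        · rw [beq_false hh, cond_false, if_neg, add_zero]
          intro h8
          exact hh (congrArg Fin.val h8)
      · rw [succ_count τ ρ i hin, ← hS.b]
        by_cases hh : (τ ⟨i, hin⟩ : ℕ) = (ρ ⟨i, hin⟩ : ℕ)
        · rw [beq_true hh, cond_true, if_pos]
          exact Fin.ext hh
        · rw [beq_false hh, cond_false, if_neg, add_zero]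
          intro h8
          exact hh (congrArg Fin.val h8)
      · intro him j hj
        have him' : i < m := by omega
        have hb1 : Nat.ble (i + 1) m = true := Nat.ble_eq_true_of_le him'
        rw [hb1, cond_true]
        rcases Nat.lt_succ_iff_lt_or_eq.1 hj with hj | hj
        · have h9 := hS.u (by omega) j hj
          cases Nat.beq (τ ⟨i, hin⟩ : ℕ) (m + u) <;> simp only [cond_true, cond_false] <;> omega
        · have hjj : j = ⟨i, hin⟩ := Fin.ext hj
          rw [hjj]
          by_cases hh : (τ ⟨i, hin⟩ : ℕ) = m + u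
          · rw [beq_true hh, cond_true]; omega
          · rw [beq_false hh, cond_false]
            have := hv him'
            omega
      · intro c hc
        have h10 := mem_filR _ _ _ hc
        have h11 := Nat.eq_of_beq_eq_true h10.2
        have h12 := hS.c c h10.1
        have h13 := dg_code hn' τ ⟨i, hin⟩
        unfold dg at h13
        simp only at h13
        rw [Nat.mod_pow_succ, Nat.mod_pow_succ (x := code τ), h12, h11, h13]
    intro τ h1 h2 hS
    by_cases hv : i < m → (τ ⟨i, hin⟩ : ℕ) ≤ m + u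
    · exact key τ h1 h2 hS hv
    · push Not at hv
      obtain ⟨him, hv⟩ := hv
      have hmu : m + u < n := lt_trans hv (τ ⟨i, hin⟩).2
      set v := τ ⟨i, hin⟩ with hvdef
      set y : Fin n := ⟨m + u, hmu⟩ with hy
      have hvm : m ≤ (v : ℕ) := by omega
      have hym : m ≤ (y : ℕ) := by rw [hy]; simp
      apply hP τ v y hvm hym
      have hsj : ∀ j : Fin n, (j : ℕ) < m → swap v y j = j := by
        intro j hj
        apply swap_apply_of_ne_of_ne
        · intro hh; rw [hh] at hj; omega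
        · intro hh; rw [hh] at hj; omega
      have hsτ : ∀ j : Fin n, (j : ℕ) < i → (swap v y * τ * swap v y) j = τ j := by
        intro j hj
        rw [Perm.mul_apply, Perm.mul_apply, hsj j (by omega)]
        have h3 := hS.u (by omega) j hj
        apply swap_apply_of_ne_of_ne
        · intro hh; rw [hh] at h3; omega
        · intro hh; rw [hh] at h3; rw [hy] at h3; simp at h3
      have hsρ : swap v y * ρ * swap v y = ρ := by
        ext j
        rw [Perm.mul_apply, Perm.mul_apply]
        by_cases hj1 : j = v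
        · rw [hj1, swap_apply_left, hρ y hym, swap_apply_right, hρ v hvm]
        · by_cases hj2 : j = y
          · rw [hj2, swap_apply_right, hρ v hvm, swap_apply_left, hρ y hym]
          · rw [swap_apply_of_ne_of_ne hj1 hj2]
            have n1 : ρ j ≠ v := by
              intro hh
              have : ρ j = ρ v := by rw [hh, hρ v hvm]
              exact hj1 (ρ.injective this)
            have n2 : ρ j ≠ y := by
              intro hh
              have : ρ j = ρ y := by rw [hh, hρ y hym]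
              exact hj2 (ρ.injective this)
            rw [swap_apply_of_ne_of_ne n1 n2]
      have hs1 : swap v y * 1 * swap v y = (1 : Perm (Fin n)) := by
        rw [mul_one, swap_mul_self]
      apply key
      · have h3 : ag (swap v y * τ * swap v y) (swap v y * 1 * swap v y) = ag τ 1 := by
          rw [ag_mul_right, ag_mul_left]
        rw [hs1] at h3
        rw [h3]; exact h1
      · have h3 : ag (swap v y * τ * swap v y) (swap v y * ρ * swap v y) = ag τ ρ := by
          rw [ag_mul_right, ag_mul_left]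
        rw [hsρ] at h3
        rw [h3]; exact h2
      · refine ⟨?_, ?_, ?_, ?_, ?_⟩
        · intro x hx
          apply hS.av
          by_contra hlt
          push Not at hlt
          have h3 := hsτ (τ⁻¹ x) hlt
          rw [show τ (τ⁻¹ x) = x by simp] at h3
          have h4 : (swap v y * τ * swap v y)⁻¹ x = τ⁻¹ x := by
            rw [Perm.inv_eq_iff_eq]; exact h3.symm
          rw [h4] at hx
          omega
        · rw [hS.a]
          congr 1
          ext j
          simp only [Finset.mem_filter, Finset.mem_univ, true_and]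
          constructor
          · rintro ⟨h3, h4⟩; exact ⟨h3, by rw [hsτ j h3]; exact h4⟩
          · rintro ⟨h3, h4⟩; exact ⟨h3, by rw [hsτ j h3] at h4; exact h4⟩
        · rw [hS.b]
          congr 1
          ext j
          simp only [Finset.mem_filter, Finset.mem_univ, true_and]
          constructor
          · rintro ⟨h3, h4⟩; exact ⟨h3, by rw [hsτ j h3]; exact h4⟩
          · rintro ⟨h3, h4⟩; exact ⟨h3, by rw [hsτ j h3] at h4; exact h4⟩
        · intro hi2 j hj
          rw [hsτ j hj]
          exact hS.u hi2 j hj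
        · intro c hc
          rw [hS.c c hc]
          exact code_mod hn' _ _ i (by omega) (fun j hj => (hsτ j hj).symm)
      · intro _
        rw [Perm.mul_apply, Perm.mul_apply, hsj ⟨i, hin⟩ him, ← hvdef, swap_apply_left]

end Pool.Col46
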