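import Pool.Agent.Work.MP_46fa68_17.Oq4

/-!
# MP_46fa68_co: orbit certificate with the search of `Oq4`

helper17
-/

set_option autoImplicit false

namespace Pool.Col46

open Equiv

variable {n : ℕ}

/-- the list `lf` meets all canonical members of the neighbourhood -/
def Covers (n m : ℕ) (ρ : Perm (Fin n)) (lf : List ℕ) : Prop :=
  ∀ P : Perm (Fin n) → Prop,
    (∀ (τ : Perm (Fin n)) (x y : Fin n), m ≤ (x : ℕ) → m ≤ (y : ℕ) →
      P (swap x y * τ * swap x y) → P τ) →
    (∀ c ∈ lf, ∀ τ : Perm (Fin n), c % 16 ^ n = code τ → P τ) →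
    ∀ τ : Perm (Fin n), n - m ≤ ag τ 1 → n - m ≤ ag τ ρ → P τ

/-- one value at the root of the search -/
noncomputable def rt7 (t m : ℕ) (pr : ℕ × ℕ) (L : List (ℕ × ℕ)) (vs : List ℕ) (msk : ℕ)
    (lf : List ℕ) (v : ℕ) : Bool :=
  cond (Nat.beq (Nat.land msk (Nat.pow (nat_lit 16) v)) (nat_lit 0)) true
    (br7 m pr (go7 t m vs L) msk (nat_lit 0) (nat_lit 0) (nat_lit 0) (nat_lit 1) lf v)

lemma covers_of {t m msk : ℕ} (hn : n ≤ 14) (h0 : 0 < m) (ht : n - m = t) {ρ : Perm (Fin n)}
    (hρ : ∀ i : Fin n, ρ i = i ↔ m ≤ (i : ℕ)) {vs : List ℕ} (hvs : vs = List.range n)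
    (hmsk : mask n = msk) {v0 : ℕ} {L : List (ℕ × ℕ)}
    (hz : (vl (1 : Perm (Fin n))).zip (vl ρ) = (0, v0) :: L) {lf : List ℕ}
    (h : allR (rt7 t m (0, v0) L vs msk lf) vs = true) : Covers n m ρ lf := by
  intro P hP hC τ h1 h2
  rw [ht] at h1 h2
  refine go7_spec (t := t) (m := m) hn ρ (fun i h => (hρ i).2 h) P hP vs
    (fun v hv => by rw [hvs]; exact List.mem_range.2 hv) n 0 (by omega) msk 0 0 0 lf ?_ hC τ
    h1 h2 ?_
  · rw [List.drop_zero, pow_zero, hz]
    have htc : tailC t m (0, v0) L msk 0 0 = false := by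
      unfold tailC
      rw [ble_false (by simpa using h0), cond_false]
    show cond (Nat.ble (Nat.add (Nat.add 0 (Nat.mod (Nat.land (mk1 ((0, v0) :: L)) msk) 15)) 1) t)
        true (cond (Nat.ble (Nat.add (Nat.add 0 (Nat.mod (Nat.land (mk2 ((0, v0) :: L)) msk) 15))
          1) t) true
          (cond (tailC t m (0, v0) L msk 0 0) (tailX (0, v0) L 1 lf)
            (allR (rt7 t m (0, v0) L vs msk lf) vs))) = true
    rw [htc, cond_false, h]
    cases Nat.ble (Nat.add (Nat.add 0 (Nat.mod (Nat.land (mk1 ((0, v0) :: L)) msk) 15)) 1) t <;>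
      cases Nat.ble (Nat.add (Nat.add 0 (Nat.mod (Nat.land (mk2 ((0, v0) :: L)) msk) 15)) 1) t <;>
        rfl
  · refine ⟨?_, ?_, ?_, ?_, ?_⟩
    · intro x _
      rw [← hmsk]
      exact mask_bit n x x.2
    · simp
    · simp
    · intro _ j hj; omega
    · intro c _
      simp [Nat.mod_one]

/-- the orbit certificate, any covering proof -/
structure OR (n m msk N NL full R D B CC : ℕ) (ρ : Perm (Fin n)) (vs : List ℕ)
    (sets : List (ℕ × List ℕ)) (reps : List (List (ℕ × List ℕ))) (lf : List ℕ) : Prop where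
  le : n ≤ 14
  hm : m ≤ n
  hmsk : mask n = msk
  hN : 16 ^ n = N
  hNL : 4096 * N = NL
  hfull : 2 ^ n - 1 = full
  hvs : vs = List.range n
  hR : code ρ = R
  hρ : ∀ i : Fin n, ρ i = i ↔ m ≤ (i : ℕ)
  hD : 0 < D
  hCC : (Cen ρ).card ≤ CC
  wt : wtR sets = D * B
  hsets : ∀ s ∈ sets, pwR msk m s.2 = true ∧ allR (chkXq N NL full R vs reps) s.2 = true
  hreps : ∀ h b, reps[h]? = some b →
    chkBq m N full R (D * CC) vs (bl2 N h sets) b (64 * h) = true
  hlf : ∀ e ∈ lf, chkXq N NL full R vs reps e = true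
  hcov : Covers n m ρ lf

section

variable {m msk N NL full R D B CC : ℕ} {ρ : Perm (Fin n)} {vs : List ℕ}
  {sets : List (ℕ × List ℕ)} {reps : List (List (ℕ × List ℕ))} {lf : List ℕ}

lemma OR.rep (C : OR n m msk N NL full R D B CC ρ vs sets reps lf) {l : ℕ} {c : ℕ × List ℕ}
    (hc : repAt reps l = some c) :
    chkRq m N full R (D * CC) vs (bl2 N (l / 64) sets) l c = true := by
  unfold repAt at hc
  rw [Option.bind_eq_some_iff] at hc
  obtain ⟨b, hb, hc⟩ := hc
  have h := chkBq_spec _ (C.hreps _ b hb) _ c hc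
  rw [Nat.div_add_mod] at h
  exact h

lemma OR.chkX_spec (C : OR n m msk N NL full R D B CC ρ vs sets reps lf) {e : ℕ}
    (h : chkXq N NL full R vs reps e = true) :
    ∃ a : Perm (Fin n), code a = e % 16 ^ n ∧ InOrbQ n ρ reps (e / N % 4096) a := by
  have hn : n ≤ 16 := le_trans C.le (by norm_num)
  obtain ⟨b, hb, h⟩ := nthR_spec _ _ _ h
  obtain ⟨c, hc, h⟩ := nthR_spec _ _ _ h
  obtain ⟨h1, h2⟩ := cond_and h
  obtain ⟨γ, hγ⟩ := borQ_spec C.hvs C.hfull h1
  have hrep : repAt reps (e / N % 4096) = some c := by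
    unfold repAt
    have hb' : reps[e / N % 4096 / 64]? = some b := hb
    rw [hb']
    exact hc
  have h4 := C.rep hrep
  unfold chkRq at h4
  obtain ⟨h5, -⟩ := cond_and h4
  obtain ⟨r, hr⟩ := borQ_spec C.hvs C.hfull h5
  have hR : code ρ = R % 16 ^ n := by
    rw [C.hR, Nat.mod_eq_of_lt]
    rw [← C.hR]; exact code_lt hn ρ
  obtain ⟨h6, h7⟩ := cxQ_spec C.hvs hn hγ hR (hr.code hn) h2
  refine ⟨γ * r * γ⁻¹, h7, c, hrep, r, hr.code hn, γ, ?_, rfl⟩
  rw [mem_Cen]; exact h6

lemma OR.nodup (C : OR n m msk N NL full R D B CC ρ vs sets reps lf) (s : ℕ × List ℕ)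
    (hs : s ∈ sets) : (s.2.map (· % 16 ^ n)).Nodup ∧ s.2.Pairwise (fun x y => m < dis msk x y) ∧
      ∀ e ∈ s.2, chkXq N NL full R vs reps e = true := by
  obtain ⟨h2, h3⟩ := C.hsets s hs
  have h4 := pwR_spec _ _ _ h2
  refine ⟨?_, h4, allR_spec _ _ h3⟩
  rw [List.Nodup, List.pairwise_map]
  refine h4.imp ?_
  intro x y hxy h
  rw [← C.hmsk, dis_eq_zero C.le x y h] at hxy
  omega

lemma OR.indep (C : OR n m msk N NL full R D B CC ρ vs sets reps lf) (s : ℕ × List ℕ)
    (hs : s ∈ sets) (x y : Perm (Fin n)) (hx : x ∈ Iset n s.2) (hy : y ∈ Iset n s.2)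
    (hne : x ≠ y) : ag x y < n - m := by
  have hn : n ≤ 16 := le_trans C.le (by norm_num)
  obtain ⟨e, he, hex⟩ := (mem_Iset _ _).1 hx
  obtain ⟨f, hf, hfy⟩ := (mem_Iset _ _).1 hy
  have hne' : e ≠ f := by
    intro h
    apply hne
    apply code_inj hn
    rw [← hex, ← hfy, h]
  have hp := (C.nodup s hs).2.1
  have hsym : ∀ a b, m < dis msk a b → m < dis msk b a := by
    intro a b h
    rw [← C.hmsk, dis_symm]
    rw [← C.hmsk] at h
    exact h
  have h1 : m < dis msk e f := by
    have h2 := List.pairwise_iff_getElem.1 hp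
    obtain ⟨i, hi, rfl⟩ := List.mem_iff_getElem.1 he
    obtain ⟨j, hj, rfl⟩ := List.mem_iff_getElem.1 hf
    rcases lt_trichotomy i j with h | h | h
    · exact h2 i j hi hj h
    · subst h; exact absurd rfl hne'
    · exact hsym _ _ (h2 j i hj hi h)
  have h3 := dis_agr n e f C.le
  rw [C.hmsk, ← agr_mod, ← agr_mod', hex, hfy, agr_code hn] at h3
  have := C.hm
  omega

/-- the count in one code -/
lemma OR.hits_ge (C : OR n m msk N NL full R D B CC ρ vs sets reps lf) (s : ℕ × List ℕ)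
    (hs : s ∈ sets) (l : ℕ) (c : ℕ × List ℕ) (hc : repAt reps l = some c) (r : Perm (Fin n))
    (hr : code r = c.1 % 16 ^ n) : cntR N l s.2 * fib ρ r r ≤ hits ρ r (Iset n s.2) := by
  have hn : n ≤ 16 := le_trans C.le (by norm_num)
  rw [hits_eq, cntR_eq]
  set L := s.2.filter fun e => Nat.beq (e / N % 4096) l with hL
  have hsub : L.Sublist s.2 := List.filter_sublist
  have hnd : (L.map (· % 16 ^ n)).Nodup := (C.nodup s hs).1.sublist (hsub.map _)
  have hx : ∀ e ∈ L, ∃ a : Perm (Fin n), code a = e % 16 ^ n ∧ fib ρ r a = fib ρ r r := by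
    intro e he
    rw [hL, List.mem_filter] at he
    obtain ⟨a, ha, c', hc', r', hr', γ, hγ, hae⟩ := C.chkX_spec ((C.nodup s hs).2.2 e he.1)
    rw [Nat.eq_of_beq_eq_true he.2, hc] at hc'
    have h1 : c = c' := by simpa using hc'
    have h2 : r' = r := code_inj hn (by rw [hr, hr', h1])
    refine ⟨a, ha, ?_⟩
    rw [hae, h2]
    exact fib_conj ρ r γ hγ
  choose! f hf1 hf2 using hx
  have hcard : L.length = (L.toFinset.image f).card := by
    rw [Finset.card_image_of_injOn]
    · rw [List.toFinset_card_of_nodup]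
      exact hnd.of_map _
    · intro a ha b hb hab
      have ha' : a ∈ L := by simpa using ha
      have hb' : b ∈ L := by simpa using hb
      have h1 : a % 16 ^ n = b % 16 ^ n := by rw [← hf1 a ha', ← hf1 b hb', hab]
      exact List.inj_on_of_nodup_map hnd ha' hb' h1
  calc L.length * fib ρ r r = ∑ x ∈ L.toFinset.image f, fib ρ r x := by
        rw [hcard, ← smul_eq_mul, ← Finset.sum_const]
        refine Finset.sum_congr rfl fun x hx => ?_
        rw [Finset.mem_image] at hx
        obtain ⟨e, he, rfl⟩ := hx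
        exact (hf2 e (by simpa using he)).symm
    _ ≤ ∑ x ∈ Iset n s.2, fib ρ r x := by
        apply Finset.sum_le_sum_of_subset
        intro x hx
        rw [Finset.mem_image] at hx
        obtain ⟨e, he, rfl⟩ := hx
        have he' : e ∈ L := by simpa using he
        rw [mem_Iset]
        exact ⟨e, hsub.subset he', (hf1 e he').symm⟩

/-- the result of a large table -/
theorem OR.tab (C : OR n m msk N NL full R D B CC ρ vs sets reps lf) : Tab n m B ρ := by
  have hn : n ≤ 16 := le_trans C.le (by norm_num)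
  have hρ1 : ∀ i : Fin n, m ≤ (i : ℕ) → ρ i = i := fun i h => (C.hρ i).2 h
  have hR : code ρ = R % 16 ^ n := by
    rw [C.hR, Nat.mod_eq_of_lt]
    rw [← C.hR]; exact code_lt hn ρ
  intro A F
  apply avg ρ (n - m) D B sets.length C.hD (fun j => Iset n (sets.get j).2)
    (fun j => (sets.get j).1) (fun j x hx y hy hne => C.indep _ (List.get_mem _ _) x y hx hy hne)
    (by rw [← wtR_eq]; exact C.wt) ?_ A F
  intro a ha1 ha2
  have hP : ∃ l, InOrbQ n ρ reps l a := by
    refine C.hcov (fun a => ∃ l, InOrbQ n ρ reps l a) ?_ ?_ a ha1 ha2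
    · rintro τ x y hx hy ⟨l, c, hc, r, hr, γ, hγ, h⟩
      have hs : swap x y ∈ Cen ρ := by
        rw [mem_Cen]
        ext j
        rw [Perm.mul_apply, Perm.mul_apply]
        by_cases hj1 : j = x
        · rw [hj1, swap_apply_left, hρ1 y hy, hρ1 x hx, swap_apply_left]
        · by_cases hj2 : j = y
          · rw [hj2, swap_apply_right, hρ1 x hx, hρ1 y hy, swap_apply_right]
          · rw [swap_apply_of_ne_of_ne hj1 hj2]
            have n1 : ρ j ≠ x := by
              intro hh
              have : ρ j = ρ x := by rw [hh, hρ1 x hx]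
              exact hj1 (ρ.injective this)
            have n2 : ρ j ≠ y := by
              intro hh
              have : ρ j = ρ y := by rw [hh, hρ1 y hy]
              exact hj2 (ρ.injective this)
            rw [swap_apply_of_ne_of_ne n1 n2]
      refine ⟨l, c, hc, r, hr, swap x y * γ, mul_mem_Cen hs hγ, ?_⟩
      have e : τ = swap x y * (swap x y * τ * swap x y) * (swap x y)⁻¹ := by
        rw [swap_inv, mul_assoc, mul_assoc, mul_assoc, swap_mul_self, mul_one, ← mul_assoc,
          swap_mul_self, one_mul]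
      rw [e, h]
      group
    · intro c hc τ hcode
      obtain ⟨a', ha', h⟩ := C.chkX_spec (C.hlf c hc)
      have : a' = τ := code_inj hn (by rw [ha', hcode])
      rw [← this]
      exact ⟨_, h⟩
  obtain ⟨l, c, hc, r, hr, γ, hγ, hae⟩ := hP
  have hchk := C.rep hc
  unfold chkRq at hchk
  obtain ⟨_, hchk⟩ := cond_and hchk
  obtain ⟨h1, hchk⟩ := cond_and hchk
  obtain ⟨h2, hchk⟩ := cond_and hchk
  have hcov := Nat.le_of_ble_eq_true hchk
  rw [cvQ_bl2] at hcov
  rw [← C.hN] at h2
  have hstab := stab_geq hn C.hvs C.hfull hR hρ1 hr c.2 h1 h2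
  have hlow : covR N l sets * (c.2.length * Nat.factorial (fxR m c.1 vs)) ≤
      ∑ j : Fin sets.length, (sets.get j).1 * hits ρ a (Iset n (sets.get j).2) := by
    rw [covR_eq, Finset.sum_mul]
    refine Finset.sum_le_sum fun j _ => ?_
    rw [hae, hits_conj ρ γ r hγ, mul_assoc]
    apply Nat.mul_le_mul_left
    calc cntR N l (sets.get j).2 * (c.2.length * Nat.factorial (fxR m c.1 vs))
        ≤ cntR N l (sets.get j).2 * fib ρ r r := Nat.mul_le_mul_left _ hstab
      _ ≤ _ := C.hits_ge _ (List.get_mem _ _) l c hc r hr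
  have hDC : D * (Cen ρ).card ≤ D * CC := Nat.mul_le_mul_left _ C.hCC
  constructor
  · omega
  · intro hns
    have hst : stR m c.1 vs = false := by
      rw [Bool.eq_false_iff]
      intro hst
      apply hns
      intro i hi
      have hfix : ∀ j : Fin n, m ≤ (j : ℕ) → r j = j := by
        intro j hj
        have h3 := allR_spec _ _ hst (j : ℕ) (by rw [C.hvs]; exact List.mem_range.2 j.2)
        rw [Nat.ble_eq_true_of_le hj, cond_true, dg_of_code hn hr] at h3
        exact Fin.ext (Nat.eq_of_beq_eq_true h3)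
      have hi2 : ρ (γ⁻¹ i) = γ⁻¹ i := by
        have h4 := inv_mem_Cen hγ
        rw [mem_Cen] at h4
        have h5 := congrArg (fun g : Perm (Fin n) => g i) h4
        simp only [Perm.mul_apply] at h5
        rw [← h5, hi]
      have h6 := hfix (γ⁻¹ i) ((C.hρ _).1 hi2)
      rw [hae, Perm.mul_apply, Perm.mul_apply, h6]
      simp
    rw [hst, cond_false] at hcov
    omega

end


end Pool.Col46
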