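import Pool.Agent.Work.MP_46fa68_17.Fast

/-!
# MP_46fa68_co: fractional colourings averaged over the centraliser of `ρ`

helper17
-/

set_option autoImplicit false

namespace Pool.Col46

open Equiv

variable {n : ℕ}

/-! ### the averaging argument -/

/-- the centraliser -/
def Cen (ρ : Perm (Fin n)) : Finset (Perm (Fin n)) :=
  Finset.univ.filter (fun g => g * ρ = ρ * g)

/-- number of elements of the centraliser which conjugate `a` into `S` -/
def hits (ρ a : Perm (Fin n)) (S : Finset (Perm (Fin n))) : ℕ :=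
  ((Cen ρ).filter (fun g => g * a * g⁻¹ ∈ S)).card

/-- number of elements of the centraliser which conjugate `r` to `x` -/
def fib (ρ r x : Perm (Fin n)) : ℕ := ((Cen ρ).filter (fun g => g * r * g⁻¹ = x)).card

lemma mem_Cen (ρ g : Perm (Fin n)) : g ∈ Cen ρ ↔ g * ρ = ρ * g := by
  unfold Cen
  rw [Finset.mem_filter]
  exact ⟨fun h => h.2, fun h => ⟨Finset.mem_univ _, h⟩⟩

lemma one_mem_Cen (ρ : Perm (Fin n)) : (1 : Perm (Fin n)) ∈ Cen ρ := by
  rw [mem_Cen]; simp

lemma mul_mem_Cen {ρ g h : Perm (Fin n)} (hg : g ∈ Cen ρ) (hh : h ∈ Cen ρ) : g * h ∈ Cen ρ := by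
  rw [mem_Cen] at *
  rw [mul_assoc, hh, ← mul_assoc, hg, mul_assoc]

lemma inv_mem_Cen {ρ g : Perm (Fin n)} (hg : g ∈ Cen ρ) : g⁻¹ ∈ Cen ρ := by
  rw [mem_Cen] at *
  rw [inv_mul_eq_iff_eq_mul, ← mul_assoc, hg, mul_inv_cancel_right]

lemma hits_conj (ρ γ r : Perm (Fin n)) (hγ : γ ∈ Cen ρ) (S : Finset (Perm (Fin n))) :
    hits ρ (γ * r * γ⁻¹) S = hits ρ r S := by
  unfold hits
  apply Finset.card_bij (fun g _ => g * γ)
  · intro g hg
    rw [Finset.mem_filter] at hg ⊢
    refine ⟨mul_mem_Cen hg.1 hγ, ?_⟩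
    have e : g * γ * r * (g * γ)⁻¹ = g * (γ * r * γ⁻¹) * g⁻¹ := by group
    rw [e]; exact hg.2
  · intro g _ h _ e
    exact mul_right_cancel e
  · intro h hh
    rw [Finset.mem_filter] at hh
    refine ⟨h * γ⁻¹, ?_, by group⟩
    rw [Finset.mem_filter]
    refine ⟨mul_mem_Cen hh.1 (inv_mem_Cen hγ), ?_⟩
    have e : h * γ⁻¹ * (γ * r * γ⁻¹) * (h * γ⁻¹)⁻¹ = h * r * h⁻¹ := by group
    rw [e]; exact hh.2

lemma hits_eq (ρ r : Perm (Fin n)) (S : Finset (Perm (Fin n))) :
    hits ρ r S = ∑ x ∈ S, fib ρ r x := by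
  unfold hits fib
  rw [Finset.card_eq_sum_card_fiberwise (f := fun g => g * r * g⁻¹) (t := S)]
  · refine Finset.sum_congr rfl fun x hx => ?_
    congr 1
    ext g
    rw [Finset.mem_filter, Finset.mem_filter, Finset.mem_filter]
    constructor
    · rintro ⟨⟨h1, -⟩, h3⟩
      exact ⟨h1, h3⟩
    · rintro ⟨h1, h3⟩
      exact ⟨⟨h1, by rw [h3]; exact hx⟩, h3⟩
  · intro g hg
    rw [Finset.mem_coe, Finset.mem_filter] at hg
    exact hg.2

lemma fib_conj (ρ r γ : Perm (Fin n)) (hγ : γ ∈ Cen ρ) : fib ρ r (γ * r * γ⁻¹) = fib ρ r r := by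
  unfold fib
  apply Finset.card_bij (fun g _ => γ⁻¹ * g)
  · intro g hg
    rw [Finset.mem_filter] at hg ⊢
    refine ⟨mul_mem_Cen (inv_mem_Cen hγ) hg.1, ?_⟩
    have e : γ⁻¹ * g * r * (γ⁻¹ * g)⁻¹ = γ⁻¹ * (g * r * g⁻¹) * γ := by group
    rw [e, hg.2]; group
  · intro g _ h _ e
    exact mul_left_cancel e
  · intro h hh
    rw [Finset.mem_filter] at hh
    refine ⟨γ * h, ?_, by group⟩
    rw [Finset.mem_filter]
    refine ⟨mul_mem_Cen hγ hh.1, ?_⟩
    have e : γ * h * r * (γ * h)⁻¹ = γ * (h * r * h⁻¹) * γ⁻¹ := by group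
    rw [e, hh.2]

/-- the double count -/
theorem double (ρ : Perm (Fin n)) {t : ℕ} {A : Finset (Perm (Fin n))} (F : Fam n t ρ A)
    (S : Finset (Perm (Fin n))) (hS : ∀ x ∈ S, ∀ y ∈ S, x ≠ y → ag x y < t) :
    ∑ a ∈ A, hits ρ a S ≤ (Cen ρ).card := by
  classical
  have h1 : ∀ a ∈ A, hits ρ a S = ∑ g ∈ Cen ρ, if g * a * g⁻¹ ∈ S then 1 else 0 := by
    intro a _
    unfold hits
    rw [Finset.card_filter]
  rw [Finset.sum_congr rfl h1, Finset.sum_comm]
  calc ∑ g ∈ Cen ρ, ∑ a ∈ A, (if g * a * g⁻¹ ∈ S then 1 else 0)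
      ≤ ∑ g ∈ Cen ρ, 1 := by
        refine Finset.sum_le_sum fun g _ => ?_
        rw [← Finset.card_filter]
        rw [Finset.card_le_one]
        intro a ha b hb
        rw [Finset.mem_filter] at ha hb
        by_contra hne
        have h2 : g * a * g⁻¹ ≠ g * b * g⁻¹ := by
          intro h
          exact hne (mul_left_cancel (mul_right_cancel h))
        have h3 := hS _ ha.2 _ hb.2 h2
        rw [ag_mul_right, ag_mul_left] at h3
        have h4 := F.int a ha.1 b hb.1
        omega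
    _ = (Cen ρ).card := by rw [Finset.sum_const, smul_eq_mul, mul_one]

/-- the averaging theorem -/
theorem avg (ρ : Perm (Fin n)) (t D B k : ℕ) (hD : 0 < D) (I : Fin k → Finset (Perm (Fin n)))
    (Y : Fin k → ℕ) (hI : ∀ j, ∀ x ∈ I j, ∀ y ∈ I j, x ≠ y → ag x y < t)
    (hY : ∑ j, Y j = D * B)
    (hc : ∀ a : Perm (Fin n), t ≤ ag a 1 → t ≤ ag a ρ →
      D * (Cen ρ).card ≤ ∑ j, Y j * hits ρ a (I j) ∧
      (¬ (∀ i, ρ i = i → a i = i) → D * (Cen ρ).card < ∑ j, Y j * hits ρ a (I j)))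
    (A : Finset (Perm (Fin n))) (F : Fam n t ρ A) :
    A.card ≤ B ∧ (A.card = B → ∀ τ ∈ A, ∀ i, ρ i = i → τ i = i) := by
  have hCpos : 0 < (Cen ρ).card := Finset.card_pos.2 ⟨1, one_mem_Cen ρ⟩
  have hup : ∑ a ∈ A, ∑ j, Y j * hits ρ a (I j) ≤ D * B * (Cen ρ).card := by
    rw [Finset.sum_comm, ← hY, Finset.sum_mul]
    refine Finset.sum_le_sum fun j _ => ?_
    rw [← Finset.mul_sum]
    exact Nat.mul_le_mul_left _ (double ρ F (I j) (hI j))
  have hlow : ∀ a ∈ A, D * (Cen ρ).card ≤ ∑ j, Y j * hits ρ a (I j) := fun a ha =>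
    (hc a (F.int a ha 1 F.one) (F.int a ha ρ F.rho)).1
  have h1 : A.card * (D * (Cen ρ).card) ≤ ∑ a ∈ A, ∑ j, Y j * hits ρ a (I j) := by
    have := Finset.card_nsmul_le_sum A (fun a => ∑ j, Y j * hits ρ a (I j)) _ hlow
    simpa using this
  have hpos : 0 < D * (Cen ρ).card := Nat.mul_pos hD hCpos
  constructor
  · have h2 : A.card * (D * (Cen ρ).card) ≤ B * (D * (Cen ρ).card) := by
      calc A.card * (D * (Cen ρ).card) ≤ D * B * (Cen ρ).card := le_trans h1 hup
        _ = B * (D * (Cen ρ).card) := by ring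
    exact Nat.le_of_mul_le_mul_right h2 hpos
  · intro hA τ hτ
    by_contra hns
    have hlt : ∑ a ∈ A, D * (Cen ρ).card < ∑ a ∈ A, ∑ j, Y j * hits ρ a (I j) :=
      Finset.sum_lt_sum hlow ⟨τ, hτ, (hc τ (F.int τ hτ 1 F.one) (F.int τ hτ ρ F.rho)).2 hns⟩
    rw [Finset.sum_const, smul_eq_mul, hA] at hlt
    have h3 : B * (D * (Cen ρ).card) < D * B * (Cen ρ).card := lt_of_lt_of_le hlt hup
    have e : B * (D * (Cen ρ).card) = D * B * (Cen ρ).card := by ring
    omega

/-! ### fast list functions -/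

/-- `List.all` by the recursor -/
noncomputable def allR {α : Type} (p : α → Bool) (l : List α) : Bool :=
  List.rec (motive := fun _ => Bool) true (fun x _ ih => cond (p x) ih false) l

lemma allR_spec {α : Type} (p : α → Bool) (l : List α) (h : allR p l = true) :
    ∀ x ∈ l, p x = true := by
  induction l with
  | nil => intro x hx; simp at hx
  | cons a l ih =>
    have h' : cond (p a) (allR p l) false = true := h
    cases hp : p a with
    | false => rw [hp, cond_false] at h'; exact absurd h' (by decide)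
    | true =>
      rw [hp, cond_true] at h'
      intro x hx
      rcases List.mem_cons.1 hx with rfl | hx
      · exact hp
      · exact ih h' x hx

/-- `List.filter` by the recursor -/
noncomputable def filR (p : ℕ → Bool) (l : List ℕ) : List ℕ :=
  List.rec (motive := fun _ => List ℕ) [] (fun x _ ih => cond (p x) (x :: ih) ih) l

lemma mem_filR (p : ℕ → Bool) (l : List ℕ) (x : ℕ) (h : x ∈ filR p l) : x ∈ l ∧ p x = true := by
  induction l with
  | nil =>
    have h' : x ∈ ([] : List ℕ) := h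
    simp at h'
  | cons a l ih =>
    have h' : x ∈ cond (p a) (a :: filR p l) (filR p l) := h
    cases hp : p a with
    | false =>
      rw [hp, cond_false] at h'
      exact ⟨List.mem_cons_of_mem _ (ih h').1, (ih h').2⟩
    | true =>
      rw [hp, cond_true] at h'
      rcases List.mem_cons.1 h' with rfl | h'
      · exact ⟨by simp, hp⟩
      · exact ⟨List.mem_cons_of_mem _ (ih h').1, (ih h').2⟩

/-- nonempty -/
def ne : List ℕ → Bool
  | [] => false
  | _ :: _ => true

/-- positions as a bit mask -/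
noncomputable def mk1 (l : List (ℕ × ℕ)) : ℕ :=
  List.rec (motive := fun _ => ℕ) 0 (fun x _ ih => Nat.lor (Nat.pow 2 (4 * x.1)) ih) l

/-- values of `ρ` as a bit mask -/
noncomputable def mk2 (l : List (ℕ × ℕ)) : ℕ :=
  List.rec (motive := fun _ => ℕ) 0 (fun x _ ih => Nat.lor (Nat.pow 2 (4 * x.2)) ih) l

lemma mk1_bit (l : List (ℕ × ℕ)) (x : ℕ × ℕ) (h : x ∈ l) : (mk1 l).testBit (4 * x.1) = true := by
  induction l with
  | nil => simp at h
  | cons a l ih =>
    have e : mk1 (a :: l) = 2 ^ (4 * a.1) ||| mk1 l := rfl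
    rw [e, Nat.testBit_or]
    rcases List.mem_cons.1 h with rfl | h
    · rw [Nat.testBit_two_pow_self]; rfl
    · rw [ih h, Bool.or_true]

lemma mk2_bit (l : List (ℕ × ℕ)) (x : ℕ × ℕ) (h : x ∈ l) : (mk2 l).testBit (4 * x.2) = true := by
  induction l with
  | nil => simp at h
  | cons a l ih =>
    have e : mk2 (a :: l) = 2 ^ (4 * a.2) ||| mk2 l := rfl
    rw [e, Nat.testBit_or]
    rcases List.mem_cons.1 h with rfl | h
    · rw [Nat.testBit_two_pow_self]; rfl
    · rw [ih h, Bool.or_true]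

lemma nz_sum (k z : ℕ) : nz k z = ∑ j ∈ Finset.range k, if z / 16 ^ j % 16 = 0 then 0 else 1 := by
  induction k generalizing z with
  | zero => simp [nz]
  | succ k ih =>
    unfold nz
    rw [ih, Finset.sum_range_succ']
    rw [pow_zero, Nat.div_one, Nat.add_comm]
    congr 1
    refine Finset.sum_congr rfl fun j _ => ?_
    rw [Nat.div_div_eq_div_mul, ← pow_succ']

lemma dz_ge (hn : n ≤ 14) (z : ℕ) (S : Finset (Fin n)) (h : ∀ x ∈ S, z.testBit (4 * (x : ℕ)) = true) :
    S.card ≤ dz (mask n) z := by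
  rw [dz_eq n z hn, nz_sum]
  have h1 : ∀ x ∈ S, ¬ (z / 16 ^ (x : ℕ) % 16 = 0) := by
    intro x hx h0
    have h2 := h x hx
    rw [Nat.testBit_eq_decide_div_mod_eq] at h2
    have h3 : z / 2 ^ (4 * (x : ℕ)) % 2 = 1 := by simpa using h2
    have e : (2 : ℕ) ^ (4 * (x : ℕ)) = 16 ^ (x : ℕ) := by rw [pow_mul]; norm_num
    rw [e] at h3
    omega
  calc S.card = ∑ x ∈ S, 1 := by simp
    _ = ∑ x ∈ S, (if z / 16 ^ (x : ℕ) % 16 = 0 then 0 else 1) := by
        refine Finset.sum_congr rfl fun x hx => ?_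
        rw [if_neg (h1 x hx)]
    _ ≤ ∑ x : Fin n, (if z / 16 ^ (x : ℕ) % 16 = 0 then 0 else 1) :=
        Finset.sum_le_sum_of_subset (Finset.subset_univ S)
    _ = _ := by rw [Finset.sum_range]

/-! ### the search up to relabelling -/

/-- the search: values `≥ m` which have not occurred yet are interchangeable in the first `m`
positions -/
noncomputable def go3 (t m msk : ℕ) (vs : List ℕ) (l : List (ℕ × ℕ)) :
    ℕ → ℕ → ℕ → ℕ → ℕ → List ℕ → Bool :=
  List.rec (motive := fun _ => ℕ → ℕ → ℕ → ℕ → ℕ → List ℕ → Bool)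
    (fun _ _ a b _ cand => cond (Nat.ble (a + 1) t) true (cond (Nat.ble (b + 1) t) true (ne cand)))
    (fun pr L ih av u a b w cand =>
      cond (Nat.ble (a + dz msk (Nat.land (mk1 (pr :: L)) av) + 1) t) true
        (cond (Nat.ble (b + dz msk (Nat.land (mk2 (pr :: L)) av) + 1) t) true
          (allR (fun v => cond (Nat.beq (Nat.land (Nat.shiftRight av (4 * v)) 1) 0) true
            (cond (cond (Nat.ble (pr.1 + 1) m) (Nat.ble (m + u + 1) v) false) true
              (ih (Nat.xor av (Nat.pow 2 (4 * v)))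
                (cond (cond (Nat.ble (pr.1 + 1) m) (Nat.beq v (m + u)) false) (u + 1) u)
                (cond (Nat.beq v pr.1) (a + 1) a) (cond (Nat.beq v pr.2) (b + 1) b) (w * 16)
                (filR (fun c => Nat.beq (c / w % 16) v) cand)))) vs))) l

lemma dg_ext (x y i : ℕ) (h : ∀ j < i, dg x j = dg y j) : x % 16 ^ i = y % 16 ^ i := by
  induction i with
  | zero => simp [Nat.mod_one]
  | succ i ih =>
    rw [Nat.mod_pow_succ, Nat.mod_pow_succ, ih (fun j hj => h j (by omega))]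
    have := h i (by omega)
    unfold dg at this
    rw [this]

lemma code_lt (hn : n ≤ 16) (σ : Perm (Fin n)) : code σ < 16 ^ n := by
  have : ∀ l : List ℕ, (∀ v ∈ l, v < 16) → enc l < 16 ^ l.length := by
    intro l
    induction l with
    | nil => intro _; simp [enc]
    | cons a l ih =>
      intro h
      have ha := h a (by simp)
      have := ih (fun v hv => h v (by simp [hv]))
      show a + 16 * enc l < 16 ^ (l.length + 1)
      rw [pow_succ]
      omega
  have h3 := this (vl σ) (fun v hv => lt_of_lt_of_le (vl_lt _ v hv) hn)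
  rw [vl_length] at h3
  exact h3

lemma code_mod (hn : n ≤ 16) (τ τ' : Perm (Fin n)) (i : ℕ) (hi : i ≤ n)
    (h : ∀ j : Fin n, (j : ℕ) < i → τ j = τ' j) : code τ % 16 ^ i = code τ' % 16 ^ i := by
  apply dg_ext
  intro j hj
  have h1 := dg_code hn τ ⟨j, lt_of_lt_of_le hj hi⟩
  have h2 := dg_code hn τ' ⟨j, lt_of_lt_of_le hj hi⟩
  rw [h ⟨j, lt_of_lt_of_le hj hi⟩ hj, ← h2] at h1
  exact h1

lemma mem_zip_drop (ρ : Perm (Fin n)) (i : ℕ) (j : Fin n) (hij : i ≤ (j : ℕ)) :
    ((j : ℕ), (ρ j : ℕ)) ∈ ((vl (1 : Perm (Fin n))).zip (vl ρ)).drop i := by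
  have hlen : ((vl (1 : Perm (Fin n))).zip (vl ρ)).length = n := by
    rw [List.length_zip, vl_length, vl_length, min_self]
  rw [List.mem_iff_getElem]
  refine ⟨(j : ℕ) - i, by rw [List.length_drop, hlen]; have := j.2; omega, ?_⟩
  rw [List.getElem_drop, List.getElem_zip]
  have e : i + ((j : ℕ) - i) = (j : ℕ) := by omega
  simp only [e, vl, List.getElem_ofFn]
  rfl

lemma drop_cons (ρ : Perm (Fin n)) (i : ℕ) (hi : i < n) :
    ((vl (1 : Perm (Fin n))).zip (vl ρ)).drop i =
      (i, (ρ ⟨i, hi⟩ : ℕ)) :: ((vl (1 : Perm (Fin n))).zip (vl ρ)).drop (i + 1) := by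
  have hlen : ((vl (1 : Perm (Fin n))).zip (vl ρ)).length = n := by
    rw [List.length_zip, vl_length, vl_length, min_self]
  rw [List.drop_eq_getElem_cons (by rw [hlen]; exact hi), List.getElem_zip]
  simp only [vl, List.getElem_ofFn]
  rfl

lemma split_count (τ υ : Perm (Fin n)) (i : ℕ) :
    ag τ υ = (Finset.univ.filter (fun j : Fin n => (j : ℕ) < i ∧ τ j = υ j)).card +
      (Finset.univ.filter (fun j : Fin n => i ≤ (j : ℕ) ∧ τ j = υ j)).card := by
  unfold ag
  rw [← Finset.card_union_of_disjoint]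
  · congr 1
    ext j
    simp only [Finset.mem_union, Finset.mem_filter, Finset.mem_univ, true_and]
    constructor
    · intro h
      rcases lt_or_ge (j : ℕ) i with h1 | h1
      · exact Or.inl ⟨h1, h⟩
      · exact Or.inr ⟨h1, h⟩
    · rintro (h | h) <;> exact h.2
  · rw [Finset.disjoint_left]
    intro j h1 h2
    simp only [Finset.mem_filter, Finset.mem_univ, true_and] at h1 h2
    omega

lemma succ_count (τ υ : Perm (Fin n)) (i : ℕ) (hi : i < n) :
    (Finset.univ.filter (fun j : Fin n => (j : ℕ) < i + 1 ∧ τ j = υ j)).card =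
      (Finset.univ.filter (fun j : Fin n => (j : ℕ) < i ∧ τ j = υ j)).card +
      (if τ ⟨i, hi⟩ = υ ⟨i, hi⟩ then 1 else 0) := by
  by_cases h : τ ⟨i, hi⟩ = υ ⟨i, hi⟩
  · rw [if_pos h]
    have e : Finset.univ.filter (fun j : Fin n => (j : ℕ) < i + 1 ∧ τ j = υ j) =
        insert ⟨i, hi⟩ (Finset.univ.filter (fun j : Fin n => (j : ℕ) < i ∧ τ j = υ j)) := by
      ext j
      simp only [Finset.mem_insert, Finset.mem_filter, Finset.mem_univ, true_and]
      constructor
      · rintro ⟨h1, h2⟩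
        rcases Nat.lt_succ_iff_lt_or_eq.1 h1 with h1 | h1
        · exact Or.inr ⟨h1, h2⟩
        · exact Or.inl (Fin.ext h1)
      · rintro (h1 | h1)
        · rw [h1]; exact ⟨Nat.lt_succ_self _, h⟩
        · exact ⟨by omega, h1.2⟩
    rw [e, Finset.card_insert_of_notMem (by simp)]
  · rw [if_neg h, add_zero]
    congr 1
    ext j
    simp only [Finset.mem_filter, Finset.mem_univ, true_and]
    constructor
    · rintro ⟨h1, h2⟩
      rcases Nat.lt_succ_iff_lt_or_eq.1 h1 with h1 | h1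
      · exact ⟨h1, h2⟩
      · exact absurd (by rw [show (⟨i, hi⟩ : Fin n) = j from Fin.ext h1.symm]; exact h2) h
    · rintro ⟨h1, h2⟩
      exact ⟨by omega, h2⟩

end Pool.Col46
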