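import Pool.Agent.Work.MP_46fa68_17.Orb

/-!
# MP_46fa68_co: the search up to relabelling, and the orbit certificate

helper17
-/

set_option autoImplicit false

namespace Pool.Col46

open Equiv

variable {n : ℕ}

lemma ble_false {a b : ℕ} (h : b < a) : Nat.ble a b = false := by
  rw [Bool.eq_false_iff]; intro hh; have := Nat.le_of_ble_eq_true hh; omega

lemma beq_false {a b : ℕ} (h : a ≠ b) : Nat.beq a b = false := by
  rw [Bool.eq_false_iff]; intro hh; exact h (Nat.eq_of_beq_eq_true hh)

lemma beq_true {a b : ℕ} (h : a = b) : Nat.beq a b = true := by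
  rw [h]; exact Nat.beq_refl _

/-- state of the search -/
structure St (m : ℕ) (ρ τ : Perm (Fin n)) (i av u a b : ℕ) (cand : List ℕ) : Prop where
  av : ∀ x : Fin n, i ≤ (τ⁻¹ x : ℕ) → av.testBit (4 * (x : ℕ)) = true
  a : a = (Finset.univ.filter (fun j : Fin n => (j : ℕ) < i ∧ τ j = (1 : Perm (Fin n)) j)).card
  b : b = (Finset.univ.filter (fun j : Fin n => (j : ℕ) < i ∧ τ j = ρ j)).card
  u : i ≤ m → ∀ j : Fin n, (j : ℕ) < i → (τ j : ℕ) < m + u
  c : ∀ c ∈ cand, c % 16 ^ i = code τ % 16 ^ i

theorem go3_spec {t m : ℕ} (hn : n ≤ 14) (ρ : Perm (Fin n))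
    (hρ : ∀ i : Fin n, m ≤ (i : ℕ) → ρ i = i) (P : Perm (Fin n) → Prop)
    (hP : ∀ (τ : Perm (Fin n)) (x y : Fin n), m ≤ (x : ℕ) → m ≤ (y : ℕ) →
      P (swap x y * τ * swap x y) → P τ) (vs : List ℕ) (hvs : ∀ v < n, v ∈ vs) :
    ∀ (k i : ℕ), i + k = n → ∀ (av u a b : ℕ) (cand : List ℕ),
      go3 t m (mask n) vs (((vl (1 : Perm (Fin n))).zip (vl ρ)).drop i) av u a b (16 ^ i) cand
        = true →
      (∀ c ∈ cand, ∀ τ : Perm (Fin n), c % 16 ^ n = code τ → P τ) →
      ∀ τ : Perm (Fin n), t ≤ ag τ 1 → t ≤ ag τ ρ → St m ρ τ i av u a b cand → P τ := by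
  have hn' : n ≤ 16 := le_trans hn (by norm_num)
  intro k
  induction k with
  | zero =>
    intro i hi av u a b cand h hC τ h1 h2 hS
    have hin : i = n := by omega
    subst hin
    have hd : ((vl (1 : Perm (Fin i))).zip (vl ρ)).drop i = [] := by
      apply List.drop_eq_nil_of_le
      rw [List.length_zip, vl_length, vl_length, min_self]
    rw [hd] at h
    have h' : cond (Nat.ble (a + 1) t) true (cond (Nat.ble (b + 1) t) true (ne cand)) = true := h
    have ea : a = ag τ 1 := by
      rw [hS.a]; unfold ag; congr 1; ext j; simp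
    have eb : b = ag τ ρ := by
      rw [hS.b]; unfold ag; congr 1; ext j; simp
    rw [ble_false (by omega), cond_false, ble_false (by omega), cond_false] at h'
    cases hc : cand with
    | nil => rw [hc] at h'; exact absurd h' (by decide)
    | cons c cs =>
      have hmem : c ∈ cand := by rw [hc]; simp
      have h3 := hS.c c hmem
      rw [Nat.mod_eq_of_lt (code_lt hn' τ)] at h3
      exact hC c hmem τ h3
  | succ k ih =>
    intro i hi av u a b cand h hC
    have hin : i < n := by omega
    rw [drop_cons ρ i hin] at h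
    set L := ((vl (1 : Perm (Fin n))).zip (vl ρ)).drop (i + 1) with hL
    have h' : cond (Nat.ble (a + dz (mask n) (Nat.land (mk1 ((i, (ρ ⟨i, hin⟩ : ℕ)) :: L)) av) + 1) t)
        true (cond (Nat.ble (b + dz (mask n) (Nat.land (mk2 ((i, (ρ ⟨i, hin⟩ : ℕ)) :: L)) av) + 1) t)
        true (allR (fun v => cond (Nat.beq (Nat.land (Nat.shiftRight av (4 * v)) 1) 0) true
            (cond (cond (Nat.ble (i + 1) m) (Nat.ble (m + u + 1) v) false) true
              (go3 t m (mask n) vs L (Nat.xor av (Nat.pow 2 (4 * v)))
                (cond (cond (Nat.ble (i + 1) m) (Nat.beq v (m + u)) false) (u + 1) u)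
                (cond (Nat.beq v i) (a + 1) a) (cond (Nat.beq v (ρ ⟨i, hin⟩ : ℕ)) (b + 1) b)
                (16 ^ i * 16)
                (filR (fun c => Nat.beq (c / 16 ^ i % 16) v) cand)))) vs)) = true := h
    -- the branch of a value
    have key : ∀ τ : Perm (Fin n), t ≤ ag τ 1 → t ≤ ag τ ρ → St m ρ τ i av u a b cand →
        (i < m → (τ ⟨i, hin⟩ : ℕ) ≤ m + u) → P τ := by
      intro τ h1 h2 hS hv
      have c1 := split_count τ 1 i
      have c2 := split_count τ ρ i
      rw [← hS.a] at c1
      rw [← hS.b] at c2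
      have p1 : (Finset.univ.filter (fun j : Fin n => i ≤ (j : ℕ) ∧ τ j = (1 : Perm (Fin n)) j)).card
          ≤ dz (mask n) (Nat.land (mk1 ((i, (ρ ⟨i, hin⟩ : ℕ)) :: L)) av) := by
        apply dz_ge hn
        intro x hx
        simp only [Finset.mem_filter, Finset.mem_univ, true_and] at hx
        have e : Nat.land (mk1 ((i, (ρ ⟨i, hin⟩ : ℕ)) :: L)) av =
          mk1 ((i, (ρ ⟨i, hin⟩ : ℕ)) :: L) &&& av := rfl
        rw [e, Nat.testBit_and, Bool.and_eq_true]
        constructor
        · have hm := mem_zip_drop ρ i x hx.1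
          rw [drop_cons ρ i hin] at hm
          exact mk1_bit _ _ hm
        · apply hS.av
          have : τ⁻¹ x = x := by
            rw [Perm.inv_eq_iff_eq]
            exact hx.2.symm
          rw [this]; exact hx.1
      have p2 : (Finset.univ.filter (fun j : Fin n => i ≤ (j : ℕ) ∧ τ j = ρ j)).card
          ≤ dz (mask n) (Nat.land (mk2 ((i, (ρ ⟨i, hin⟩ : ℕ)) :: L)) av) := by
        rw [← Finset.card_image_of_injective _ ρ.injective]
        apply dz_ge hn
        intro x hx
        rw [Finset.mem_image] at hx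
        obtain ⟨y, hy, rfl⟩ := hx
        simp only [Finset.mem_filter, Finset.mem_univ, true_and] at hy
        have e : Nat.land (mk2 ((i, (ρ ⟨i, hin⟩ : ℕ)) :: L)) av =
          mk2 ((i, (ρ ⟨i, hin⟩ : ℕ)) :: L) &&& av := rfl
        rw [e, Nat.testBit_and, Bool.and_eq_true]
        constructor
        · have hm := mem_zip_drop ρ i y hy.1
          rw [drop_cons ρ i hin] at hm
          exact mk2_bit _ _ hm
        · apply hS.av
          have : τ⁻¹ (ρ y) = y := by
            rw [Perm.inv_eq_iff_eq]
            exact hy.2.symm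
          rw [this]; exact hy.1
      rw [ble_false (by omega), cond_false, ble_false (by omega), cond_false] at h'
      have h3 := allR_spec _ _ h' (τ ⟨i, hin⟩ : ℕ) (hvs _ (τ ⟨i, hin⟩).2)
      have hbit : av.testBit (4 * (τ ⟨i, hin⟩ : ℕ)) = true := by
        apply hS.av
        rw [show τ⁻¹ (τ ⟨i, hin⟩) = ⟨i, hin⟩ by simp]
      have h4 : Nat.beq (Nat.land (Nat.shiftRight av (4 * (τ ⟨i, hin⟩ : ℕ))) 1) 0 = false := by
        apply beq_false
        have e : Nat.land (Nat.shiftRight av (4 * (τ ⟨i, hin⟩ : ℕ))) 1 =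
          (av >>> (4 * (τ ⟨i, hin⟩ : ℕ))) &&& 1 := rfl
        rw [e, Nat.and_one_is_mod, Nat.shiftRight_eq_div_pow]
        rw [Nat.testBit_eq_decide_div_mod_eq] at hbit
        have : av / 2 ^ (4 * (τ ⟨i, hin⟩ : ℕ)) % 2 = 1 := by simpa using hbit
        omega
      rw [h4, cond_false] at h3
      have h5 : cond (Nat.ble (i + 1) m) (Nat.ble (m + u + 1) (τ ⟨i, hin⟩ : ℕ)) false = false := by
        by_cases him : i < m
        · have : Nat.ble (i + 1) m = true := Nat.ble_eq_true_of_le him
          rw [this, cond_true]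
          exact ble_false (by have := hv him; omega)
        · rw [ble_false (by omega : m < i + 1), cond_false]
      rw [h5, cond_false] at h3
      have e16 : 16 ^ i * 16 = 16 ^ (i + 1) := (pow_succ 16 i).symm
      rw [e16] at h3
      refine ih (i + 1) (by omega) _ _ _ _ _ h3 (fun c hc => hC c (mem_filR _ _ _ hc).1) τ h1 h2
        ⟨?_, ?_, ?_, ?_, ?_⟩
      · intro x hx
        have e : Nat.xor av (Nat.pow 2 (4 * (τ ⟨i, hin⟩ : ℕ))) =
          av ^^^ 2 ^ (4 * (τ ⟨i, hin⟩ : ℕ)) := rfl
        rw [e, Nat.testBit_xor, hS.av x (by omega), Nat.testBit_two_pow]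
        have hne : (4 * (τ ⟨i, hin⟩ : ℕ) ≠ 4 * (x : ℕ)) := by
          intro hh
          have h7 : τ ⟨i, hin⟩ = x := Fin.ext (by omega)
          rw [← h7, show τ⁻¹ (τ ⟨i, hin⟩) = ⟨i, hin⟩ by simp] at hx
          simp only at hx
          omega
        simp [hne]
      · rw [succ_count τ 1 i hin, ← hS.a]
        by_cases hh : (τ ⟨i, hin⟩ : ℕ) = i
        · rw [beq_true hh, cond_true, if_pos]
          exact Fin.ext hh
        · rw [beq_false hh, cond_false, if_neg, add_zero]
          intro h8
          exact hh (congrArg Fin.val h8)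
      · rw [succ_count τ ρ i hin, ← hS.b]
        by_cases hh : (τ ⟨i, hin⟩ : ℕ) = (ρ ⟨i, hin⟩ : ℕ)
        · rw [beq_true hh, cond_true, if_pos]
          exact Fin.ext hh
        · rw [beq_false hh, cond_false, if_neg, add_zero]
          intro h8
          exact hh (congrArg Fin.val h8)
      · intro him j hj
        have him' : i < m := by omega
        have hb1 : Nat.ble (i + 1) m = true := Nat.ble_eq_true_of_le him'
        rw [hb1, cond_true]
        rcases Nat.lt_succ_iff_lt_or_eq.1 hj with hj | hj
        · have h9 := hS.u (by omega) j hj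
          cases Nat.beq (τ ⟨i, hin⟩ : ℕ) (m + u) <;> simp only [cond_true, cond_false] <;> omega
        · have hjj : j = ⟨i, hin⟩ := Fin.ext hj
          rw [hjj]
          by_cases hh : (τ ⟨i, hin⟩ : ℕ) = m + u
          · rw [beq_true hh, cond_true]; omega
          · rw [beq_false hh, cond_false]
            have := hv him'
            omega
      · intro c hc
        have h10 := mem_filR _ _ _ hc
        have h11 := Nat.eq_of_beq_eq_true h10.2
        have h12 := hS.c c h10.1
        have h13 := dg_code hn' τ ⟨i, hin⟩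
        unfold dg at h13
        simp only at h13
        rw [Nat.mod_pow_succ, Nat.mod_pow_succ (x := code τ), h12, h11, h13]
    intro τ h1 h2 hS
    by_cases hv : i < m → (τ ⟨i, hin⟩ : ℕ) ≤ m + u
    · exact key τ h1 h2 hS hv
    · push Not at hv
      obtain ⟨him, hv⟩ := hv
      have hmu : m + u < n := lt_trans hv (τ ⟨i, hin⟩).2
      set v := τ ⟨i, hin⟩ with hvdef
      set y : Fin n := ⟨m + u, hmu⟩ with hy
      have hvm : m ≤ (v : ℕ) := by omega
      have hym : m ≤ (y : ℕ) := by rw [hy]; simp
      apply hP τ v y hvm hym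
      have hsj : ∀ j : Fin n, (j : ℕ) < m → swap v y j = j := by
        intro j hj
        apply swap_apply_of_ne_of_ne
        · intro hh; rw [hh] at hj; omega
        · intro hh; rw [hh] at hj; omega
      have hsτ : ∀ j : Fin n, (j : ℕ) < i → (swap v y * τ * swap v y) j = τ j := by
        intro j hj
        rw [Perm.mul_apply, Perm.mul_apply, hsj j (by omega)]
        have h3 := hS.u (by omega) j hj
        apply swap_apply_of_ne_of_ne
        · intro hh; rw [hh] at h3; omega
        · intro hh; rw [hh] at h3; rw [hy] at h3; simp at h3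
      have hsρ : swap v y * ρ * swap v y = ρ := by
        ext j
        rw [Perm.mul_apply, Perm.mul_apply]
        by_cases hj1 : j = v
        · rw [hj1, swap_apply_left, hρ y hym, swap_apply_right, hρ v hvm]
        · by_cases hj2 : j = y
          · rw [hj2, swap_apply_right, hρ v hvm, swap_apply_left, hρ y hym]
          · rw [swap_apply_of_ne_of_ne hj1 hj2]
            have n1 : ρ j ≠ v := by
              intro hh
              have : ρ j = ρ v := by rw [hh, hρ v hvm]
              exact hj1 (ρ.injective this)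
            have n2 : ρ j ≠ y := by
              intro hh
              have : ρ j = ρ y := by rw [hh, hρ y hym]
              exact hj2 (ρ.injective this)
            rw [swap_apply_of_ne_of_ne n1 n2]
      have hs1 : swap v y * 1 * swap v y = (1 : Perm (Fin n)) := by
        rw [mul_one, swap_mul_self]
      apply key
      · have h3 : ag (swap v y * τ * swap v y) (swap v y * 1 * swap v y) = ag τ 1 := by
          rw [ag_mul_right, ag_mul_left]
        rw [hs1] at h3
        rw [h3]; exact h1
      · have h3 : ag (swap v y * τ * swap v y) (swap v y * ρ * swap v y) = ag τ ρ := by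
          rw [ag_mul_right, ag_mul_left]
        rw [hsρ] at h3
        rw [h3]; exact h2
      · refine ⟨?_, ?_, ?_, ?_, ?_⟩
        · intro x hx
          apply hS.av
          by_contra hlt
          push Not at hlt
          have h3 := hsτ (τ⁻¹ x) hlt
          rw [show τ (τ⁻¹ x) = x by simp] at h3
          have h4 : (swap v y * τ * swap v y)⁻¹ x = τ⁻¹ x := by
            rw [Perm.inv_eq_iff_eq]; exact h3.symm
          rw [h4] at hx
          omega
        · rw [hS.a]
          congr 1
          ext j
          simp only [Finset.mem_filter, Finset.mem_univ, true_and]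
          constructor
          · rintro ⟨h3, h4⟩; exact ⟨h3, by rw [hsτ j h3]; exact h4⟩
          · rintro ⟨h3, h4⟩; exact ⟨h3, by rw [hsτ j h3] at h4; exact h4⟩
        · rw [hS.b]
          congr 1
          ext j
          simp only [Finset.mem_filter, Finset.mem_univ, true_and]
          constructor
          · rintro ⟨h3, h4⟩; exact ⟨h3, by rw [hsτ j h3]; exact h4⟩
          · rintro ⟨h3, h4⟩; exact ⟨h3, by rw [hsτ j h3] at h4; exact h4⟩
        · intro hi2 j hj
          rw [hsτ j hj]
          exact hS.u hi2 j hj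
        · intro c hc
          rw [hS.c c hc]
          exact code_mod hn' _ _ i (by omega) (fun j hj => (hsτ j hj).symm)
      · intro _
        rw [Perm.mul_apply, Perm.mul_apply, hsj ⟨i, hin⟩ him, ← hvdef, swap_apply_left]

end Pool.Col46
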