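import Pool.Agent.Work.MP_46fa68_17.Orb2

/-!
# MP_46fa68_co: the orbit certificate

helper17
-/

set_option autoImplicit false

namespace Pool.Col46

open Equiv

variable {n : ℕ}

/-! ### kernel functions -/

/-- `G`, `G'` are codes of inverse permutations -/
noncomputable def okP (n : ℕ) (vs : List ℕ) (G G' : ℕ) : Bool :=
  allR (fun i => cond (Nat.ble (dg G i + 1) n) (cond (Nat.ble (dg G' i + 1) n)
    (cond (Nat.beq (dg G' (dg G i)) i) (Nat.beq (dg G (dg G' i)) i) false) false) false) vs

/-- the permutations commute -/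
noncomputable def cmR (vs : List ℕ) (G R : ℕ) : Bool :=
  allR (fun i => Nat.beq (dg G (dg R i)) (dg R (dg G i))) vs

/-- code of the conjugate -/
noncomputable def cjR (G G' x : ℕ) (vs : List ℕ) : ℕ :=
  List.rec (motive := fun _ => ℕ) 0
    (fun i _ ih => Nat.add (dg G (dg x (dg G' i))) (Nat.mul 16 ih)) vs

/-- lookup with continuation -/
noncomputable def nthR {α : Type} (l : List α) : ℕ → (α → Bool) → Bool :=
  List.rec (motive := fun _ => ℕ → (α → Bool) → Bool) (fun _ _ => false)
    (fun a _ ih i k => cond (Nat.beq i 0) (k a) (ih (Nat.sub i 1) k)) l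

/-- strictly increasing remainders, the first one above `p` -/
noncomputable def incR (N : ℕ) (l : List ℕ) : ℕ → Bool :=
  List.rec (motive := fun _ => ℕ → Bool) (fun _ => true)
    (fun u _ ih p => cond (Nat.ble (p + 1) (u % N)) (ih (u % N)) false) l

/-- number of entries with label `l` -/
noncomputable def cntR (N l : ℕ) (es : List ℕ) : ℕ :=
  List.rec (motive := fun _ => ℕ) 0
    (fun e _ ih => cond (Nat.beq (e / N % 4096) l) (Nat.add ih 1) ih) es

/-- coverage -/
noncomputable def covR (N l : ℕ) (sets : List (ℕ × List ℕ)) : ℕ :=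
  List.rec (motive := fun _ => ℕ) 0
    (fun s _ ih => Nat.add (Nat.mul s.1 (cntR N l s.2)) ih) sets

/-- number of fixed points `≥ m` -/
noncomputable def fxR (m c : ℕ) (vs : List ℕ) : ℕ :=
  List.rec (motive := fun _ => ℕ) 0
    (fun i _ ih => cond (Nat.ble m i) (cond (Nat.beq (dg c i) i) (Nat.add ih 1) ih) ih) vs

/-- all points `≥ m` are fixed -/
noncomputable def stR (m c : ℕ) (vs : List ℕ) : Bool :=
  allR (fun i => cond (Nat.ble m i) (Nat.beq (dg c i) i) true) vs

/-- check of one entry -/
noncomputable def chkX (n N R : ℕ) (vs : List ℕ) (reps : List (ℕ × List ℕ)) (e : ℕ) : Bool :=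
  nthR reps (e / N % 4096) fun r =>
    cond (okP n vs (e / (N * 4096)) (e / (N * 4096 * N)))
      (cond (cmR vs (e / (N * 4096)) R)
        (Nat.beq (cjR (e / (N * 4096)) (e / (N * 4096 * N)) r.1 vs) (e % N)) false) false

/-- check of one element of the stabiliser of the representative `c` -/
noncomputable def chkU (n m N R : ℕ) (vs : List ℕ) (c u : ℕ) : Bool :=
  cond (okP n vs u (u / N)) (cond (cmR vs u R) (cond (cmR vs u c)
    (allR (fun i => cond (Nat.ble m i) (cond (Nat.beq (dg c i) i) (Nat.beq (dg u i) i) true) true)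
      vs) false) false) false

/-- check of one representative -/
noncomputable def chkRep (n m N R DC : ℕ) (vs : List ℕ) (sets : List (ℕ × List ℕ)) (l : ℕ)
    (r : ℕ × List ℕ) : Bool :=
  cond (okP n vs r.1 (r.1 / N)) (cond (allR (chkU n m N R vs r.1) r.2) (cond (incR N r.2 0)
    (Nat.ble (DC + cond (stR m r.1 vs) 0 1)
      (covR N l sets * (r.2.length * Nat.factorial (fxR m r.1 vs)))) false) false) false

/-- check of all representatives -/
noncomputable def chkReps (n m N R DC : ℕ) (vs : List ℕ) (sets : List (ℕ × List ℕ))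
    (reps : List (ℕ × List ℕ)) : ℕ → Bool :=
  List.rec (motive := fun _ => ℕ → Bool) (fun _ => true)
    (fun r _ ih l => cond (chkRep n m N R DC vs sets l r) (ih (Nat.add l 1)) false) reps

/-! ### their meaning -/

/-- the permutation with codes `G`, `G'` -/
structure Rp (G G' : ℕ) (γ : Perm (Fin n)) : Prop where
  h1 : ∀ i : Fin n, (γ i : ℕ) = dg G i
  h2 : ∀ i : Fin n, (γ⁻¹ i : ℕ) = dg G' i

lemma okP_spec {vs : List ℕ} (hvs : vs = List.range n) {G G' : ℕ} (h : okP n vs G G' = true) :
    ∃ γ : Perm (Fin n), Rp G G' γ := by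
  have h' : ∀ i : Fin n, dg G i < n ∧ dg G' i < n ∧ dg G' (dg G i) = i ∧ dg G (dg G' i) = i := by
    intro i
    have h1 := allR_spec _ _ h (i : ℕ) (by rw [hvs]; exact List.mem_range.2 i.2)
    cases c1 : Nat.ble (dg G i + 1) n with
    | false => rw [c1, cond_false] at h1; exact absurd h1 (by decide)
    | true =>
      rw [c1, cond_true] at h1
      cases c2 : Nat.ble (dg G' i + 1) n with
      | false => rw [c2, cond_false] at h1; exact absurd h1 (by decide)
      | true =>
        rw [c2, cond_true] at h1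
        cases c3 : Nat.beq (dg G' (dg G i)) i with
        | false => rw [c3, cond_false] at h1; exact absurd h1 (by decide)
        | true =>
          rw [c3, cond_true] at h1
          exact ⟨Nat.le_of_ble_eq_true c1, Nat.le_of_ble_eq_true c2, Nat.eq_of_beq_eq_true c3,
            Nat.eq_of_beq_eq_true h1⟩
  exact ⟨{ toFun := fun i => ⟨dg G i, (h' i).1⟩
           invFun := fun i => ⟨dg G' i, (h' i).2.1⟩
           left_inv := fun i => Fin.ext (h' i).2.2.1
           right_inv := fun i => Fin.ext (h' i).2.2.2 }, fun i => rfl, fun i => rfl⟩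

lemma Rp.code {G G' : ℕ} {γ : Perm (Fin n)} (hn : n ≤ 16) (h : Rp G G' γ) :
    Pool.Col46.code γ = G % 16 ^ n := by
  have h1 : Pool.Col46.code γ % 16 ^ n = G % 16 ^ n := by
    apply dg_ext
    intro j hj
    rw [dg_code hn γ ⟨j, hj⟩, h.h1 ⟨j, hj⟩]
  rw [Nat.mod_eq_of_lt (code_lt hn γ)] at h1
  exact h1

lemma dg_of_code {x : ℕ} {r : Perm (Fin n)} (hn : n ≤ 16) (h : Pool.Col46.code r = x % 16 ^ n)
    (i : Fin n) : dg x i = (r i : ℕ) := by
  rw [← dg_mod x i n i.2, ← h, dg_code hn]

lemma cmR_spec {vs : List ℕ} (hvs : vs = List.range n) (hn : n ≤ 16) {G G' R : ℕ}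
    {γ ρ : Perm (Fin n)} (hγ : Rp G G' γ) (hR : Pool.Col46.code ρ = R % 16 ^ n)
    (h : cmR vs G R = true) : γ * ρ = ρ * γ := by
  ext i
  have h1 := allR_spec _ _ h (i : ℕ) (by rw [hvs]; exact List.mem_range.2 i.2)
  have h2 := Nat.eq_of_beq_eq_true h1
  rw [Perm.mul_apply, Perm.mul_apply, hγ.h1, ← dg_of_code hn hR i, h2, ← hγ.h1 i,
    dg_of_code hn hR]

lemma cjR_eq (G G' x : ℕ) (vs : List ℕ) :
    cjR G G' x vs = enc (vs.map fun i => dg G (dg x (dg G' i))) := by
  induction vs with
  | nil => rfl
  | cons i vs ih =>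
    have e : cjR G G' x (i :: vs) = dg G (dg x (dg G' i)) + 16 * cjR G G' x vs := rfl
    rw [e, ih]
    rfl

lemma cjR_spec {vs : List ℕ} (hvs : vs = List.range n) (hn : n ≤ 16) {G G' x : ℕ}
    {γ r : Perm (Fin n)} (hγ : Rp G G' γ) (hx : Pool.Col46.code r = x % 16 ^ n) :
    cjR G G' x vs = Pool.Col46.code (γ * r * γ⁻¹) := by
  rw [cjR_eq, hvs]
  unfold Pool.Col46.code vl
  congr 1
  apply List.ext_getElem
  · simp
  · intro i h1 h2
    have hi : i < n := by simpa using h1
    simp only [List.getElem_map, List.getElem_range, List.getElem_ofFn]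
    rw [Perm.mul_apply, Perm.mul_apply, hγ.h1]
    have h3 := hγ.h2 ⟨i, hi⟩
    simp only at h3
    rw [← h3, dg_of_code hn hx]

lemma nthR_spec {α : Type} (l : List α) (i : ℕ) (k : α → Bool) (h : nthR l i k = true) :
    ∃ a, l[i]? = some a ∧ k a = true := by
  induction l generalizing i with
  | nil =>
    have h' : false = true := h
    exact absurd h' (by decide)
  | cons a l ih =>
    have h' : cond (Nat.beq i 0) (k a) (nthR l (Nat.sub i 1) k) = true := h
    cases i with
    | zero => exact ⟨a, by simp, h'⟩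
    | succ i =>
      have e : Nat.beq (i + 1) 0 = false := rfl
      rw [e, cond_false] at h'
      have e2 : Nat.sub (i + 1) 1 = i := rfl
      rw [e2] at h'
      obtain ⟨b, hb, hk⟩ := ih i h'
      exact ⟨b, by simpa using hb, hk⟩

lemma incR_spec (N : ℕ) (l : List ℕ) (p : ℕ) (h : incR N l p = true) :
    (∀ u ∈ l, p < u % N) ∧ (l.map (· % N)).Nodup := by
  induction l generalizing p with
  | nil => exact ⟨fun u hu => by simp at hu, by simp⟩
  | cons u l ih =>
    have h' : cond (Nat.ble (p + 1) (u % N)) (incR N l (u % N)) false = true := h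
    cases c : Nat.ble (p + 1) (u % N) with
    | false => rw [c, cond_false] at h'; exact absurd h' (by decide)
    | true =>
      rw [c, cond_true] at h'
      have hp := Nat.le_of_ble_eq_true c
      obtain ⟨h1, h2⟩ := ih _ h'
      constructor
      · intro v hv
        rcases List.mem_cons.1 hv with rfl | hv
        · omega
        · have := h1 v hv; omega
      · rw [List.map_cons, List.nodup_cons]
        refine ⟨?_, h2⟩
        intro hmem
        rw [List.mem_map] at hmem
        obtain ⟨v, hv, hve⟩ := hmem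
        have := h1 v hv
        omega

lemma cntR_eq (N l : ℕ) (es : List ℕ) :
    cntR N l es = (es.filter fun e => Nat.beq (e / N % 4096) l).length := by
  induction es with
  | nil => rfl
  | cons e es ih =>
    have h : cntR N l (e :: es) = cond (Nat.beq (e / N % 4096) l) (cntR N l es + 1) (cntR N l es) :=
      rfl
    rw [h, List.filter_cons]
    cases Nat.beq (e / N % 4096) l with
    | false => rw [cond_false, ih]; simp
    | true => rw [cond_true, ih]; simp

lemma covR_eq (N l : ℕ) (sets : List (ℕ × List ℕ)) :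
    covR N l sets = ∑ j : Fin sets.length, (sets.get j).1 * cntR N l (sets.get j).2 := by
  induction sets with
  | nil => rfl
  | cons s sets ih =>
    have h : covR N l (s :: sets) = s.1 * cntR N l s.2 + covR N l sets := rfl
    rw [h, ih]
    show _ = ∑ j : Fin (sets.length + 1), _
    rw [Fin.sum_univ_succ]
    rfl

lemma fxR_eq (hn : n ≤ 16) {m c : ℕ} {vs : List ℕ} (hvs : vs = List.range n) {r : Perm (Fin n)}
    (hr : Pool.Col46.code r = c % 16 ^ n) :
    fxR m c vs = (Finset.univ.filter fun i : Fin n => m ≤ (i : ℕ) ∧ r i = i).card := by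
  have h1 : ∀ l : List ℕ, fxR m c l = (l.filter fun i => decide (m ≤ i ∧ dg c i = i)).length := by
    intro l
    induction l with
    | nil => rfl
    | cons i l ih =>
      have h : fxR m c (i :: l) = cond (Nat.ble m i) (cond (Nat.beq (dg c i) i) (fxR m c l + 1)
        (fxR m c l)) (fxR m c l) := rfl
      rw [h, List.filter_cons, ih]
      by_cases h1 : m ≤ i
      · rw [Nat.ble_eq_true_of_le h1, cond_true]
        by_cases h2 : dg c i = i
        · rw [beq_true h2, cond_true]
          simp [h1, h2]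
        · rw [beq_false h2, cond_false]
          simp [h2]
      · rw [ble_false (by omega), cond_false]
        simp [h1]
  rw [h1, hvs]
  rw [← List.toFinset_card_of_nodup ((List.nodup_range).filter _)]
  symm
  apply Finset.card_bij (fun (i : Fin n) _ => (i : ℕ))
  · intro i hi
    simp only [Finset.mem_filter, Finset.mem_univ, true_and] at hi
    rw [List.mem_toFinset, List.mem_filter, List.mem_range]
    refine ⟨i.2, ?_⟩
    rw [decide_eq_true_eq, dg_of_code hn hr, hi.2]
    exact ⟨hi.1, rfl⟩
  · intro i _ j _ h; exact Fin.ext h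
  · intro j hj
    rw [List.mem_toFinset, List.mem_filter, List.mem_range, decide_eq_true_eq] at hj
    refine ⟨⟨j, hj.1⟩, ?_, rfl⟩
    simp only [Finset.mem_filter, Finset.mem_univ, true_and]
    refine ⟨hj.2.1, Fin.ext ?_⟩
    rw [← dg_of_code hn hr]
    exact hj.2.2

/-! ### stabilisers -/

lemma cond_and {p q : Bool} (h : cond p q false = true) : p = true ∧ q = true := by
  cases p
  · rw [cond_false] at h; exact absurd h (by decide)
  · rw [cond_true] at h; exact ⟨rfl, h⟩

lemma code_inj (hn : n ≤ 16) {σ τ : Perm (Fin n)} (h : Pool.Col46.code σ = Pool.Col46.code τ) :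
    σ = τ := by
  have : ag σ τ = n := by rw [← agr_code hn, h, agr_code hn, ag_self]
  exact ag_eq_n _ _ this.ge

theorem stab_ge (hn : n ≤ 16) {m R c : ℕ} {vs : List ℕ} (hvs : vs = List.range n)
    {ρ r : Perm (Fin n)} (hR : Pool.Col46.code ρ = R % 16 ^ n)
    (hρ : ∀ i : Fin n, m ≤ (i : ℕ) → ρ i = i) (hr : Pool.Col46.code r = c % 16 ^ n) (U : List ℕ)
    (h1 : allR (chkU n m (16 ^ n) R vs c) U = true) (h2 : incR (16 ^ n) U 0 = true) :
    U.length * Nat.factorial (fxR m c vs) ≤ fib ρ r r := by
  classical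
  rw [fxR_eq hn hvs hr]
  set Z := Finset.univ.filter fun i : Fin n => m ≤ (i : ℕ) ∧ r i = i with hZ
  have hmemZ : ∀ i, i ∈ Z ↔ m ≤ (i : ℕ) ∧ r i = i := by
    intro i; rw [hZ]; simp
  have hU : ∀ u ∈ U, ∃ γ : Perm (Fin n), Pool.Col46.code γ = u % 16 ^ n ∧ γ * ρ = ρ * γ ∧
      γ * r = r * γ ∧ ∀ i ∈ Z, γ i = i := by
    intro u hu
    have h3 := allR_spec _ _ h1 u hu
    unfold chkU at h3
    obtain ⟨h4, h3⟩ := cond_and h3
    obtain ⟨h5, h3⟩ := cond_and h3
    obtain ⟨h6, h3⟩ := cond_and h3
    obtain ⟨γ, hγ⟩ := okP_spec hvs h4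
    refine ⟨γ, hγ.code hn, cmR_spec hvs hn hγ hR h5, cmR_spec hvs hn hγ hr h6, ?_⟩
    intro i hi
    rw [hmemZ] at hi
    have h7 := allR_spec _ _ h3 (i : ℕ) (by rw [hvs]; exact List.mem_range.2 i.2)
    rw [Nat.ble_eq_true_of_le hi.1, cond_true, dg_of_code hn hr, hi.2, beq_true rfl,
      cond_true] at h7
    apply Fin.ext
    rw [hγ.h1]
    exact Nat.eq_of_beq_eq_true h7
  choose! γ hγc hγρ hγr hγZ using hU
  have hnd := (incR_spec _ _ _ h2).2
  let f : Fin U.length × Perm {x // x ∈ Z} → Perm (Fin n) := fun p =>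
    γ (U.get p.1) * Perm.ofSubtype p.2
  have hdρ : ∀ h : Perm {x // x ∈ Z}, Commute (Perm.ofSubtype h) ρ := by
    intro h
    apply Perm.Disjoint.commute
    intro x
    by_cases hx : x ∈ Z
    · exact Or.inr (hρ x ((hmemZ x).1 hx).1)
    · exact Or.inl (Perm.ofSubtype_apply_of_not_mem h hx)
  have hdr : ∀ h : Perm {x // x ∈ Z}, Commute (Perm.ofSubtype h) r := by
    intro h
    apply Perm.Disjoint.commute
    intro x
    by_cases hx : x ∈ Z
    · exact Or.inr ((hmemZ x).1 hx).2
    · exact Or.inl (Perm.ofSubtype_apply_of_not_mem h hx)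
  have hfi : Function.Injective f := by
    intro p q hpq
    have hpq' : γ (U.get p.1) * Perm.ofSubtype p.2 = γ (U.get q.1) * Perm.ofSubtype q.2 := hpq
    have hg : γ (U.get p.1) = γ (U.get q.1) := by
      ext x
      by_cases hx : x ∈ Z
      · rw [hγZ _ (List.get_mem _ _) x hx, hγZ _ (List.get_mem _ _) x hx]
      · have h3 := congrArg (fun g : Perm (Fin n) => ((g x : Fin n) : ℕ)) hpq'
        simp only [Perm.mul_apply] at h3
        rw [Perm.ofSubtype_apply_of_not_mem _ hx, Perm.ofSubtype_apply_of_not_mem _ hx] at h3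
        exact h3
    have h3 : U.get p.1 % 16 ^ n = U.get q.1 % 16 ^ n := by
      rw [← hγc _ (List.get_mem _ _), ← hγc _ (List.get_mem _ _), hg]
    have h4 : p.1 = q.1 := by
      have h5 := List.nodup_iff_injective_get.1 hnd
      have h6 : (U.map (· % 16 ^ n)).get ⟨p.1, by simp⟩ =
          (U.map (· % 16 ^ n)).get ⟨q.1, by simp⟩ := by
        simp only [List.get_eq_getElem, List.getElem_map]
        exact h3
      have h7 := h5 h6
      exact Fin.ext (by simpa using congrArg Fin.val h7)
    rw [hg] at hpq'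
    have h8 := Perm.ofSubtype_injective (mul_left_cancel hpq')
    exact Prod.ext h4 h8
  have hmaps : ∀ p, f p ∈ (Cen ρ).filter (fun g => g * r * g⁻¹ = r) := by
    intro p
    have hu := List.get_mem U p.1
    rw [Finset.mem_filter]
    constructor
    · apply mul_mem_Cen
      · rw [mem_Cen]; exact hγρ _ hu
      · rw [mem_Cen]; exact hdρ p.2
    · show γ (U.get p.1) * Perm.ofSubtype p.2 * r * (γ (U.get p.1) * Perm.ofSubtype p.2)⁻¹ = r
      rw [mul_assoc (γ (U.get p.1)), (hdr p.2).eq, ← mul_assoc, hγr _ hu]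
      group
  unfold fib
  calc U.length * Nat.factorial Z.card = Fintype.card (Fin U.length × Perm {x // x ∈ Z}) := by
        rw [Fintype.card_prod, Fintype.card_fin, Fintype.card_perm, Fintype.card_coe]
    _ = (Finset.univ.image f).card := by
        rw [Finset.card_image_of_injective _ hfi, Finset.card_univ]
    _ ≤ _ := by
        apply Finset.card_le_card
        intro g hg
        rw [Finset.mem_image] at hg
        obtain ⟨p, -, rfl⟩ := hg
        exact hmaps p

end Pool.Col46
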