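import Pool.Agent.Work.MP_46fa68_17.Orb3

/-!
# MP_46fa68_co: bound and uniqueness from an orbit certificate

helper17
-/

set_option autoImplicit false

namespace Pool.Col46

open Equiv

variable {n : ℕ}

/-- pairwise at distance more than `m`, by the recursor -/
noncomputable def pwR (msk m : ℕ) (l : List ℕ) : Bool :=
  List.rec (motive := fun _ => Bool) true
    (fun x xs ih => cond (allR (fun y => Nat.ble (m + 1) (dis msk x y)) xs) ih false) l

lemma pwR_spec (msk m : ℕ) (l : List ℕ) (h : pwR msk m l = true) :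
    l.Pairwise (fun x y => m < dis msk x y) := by
  induction l with
  | nil => exact List.Pairwise.nil
  | cons x xs ih =>
    have h' : cond (allR (fun y => Nat.ble (m + 1) (dis msk x y)) xs) (pwR msk m xs) false = true :=
      h
    obtain ⟨h1, h2⟩ := cond_and h'
    rw [List.pairwise_cons]
    exact ⟨fun y hy => Nat.le_of_ble_eq_true (allR_spec _ _ h1 y hy), ih h2⟩

/-- total weight -/
noncomputable def wtR (sets : List (ℕ × List ℕ)) : ℕ :=
  List.rec (motive := fun _ => ℕ) 0 (fun s _ ih => Nat.add s.1 ih) sets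

lemma wtR_eq (sets : List (ℕ × List ℕ)) : wtR sets = ∑ j : Fin sets.length, (sets.get j).1 := by
  induction sets with
  | nil => rfl
  | cons s sets ih =>
    have h : wtR (s :: sets) = s.1 + wtR sets := rfl
    rw [h, ih]
    show _ = ∑ j : Fin (sets.length + 1), _
    rw [Fin.sum_univ_succ]
    rfl

/-- the orbit certificate: `sets` are codes with weights, `reps` the orbit representatives with
their stabilisers, `lf` the canonical members of the common neighbourhood -/
structure OC (n m msk N R D B CC : ℕ) (ρ : Perm (Fin n)) (vs : List ℕ) (sets : List (ℕ × List ℕ))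
    (reps : List (ℕ × List ℕ)) (lf : List ℕ) : Prop where
  le : n ≤ 14
  hm : m ≤ n
  hmsk : mask n = msk
  hN : 16 ^ n = N
  hvs : vs = List.range n
  hR : code ρ = R
  hρ : ∀ i : Fin n, ρ i = i ↔ m ≤ (i : ℕ)
  hD : 0 < D
  hCC : (Cen ρ).card ≤ CC
  wt : wtR sets = D * B
  hsets : allR (fun s => cond (pwR msk m s.2) (allR (chkX n N R vs reps) s.2) false) sets = true
  hreps : chkReps n m N R (D * CC) vs sets reps 0 = true
  hlf : allR (chkX n N R vs reps) lf = true
  hgo : go3 (n - m) m msk vs ((vl (1 : Perm (Fin n))).zip (vl ρ)) msk 0 0 0 1 lf = true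

lemma chkReps_spec {m N R DC : ℕ} {vs : List ℕ} {sets reps : List (ℕ × List ℕ)} (l : ℕ)
    (h : chkReps n m N R DC vs sets reps l = true) (i : ℕ) (r : ℕ × List ℕ)
    (hr : reps[i]? = some r) : chkRep n m N R DC vs sets (l + i) r = true := by
  induction reps generalizing l i with
  | nil => simp at hr
  | cons a reps ih =>
    have h' : cond (chkRep n m N R DC vs sets l a) (chkReps n m N R DC vs sets reps (l + 1)) false
      = true := h
    obtain ⟨h1, h2⟩ := cond_and h'
    cases i with
    | zero =>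
      have : a = r := by simpa using hr
      rw [← this]; exact h1
    | succ i =>
      have h3 := ih (l + 1) h2 i (by simpa using hr)
      rw [show l + (i + 1) = l + 1 + i by omega]
      exact h3

lemma mask_bit (k x : ℕ) (hx : x < k) : (mask k).testBit (4 * x) = true := by
  induction k generalizing x with
  | zero => omega
  | succ k ih =>
    have e : mask (k + 1) = 16 * mask k + 1 := rfl
    rw [Nat.testBit_eq_decide_div_mod_eq, decide_eq_true_eq]
    cases x with
    | zero => rw [e]; simp; omega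
    | succ x =>
      have h1 := ih x (by omega)
      rw [Nat.testBit_eq_decide_div_mod_eq, decide_eq_true_eq] at h1
      have e2 : 2 ^ (4 * (x + 1)) = 16 * 2 ^ (4 * x) := by
        rw [show 4 * (x + 1) = 4 * x + 4 by ring, pow_add]; ring
      rw [e2, ← Nat.div_div_eq_div_mul]
      have e3 : mask (k + 1) / 16 = mask k := by rw [e]; omega
      rw [e3, h1]

section

variable {m msk N R D B CC : ℕ} {ρ : Perm (Fin n)} {vs : List ℕ} {sets : List (ℕ × List ℕ)}
  {reps : List (ℕ × List ℕ)} {lf : List ℕ}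

/-- in the orbit of a representative -/
def InOrb (n : ℕ) (ρ : Perm (Fin n)) (reps : List (ℕ × List ℕ)) (l : ℕ) (a : Perm (Fin n)) :
    Prop :=
  ∃ c, reps[l]? = some c ∧ ∃ r : Perm (Fin n), code r = c.1 % 16 ^ n ∧
    ∃ γ ∈ Cen ρ, a = γ * r * γ⁻¹

lemma OC.chkX_spec (C : OC n m msk N R D B CC ρ vs sets reps lf) {e : ℕ}
    (h : chkX n N R vs reps e = true) :
    ∃ a : Perm (Fin n), code a = e % 16 ^ n ∧ InOrb n ρ reps (e / N % 4096) a := by
  have hn : n ≤ 16 := le_trans C.le (by norm_num)
  obtain ⟨c, hc, h⟩ := nthR_spec _ _ _ h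
  obtain ⟨h1, h⟩ := cond_and h
  obtain ⟨h2, h3⟩ := cond_and h
  obtain ⟨γ, hγ⟩ := okP_spec C.hvs h1
  have h4 := chkReps_spec 0 C.hreps _ c hc
  unfold chkRep at h4
  obtain ⟨h5, -⟩ := cond_and h4
  obtain ⟨r, hr⟩ := okP_spec C.hvs h5
  have hR : code ρ = R % 16 ^ n := by
    rw [C.hR, Nat.mod_eq_of_lt]
    rw [← C.hR]; exact code_lt hn ρ
  have h6 := cmR_spec C.hvs hn hγ hR h2
  have h7 := Nat.eq_of_beq_eq_true h3
  rw [cjR_spec C.hvs hn hγ (hr.code hn)] at h7
  refine ⟨γ * r * γ⁻¹, by rw [h7, C.hN], c, hc, r, hr.code hn, γ, ?_, rfl⟩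
  rw [mem_Cen]; exact h6

/-- the members of a code -/
def Iset (n : ℕ) (es : List ℕ) : Finset (Perm (Fin n)) :=
  Finset.univ.filter (fun x => code x ∈ es.map (· % 16 ^ n))

lemma mem_Iset (es : List ℕ) (x : Perm (Fin n)) :
    x ∈ Iset n es ↔ ∃ e ∈ es, e % 16 ^ n = code x := by
  unfold Iset
  rw [Finset.mem_filter, List.mem_map]
  exact ⟨fun h => h.2, fun h => ⟨Finset.mem_univ _, h⟩⟩

lemma dis_eq_zero (hn : n ≤ 14) (x y : ℕ) (h : x % 16 ^ n = y % 16 ^ n) :
    dis (mask n) x y = 0 := by
  have h1 := dis_agr n x y hn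
  have h2 : agr n x y = n := by
    rw [← agr_mod, h, agr_mod]
    have : ∀ (k z : ℕ), agr k z z = k := by
      intro k
      induction k with
      | zero => intro z; rfl
      | succ k ih =>
        intro z
        unfold agr
        rw [Nat.beq_refl, cond_true, ih]
    exact this n y
  omega

lemma OC.nodup (C : OC n m msk N R D B CC ρ vs sets reps lf) (s : ℕ × List ℕ) (hs : s ∈ sets) :
    (s.2.map (· % 16 ^ n)).Nodup ∧ s.2.Pairwise (fun x y => m < dis msk x y) ∧
      ∀ e ∈ s.2, chkX n N R vs reps e = true := by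
  have h1 := allR_spec _ _ C.hsets s hs
  obtain ⟨h2, h3⟩ := cond_and h1
  have h4 := pwR_spec _ _ _ h2
  refine ⟨?_, h4, allR_spec _ _ h3⟩
  rw [List.Nodup, List.pairwise_map]
  refine h4.imp ?_
  intro x y hxy h
  rw [← C.hmsk, dis_eq_zero C.le x y h] at hxy
  omega

lemma OC.indep (C : OC n m msk N R D B CC ρ vs sets reps lf) (s : ℕ × List ℕ) (hs : s ∈ sets)
    (x y : Perm (Fin n)) (hx : x ∈ Iset n s.2) (hy : y ∈ Iset n s.2) (hne : x ≠ y) :
    ag x y < n - m := by
  have hn : n ≤ 16 := le_trans C.le (by norm_num)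
  obtain ⟨e, he, hex⟩ := (mem_Iset _ _).1 hx
  obtain ⟨f, hf, hfy⟩ := (mem_Iset _ _).1 hy
  have hne' : e ≠ f := by
    intro h
    apply hne
    apply code_inj hn
    rw [← hex, ← hfy, h]
  have hp := (C.nodup s hs).2.1
  have hsym : ∀ a b, m < dis msk a b → m < dis msk b a := by
    intro a b h
    rw [← C.hmsk, dis_symm]
    rw [← C.hmsk] at h
    exact h
  have h1 : m < dis msk e f := by
    have h2 := List.pairwise_iff_getElem.1 hp
    obtain ⟨i, hi, rfl⟩ := List.mem_iff_getElem.1 he
    obtain ⟨j, hj, rfl⟩ := List.mem_iff_getElem.1 hf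
    rcases lt_trichotomy i j with h | h | h
    · exact h2 i j hi hj h
    · subst h; exact absurd rfl hne'
    · exact hsym _ _ (h2 j i hj hi h)
  have h3 := dis_agr n e f C.le
  rw [C.hmsk, ← agr_mod, ← agr_mod', hex, hfy, agr_code hn] at h3
  have := C.hm
  omega

/-- the count in one code -/
lemma OC.hits_ge (C : OC n m msk N R D B CC ρ vs sets reps lf) (s : ℕ × List ℕ) (hs : s ∈ sets)
    (l : ℕ) (c : ℕ × List ℕ) (hc : reps[l]? = some c) (r : Perm (Fin n))
    (hr : code r = c.1 % 16 ^ n) : cntR N l s.2 * fib ρ r r ≤ hits ρ r (Iset n s.2) := by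
  have hn : n ≤ 16 := le_trans C.le (by norm_num)
  rw [hits_eq, cntR_eq]
  set L := s.2.filter fun e => Nat.beq (e / N % 4096) l with hL
  have hsub : L.Sublist s.2 := List.filter_sublist
  have hnd : (L.map (· % 16 ^ n)).Nodup := (C.nodup s hs).1.sublist (hsub.map _)
  have hx : ∀ e ∈ L, ∃ a : Perm (Fin n), code a = e % 16 ^ n ∧ fib ρ r a = fib ρ r r := by
    intro e he
    rw [hL, List.mem_filter] at he
    obtain ⟨a, ha, c', hc', r', hr', γ, hγ, hae⟩ := C.chkX_spec ((C.nodup s hs).2.2 e he.1)
    rw [Nat.eq_of_beq_eq_true he.2, hc] at hc'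
    have h1 : c = c' := by simpa using hc'
    have h2 : r' = r := code_inj hn (by rw [hr, hr', h1])
    refine ⟨a, ha, ?_⟩
    rw [hae, h2]
    exact fib_conj ρ r γ hγ
  choose! f hf1 hf2 using hx
  have hcard : L.length = (L.toFinset.image f).card := by
    rw [Finset.card_image_of_injOn]
    · rw [List.toFinset_card_of_nodup]
      exact hnd.of_map _
    · intro a ha b hb hab
      have ha' : a ∈ L := by simpa using ha
      have hb' : b ∈ L := by simpa using hb
      have h1 : a % 16 ^ n = b % 16 ^ n := by rw [← hf1 a ha', ← hf1 b hb', hab]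
      exact List.inj_on_of_nodup_map hnd ha' hb' h1
  calc L.length * fib ρ r r = ∑ x ∈ L.toFinset.image f, fib ρ r x := by
        rw [hcard, ← smul_eq_mul, ← Finset.sum_const]
        refine Finset.sum_congr rfl fun x hx => ?_
        rw [Finset.mem_image] at hx
        obtain ⟨e, he, rfl⟩ := hx
        exact (hf2 e (by simpa using he)).symm
    _ ≤ ∑ x ∈ Iset n s.2, fib ρ r x := by
        apply Finset.sum_le_sum_of_subset
        intro x hx
        rw [Finset.mem_image] at hx
        obtain ⟨e, he, rfl⟩ := hx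
        have he' : e ∈ L := by simpa using he
        rw [mem_Iset]
        exact ⟨e, hsub.subset he', (hf1 e he').symm⟩

/-- the result of a table -/
theorem OC.tab (C : OC n m msk N R D B CC ρ vs sets reps lf) : Tab n m B ρ := by
  have hn : n ≤ 16 := le_trans C.le (by norm_num)
  have hρ1 : ∀ i : Fin n, m ≤ (i : ℕ) → ρ i = i := fun i h => (C.hρ i).2 h
  have hR : code ρ = R % 16 ^ n := by
    rw [C.hR, Nat.mod_eq_of_lt]
    rw [← C.hR]; exact code_lt hn ρ
  intro A F
  apply avg ρ (n - m) D B sets.length C.hD (fun j => Iset n (sets.get j).2)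
    (fun j => (sets.get j).1) (fun j x hx y hy hne => C.indep _ (List.get_mem _ _) x y hx hy hne)
    (by rw [← wtR_eq]; exact C.wt) ?_ A F
  intro a ha1 ha2
  -- every member is in an orbit
  have hP : ∃ l, InOrb n ρ reps l a := by
    refine go3_spec (t := n - m) (m := m) C.le ρ hρ1 (fun a => ∃ l, InOrb n ρ reps l a) ?_ vs
      (fun v hv => by rw [C.hvs]; exact List.mem_range.2 hv) n 0 (by omega) msk 0 0 0 lf ?_ ?_ a
      ha1 ha2 ?_
    · rintro τ x y hx hy ⟨l, c, hc, r, hr, γ, hγ, h⟩
      have hs : swap x y ∈ Cen ρ := by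
        rw [mem_Cen]
        ext j
        rw [Perm.mul_apply, Perm.mul_apply]
        by_cases hj1 : j = x
        · rw [hj1, swap_apply_left, hρ1 y hy, hρ1 x hx, swap_apply_left]
        · by_cases hj2 : j = y
          · rw [hj2, swap_apply_right, hρ1 x hx, hρ1 y hy, swap_apply_right]
          · rw [swap_apply_of_ne_of_ne hj1 hj2]
            have n1 : ρ j ≠ x := by
              intro hh
              have : ρ j = ρ x := by rw [hh, hρ1 x hx]
              exact hj1 (ρ.injective this)
            have n2 : ρ j ≠ y := by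
              intro hh
              have : ρ j = ρ y := by rw [hh, hρ1 y hy]
              exact hj2 (ρ.injective this)
            rw [swap_apply_of_ne_of_ne n1 n2]
      refine ⟨l, c, hc, r, hr, swap x y * γ, mul_mem_Cen hs hγ, ?_⟩
      have e : τ = swap x y * (swap x y * τ * swap x y) * (swap x y)⁻¹ := by
        rw [swap_inv, mul_assoc, mul_assoc, mul_assoc, swap_mul_self, mul_one, ← mul_assoc,
          swap_mul_self, one_mul]
      rw [e, h]
      group
    · rw [List.drop_zero, pow_zero, C.hmsk]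
      exact C.hgo
    · intro c hc τ hcode
      obtain ⟨a', ha', h⟩ := C.chkX_spec (allR_spec _ _ C.hlf c hc)
      have : a' = τ := code_inj hn (by rw [ha', hcode])
      rw [← this]
      exact ⟨_, h⟩
    · refine ⟨?_, ?_, ?_, ?_, ?_⟩
      · intro x _
        rw [← C.hmsk]
        exact mask_bit n x x.2
      · simp
      · simp
      · intro _ j hj; omega
      · intro c _
        simp [Nat.mod_one]
  obtain ⟨l, c, hc, r, hr, γ, hγ, hae⟩ := hP
  have hchk := chkReps_spec 0 C.hreps _ c hc
  rw [Nat.zero_add] at hchk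
  unfold chkRep at hchk
  obtain ⟨_, hchk⟩ := cond_and hchk
  obtain ⟨h1, hchk⟩ := cond_and hchk
  obtain ⟨h2, hchk⟩ := cond_and hchk
  have hcov := Nat.le_of_ble_eq_true hchk
  rw [← C.hN] at h1 h2
  have hstab := stab_ge hn C.hvs hR hρ1 hr c.2 h1 h2
  have hlow : covR N l sets * (c.2.length * Nat.factorial (fxR m c.1 vs)) ≤
      ∑ j : Fin sets.length, (sets.get j).1 * hits ρ a (Iset n (sets.get j).2) := by
    rw [covR_eq, Finset.sum_mul]
    refine Finset.sum_le_sum fun j _ => ?_
    rw [hae, hits_conj ρ γ r hγ, mul_assoc]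
    apply Nat.mul_le_mul_left
    calc cntR N l (sets.get j).2 * (c.2.length * Nat.factorial (fxR m c.1 vs))
        ≤ cntR N l (sets.get j).2 * fib ρ r r := Nat.mul_le_mul_left _ hstab
      _ ≤ _ := C.hits_ge _ (List.get_mem _ _) l c hc r hr
  have hDC : D * (Cen ρ).card ≤ D * CC := Nat.mul_le_mul_left _ C.hCC
  constructor
  · omega
  · intro hns
    have hst : stR m c.1 vs = false := by
      rw [Bool.eq_false_iff]
      intro hst
      apply hns
      intro i hi
      have hfix : ∀ j : Fin n, m ≤ (j : ℕ) → r j = j := by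
        intro j hj
        have h3 := allR_spec _ _ hst (j : ℕ) (by rw [C.hvs]; exact List.mem_range.2 j.2)
        rw [Nat.ble_eq_true_of_le hj, cond_true, dg_of_code hn hr] at h3
        exact Fin.ext (Nat.eq_of_beq_eq_true h3)
      have hi2 : ρ (γ⁻¹ i) = γ⁻¹ i := by
        have h4 := inv_mem_Cen hγ
        rw [mem_Cen] at h4
        have h5 := congrArg (fun g : Perm (Fin n) => g i) h4
        simp only [Perm.mul_apply] at h5
        rw [← h5, hi]
      have h6 := hfix (γ⁻¹ i) ((C.hρ _).1 hi2)
      rw [hae, Perm.mul_apply, Perm.mul_apply, h6]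
      simp
    rw [hst, cond_false] at hcov
    omega

end

end Pool.Col46
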