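import Pool.Agent.Work.MP_46fa68_17.P13aA

/-!
# MP_46fa68_co: orbit certificate P13a, coverage
-/

set_option autoImplicit false

namespace Pool.Col46.P13a

theorem rg24_ok : chkAq 7 4503599627370496 8191 3582863604007713 5040000 vs sets rg24 24 = true := by
  decide +kernel

theorem rg25_ok : chkAq 7 4503599627370496 8191 3582863604007713 5040000 vs sets rg25 25 = true := by
  decide +kernel

theorem rg26_ok : chkAq 7 4503599627370496 8191 3582863604007713 5040000 vs sets rg26 26 = true := by
  decide +kernel

theorem rg27_ok : chkAq 7 4503599627370496 8191 3582863604007713 5040000 vs sets rg27 27 = true := by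
  decide +kernel

theorem rg28_ok : chkAq 7 4503599627370496 8191 3582863604007713 5040000 vs sets rg28 28 = true := by
  decide +kernel

theorem rg29_ok : chkAq 7 4503599627370496 8191 3582863604007713 5040000 vs sets rg29 29 = true := by
  decide +kernel

theorem rg30_ok : chkAq 7 4503599627370496 8191 3582863604007713 5040000 vs sets rg30 30 = true := by
  decide +kernel

theorem rg31_ok : chkAq 7 4503599627370496 8191 3582863604007713 5040000 vs sets rg31 31 = true := by
  decide +kernel

theorem rg32_ok : chkAq 7 4503599627370496 8191 3582863604007713 5040000 vs sets rg32 32 = true := by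
  decide +kernel

theorem rg33_ok : chkAq 7 4503599627370496 8191 3582863604007713 5040000 vs sets rg33 33 = true := by
  decide +kernel

theorem rg34_ok : chkAq 7 4503599627370496 8191 3582863604007713 5040000 vs sets rg34 34 = true := by
  decide +kernel

theorem rg35_ok : chkAq 7 4503599627370496 8191 3582863604007713 5040000 vs sets rg35 35 = true := by
  decide +kernel

end Pool.Col46.P13a
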