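import Pool.Agent.Work.MP_46fa68_17.P13aA

/-!
# MP_46fa68_co: orbit certificate P13a, coverage
-/

set_option autoImplicit false

namespace Pool.Col46.P13a

theorem rg36_ok : chkAq 7 4503599627370496 8191 3582863604007713 5040000 vs sets rg36 36 = true := by
  decide +kernel

theorem rg37_ok : chkAq 7 4503599627370496 8191 3582863604007713 5040000 vs sets rg37 37 = true := by
  decide +kernel

theorem rg38_ok : chkAq 7 4503599627370496 8191 3582863604007713 5040000 vs sets rg38 38 = true := by
  decide +kernel

theorem rg39_ok : chkAq 7 4503599627370496 8191 3582863604007713 5040000 vs sets rg39 39 = true := by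
  decide +kernel

theorem rg40_ok : chkAq 7 4503599627370496 8191 3582863604007713 5040000 vs sets rg40 40 = true := by
  decide +kernel

theorem rg41_ok : chkAq 7 4503599627370496 8191 3582863604007713 5040000 vs sets rg41 41 = true := by
  decide +kernel

end Pool.Col46.P13a
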