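import Pool.Agent.Work.MP_46fa68_17.P13aA

/-!
# MP_46fa68_co: orbit certificate P13a, search
-/

set_option autoImplicit false

namespace Pool.Col46.P13a

theorem go2_ok : allR (rt7 6 7 (0, 1) prs vs 300239975158033 lf) [nat_lit 2] = true := by
  decide +kernel

end Pool.Col46.P13a
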