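import Pool.Agent.Work.MP_46fa68_17.P13bA

/-!
# MP_46fa68_co: orbit certificate P13b, coverage
-/

set_option autoImplicit false

namespace Pool.Col46.P13b

theorem rg12_ok : chkAq 7 4503599627370496 8191 3582863637562113 7200000 vs sets rg12 12 = true := by
  decide +kernel

theorem rg13_ok : chkAq 7 4503599627370496 8191 3582863637562113 7200000 vs sets rg13 13 = true := by
  decide +kernel

theorem rg14_ok : chkAq 7 4503599627370496 8191 3582863637562113 7200000 vs sets rg14 14 = true := by
  decide +kernel

theorem rg15_ok : chkAq 7 4503599627370496 8191 3582863637562113 7200000 vs sets rg15 15 = true := by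
  decide +kernel

theorem rg16_ok : chkAq 7 4503599627370496 8191 3582863637562113 7200000 vs sets rg16 16 = true := by
  decide +kernel

theorem rg17_ok : chkAq 7 4503599627370496 8191 3582863637562113 7200000 vs sets rg17 17 = true := by
  decide +kernel

theorem rg18_ok : chkAq 7 4503599627370496 8191 3582863637562113 7200000 vs sets rg18 18 = true := by
  decide +kernel

theorem rg19_ok : chkAq 7 4503599627370496 8191 3582863637562113 7200000 vs sets rg19 19 = true := by
  decide +kernel

theorem rg20_ok : chkAq 7 4503599627370496 8191 3582863637562113 7200000 vs sets rg20 20 = true := by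
  decide +kernel

theorem rg21_ok : chkAq 7 4503599627370496 8191 3582863637562113 7200000 vs sets rg21 21 = true := by
  decide +kernel

theorem rg22_ok : chkAq 7 4503599627370496 8191 3582863637562113 7200000 vs sets rg22 22 = true := by
  decide +kernel

theorem rg23_ok : chkAq 7 4503599627370496 8191 3582863637562113 7200000 vs sets rg23 23 = true := by
  decide +kernel

end Pool.Col46.P13b
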