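import Pool.Agent.Work.MP_46fa68_17.P13cA

/-!
# MP_46fa68_co: orbit certificate P13c, coverage
-/

set_option autoImplicit false

namespace Pool.Col46.P13c

theorem rg24_ok : chkAq 7 4503599627370496 8191 3582863654338593 8640000 vs sets rg24 24 = true := by
  decide +kernel

theorem rg25_ok : chkAq 7 4503599627370496 8191 3582863654338593 8640000 vs sets rg25 25 = true := by
  decide +kernel

end Pool.Col46.P13c
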