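import Pool.Agent.Work.MP_46fa68_17.P13cB0
import Pool.Agent.Work.MP_46fa68_17.P13cB1
import Pool.Agent.Work.MP_46fa68_17.P13cB2
import Pool.Agent.Work.MP_46fa68_17.P13cG0
import Pool.Agent.Work.MP_46fa68_17.P13cG1
import Pool.Agent.Work.MP_46fa68_17.P13cG2
import Pool.Agent.Work.MP_46fa68_17.P13cG3
import Pool.Agent.Work.MP_46fa68_17.P13cG4
import Pool.Agent.Work.MP_46fa68_17.P13cG5
import Pool.Agent.Work.MP_46fa68_17.P13cG6
import Pool.Agent.Work.MP_46fa68_17.P13cG7
import Pool.Agent.Work.MP_46fa68_17.P13cG8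

/-!
# MP_46fa68_co: orbit certificate P13c, result
-/

set_option autoImplicit false

namespace Pool.Col46.P13c

theorem sets_all : allR (fun s => cond (pwR 300239975158033 7 s.2)
    (allR (chkXq 4503599627370496 18446744073709551616 8191 3582863654338593 vs reps) s.2) false) sets = true := by
  unfold sets
  refine allR_append _ _ _ sets0_ok ?_
  refine allR_append _ _ _ sets1_ok ?_
  refine allR_append _ _ _ sets2_ok ?_
  refine allR_append _ _ _ sets3_ok ?_
  refine allR_append _ _ _ sets4_ok ?_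
  refine allR_append _ _ _ sets5_ok ?_
  refine allR_append _ _ _ sets6_ok ?_
  refine allR_append _ _ _ sets7_ok ?_
  refine allR_append _ _ _ sets8_ok ?_
  refine allR_append _ _ _ sets9_ok ?_
  refine allR_append _ _ _ sets10_ok ?_
  refine allR_append _ _ _ sets11_ok ?_
  refine allR_append _ _ _ sets12_ok ?_
  refine allR_append _ _ _ sets13_ok ?_
  refine allR_append _ _ _ sets14_ok ?_
  refine allR_append _ _ _ sets15_ok ?_
  refine allR_append _ _ _ sets16_ok ?_
  refine allR_append _ _ _ sets17_ok ?_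
  refine allR_append _ _ _ sets18_ok ?_
  refine allR_append _ _ _ sets19_ok ?_
  refine allR_append _ _ _ sets20_ok ?_
  refine allR_append _ _ _ sets21_ok ?_
  refine allR_append _ _ _ sets22_ok ?_
  refine allR_append _ _ _ sets23_ok ?_
  refine allR_append _ _ _ sets24_ok ?_
  refine allR_append _ _ _ sets25_ok ?_
  refine allR_append _ _ _ sets26_ok ?_
  refine allR_append _ _ _ sets27_ok ?_
  refine allR_append _ _ _ sets28_ok ?_
  refine allR_append _ _ _ sets29_ok ?_
  refine allR_append _ _ _ sets30_ok ?_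
  refine allR_append _ _ _ sets31_ok ?_
  refine allR_append _ _ _ sets32_ok ?_
  refine allR_append _ _ _ sets33_ok ?_
  refine allR_append _ _ _ sets34_ok ?_
  refine allR_append _ _ _ sets35_ok ?_
  refine allR_append _ _ _ sets36_ok ?_
  refine allR_append _ _ _ sets37_ok ?_
  refine allR_append _ _ _ sets38_ok ?_
  refine allR_append _ _ _ sets39_ok ?_
  refine allR_append _ _ _ sets40_ok ?_
  refine allR_append _ _ _ sets41_ok ?_
  refine allR_append _ _ _ sets42_ok ?_
  refine allR_append _ _ _ sets43_ok ?_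
  refine allR_append _ _ _ sets44_ok ?_
  refine allR_append _ _ _ sets45_ok ?_
  refine allR_append _ _ _ sets46_ok ?_
  refine allR_append _ _ _ sets47_ok ?_
  refine allR_append _ _ _ sets48_ok ?_
  refine allR_append _ _ _ sets49_ok ?_
  refine allR_append _ _ _ sets50_ok ?_
  refine allR_append _ _ _ sets51_ok ?_
  refine allR_append _ _ _ sets52_ok ?_
  refine allR_append _ _ _ sets53_ok ?_
  refine allR_append _ _ _ sets54_ok ?_
  refine allR_append _ _ _ sets55_ok ?_
  refine allR_append _ _ _ sets56_ok ?_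
  refine allR_append _ _ _ sets57_ok ?_
  refine allR_append _ _ _ sets58_ok ?_
  refine allR_append _ _ _ sets59_ok ?_
  refine allR_append _ _ _ sets60_ok ?_
  refine allR_append _ _ _ sets61_ok ?_
  refine allR_append _ _ _ sets62_ok ?_
  refine allR_append _ _ _ sets63_ok ?_
  refine allR_append _ _ _ sets64_ok ?_
  refine allR_append _ _ _ sets65_ok ?_
  refine allR_append _ _ _ sets66_ok ?_
  refine allR_append _ _ _ sets67_ok ?_
  refine allR_append _ _ _ sets68_ok ?_
  refine allR_append _ _ _ sets69_ok ?_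
  refine allR_append _ _ _ sets70_ok ?_
  refine allR_append _ _ _ sets71_ok ?_
  refine allR_append _ _ _ sets72_ok ?_
  refine allR_append _ _ _ sets73_ok ?_
  refine allR_append _ _ _ sets74_ok ?_
  refine allR_append _ _ _ sets75_ok ?_
  refine allR_append _ _ _ sets76_ok ?_
  refine allR_append _ _ _ sets77_ok ?_
  refine allR_append _ _ _ sets78_ok ?_
  refine allR_append _ _ _ sets79_ok ?_
  rfl

theorem lf_all : allR (chkXq 4503599627370496 18446744073709551616 8191 3582863654338593 vs reps) lf = true := by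
  unfold lf
  refine allR_append _ _ _ lf0_ok ?_
  refine allR_append _ _ _ lf1_ok ?_
  refine allR_append _ _ _ lf2_ok ?_
  refine allR_append _ _ _ lf3_ok ?_
  refine allR_append _ _ _ lf4_ok ?_
  refine allR_append _ _ _ lf5_ok ?_
  refine allR_append _ _ _ lf6_ok ?_
  refine allR_append _ _ _ lf7_ok ?_
  refine allR_append _ _ _ lf8_ok ?_
  refine allR_append _ _ _ lf9_ok ?_
  refine allR_append _ _ _ lf10_ok ?_
  refine allR_append _ _ _ lf11_ok ?_
  refine allR_append _ _ _ lf12_ok ?_
  refine allR_append _ _ _ lf13_ok ?_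
  refine allR_append _ _ _ lf14_ok ?_
  refine allR_append _ _ _ lf15_ok ?_
  refine allR_append _ _ _ lf16_ok ?_
  refine allR_append _ _ _ lf17_ok ?_
  refine allR_append _ _ _ lf18_ok ?_
  refine allR_append _ _ _ lf19_ok ?_
  refine allR_append _ _ _ lf20_ok ?_
  refine allR_append _ _ _ lf21_ok ?_
  refine allR_append _ _ _ lf22_ok ?_
  refine allR_append _ _ _ lf23_ok ?_
  refine allR_append _ _ _ lf24_ok ?_
  refine allR_append _ _ _ lf25_ok ?_
  refine allR_append _ _ _ lf26_ok ?_
  refine allR_append _ _ _ lf27_ok ?_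
  refine allR_append _ _ _ lf28_ok ?_
  refine allR_append _ _ _ lf29_ok ?_
  refine allR_append _ _ _ lf30_ok ?_
  refine allR_append _ _ _ lf31_ok ?_
  refine allR_append _ _ _ lf32_ok ?_
  refine allR_append _ _ _ lf33_ok ?_
  refine allR_append _ _ _ lf34_ok ?_
  refine allR_append _ _ _ lf35_ok ?_
  refine allR_append _ _ _ lf36_ok ?_
  refine allR_append _ _ _ lf37_ok ?_
  refine allR_append _ _ _ lf38_ok ?_
  refine allR_append _ _ _ lf39_ok ?_
  refine allR_append _ _ _ lf40_ok ?_
  refine allR_append _ _ _ lf41_ok ?_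
  refine allR_append _ _ _ lf42_ok ?_
  refine allR_append _ _ _ lf43_ok ?_
  refine allR_append _ _ _ lf44_ok ?_
  refine allR_append _ _ _ lf45_ok ?_
  refine allR_append _ _ _ lf46_ok ?_
  refine allR_append _ _ _ lf47_ok ?_
  refine allR_append _ _ _ lf48_ok ?_
  refine allR_append _ _ _ lf49_ok ?_
  refine allR_append _ _ _ lf50_ok ?_
  refine allR_append _ _ _ lf51_ok ?_
  refine allR_append _ _ _ lf52_ok ?_
  refine allR_append _ _ _ lf53_ok ?_
  refine allR_append _ _ _ lf54_ok ?_
  refine allR_append _ _ _ lf55_ok ?_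
  refine allR_append _ _ _ lf56_ok ?_
  refine allR_append _ _ _ lf57_ok ?_
  refine allR_append _ _ _ lf58_ok ?_
  refine allR_append _ _ _ lf59_ok ?_
  refine allR_append _ _ _ lf60_ok ?_
  refine allR_append _ _ _ lf61_ok ?_
  refine allR_append _ _ _ lf62_ok ?_
  refine allR_append _ _ _ lf63_ok ?_
  refine allR_append _ _ _ lf64_ok ?_
  refine allR_append _ _ _ lf65_ok ?_
  refine allR_append _ _ _ lf66_ok ?_
  refine allR_append _ _ _ lf67_ok ?_
  refine allR_append _ _ _ lf68_ok ?_
  refine allR_append _ _ _ lf69_ok ?_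
  refine allR_append _ _ _ lf70_ok ?_
  refine allR_append _ _ _ lf71_ok ?_
  refine allR_append _ _ _ lf72_ok ?_
  refine allR_append _ _ _ lf73_ok ?_
  refine allR_append _ _ _ lf74_ok ?_
  refine allR_append _ _ _ lf75_ok ?_
  refine allR_append _ _ _ lf76_ok ?_
  refine allR_append _ _ _ lf77_ok ?_
  refine allR_append _ _ _ lf78_ok ?_
  refine allR_append _ _ _ lf79_ok ?_
  refine allR_append _ _ _ lf80_ok ?_
  refine allR_append _ _ _ lf81_ok ?_
  refine allR_append _ _ _ lf82_ok ?_
  refine allR_append _ _ _ lf83_ok ?_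
  refine allR_append _ _ _ lf84_ok ?_
  refine allR_append _ _ _ lf85_ok ?_
  refine allR_append _ _ _ lf86_ok ?_
  refine allR_append _ _ _ lf87_ok ?_
  refine allR_append _ _ _ lf88_ok ?_
  refine allR_append _ _ _ lf89_ok ?_
  refine allR_append _ _ _ lf90_ok ?_
  refine allR_append _ _ _ lf91_ok ?_
  refine allR_append _ _ _ lf92_ok ?_
  refine allR_append _ _ _ lf93_ok ?_
  refine allR_append _ _ _ lf94_ok ?_
  refine allR_append _ _ _ lf95_ok ?_
  refine allR_append _ _ _ lf96_ok ?_
  refine allR_append _ _ _ lf97_ok ?_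
  refine allR_append _ _ _ lf98_ok ?_
  refine allR_append _ _ _ lf99_ok ?_
  refine allR_append _ _ _ lf100_ok ?_
  refine allR_append _ _ _ lf101_ok ?_
  refine allR_append _ _ _ lf102_ok ?_
  refine allR_append _ _ _ lf103_ok ?_
  refine allR_append _ _ _ lf104_ok ?_
  refine allR_append _ _ _ lf105_ok ?_
  refine allR_append _ _ _ lf106_ok ?_
  refine allR_append _ _ _ lf107_ok ?_
  refine allR_append _ _ _ lf108_ok ?_
  refine allR_append _ _ _ lf109_ok ?_
  refine allR_append _ _ _ lf110_ok ?_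
  refine allR_append _ _ _ lf111_ok ?_
  refine allR_append _ _ _ lf112_ok ?_
  refine allR_append _ _ _ lf113_ok ?_
  refine allR_append _ _ _ lf114_ok ?_
  refine allR_append _ _ _ lf115_ok ?_
  refine allR_append _ _ _ lf116_ok ?_
  refine allR_append _ _ _ lf117_ok ?_
  refine allR_append _ _ _ lf118_ok ?_
  refine allR_append _ _ _ lf119_ok ?_
  refine allR_append _ _ _ lf120_ok ?_
  refine allR_append _ _ _ lf121_ok ?_
  refine allR_append _ _ _ lf122_ok ?_
  refine allR_append _ _ _ lf123_ok ?_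
  refine allR_append _ _ _ lf124_ok ?_
  refine allR_append _ _ _ lf125_ok ?_
  refine allR_append _ _ _ lf126_ok ?_
  refine allR_append _ _ _ lf127_ok ?_
  refine allR_append _ _ _ lf128_ok ?_
  refine allR_append _ _ _ lf129_ok ?_
  refine allR_append _ _ _ lf130_ok ?_
  refine allR_append _ _ _ lf131_ok ?_
  refine allR_append _ _ _ lf132_ok ?_
  refine allR_append _ _ _ lf133_ok ?_
  refine allR_append _ _ _ lf134_ok ?_
  refine allR_append _ _ _ lf135_ok ?_
  refine allR_append _ _ _ lf136_ok ?_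
  refine allR_append _ _ _ lf137_ok ?_
  refine allR_append _ _ _ lf138_ok ?_
  refine allR_append _ _ _ lf139_ok ?_
  refine allR_append _ _ _ lf140_ok ?_
  refine allR_append _ _ _ lf141_ok ?_
  refine allR_append _ _ _ lf142_ok ?_
  refine allR_append _ _ _ lf143_ok ?_
  refine allR_append _ _ _ lf144_ok ?_
  refine allR_append _ _ _ lf145_ok ?_
  refine allR_append _ _ _ lf146_ok ?_
  refine allR_append _ _ _ lf147_ok ?_
  refine allR_append _ _ _ lf148_ok ?_
  refine allR_append _ _ _ lf149_ok ?_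
  refine allR_append _ _ _ lf150_ok ?_
  refine allR_append _ _ _ lf151_ok ?_
  refine allR_append _ _ _ lf152_ok ?_
  refine allR_append _ _ _ lf153_ok ?_
  refine allR_append _ _ _ lf154_ok ?_
  refine allR_append _ _ _ lf155_ok ?_
  refine allR_append _ _ _ lf156_ok ?_
  refine allR_append _ _ _ lf157_ok ?_
  refine allR_append _ _ _ lf158_ok ?_
  refine allR_append _ _ _ lf159_ok ?_
  refine allR_append _ _ _ lf160_ok ?_
  refine allR_append _ _ _ lf161_ok ?_
  refine allR_append _ _ _ lf162_ok ?_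
  refine allR_append _ _ _ lf163_ok ?_
  refine allR_append _ _ _ lf164_ok ?_
  refine allR_append _ _ _ lf165_ok ?_
  refine allR_append _ _ _ lf166_ok ?_
  refine allR_append _ _ _ lf167_ok ?_
  refine allR_append _ _ _ lf168_ok ?_
  refine allR_append _ _ _ lf169_ok ?_
  refine allR_append _ _ _ lf170_ok ?_
  refine allR_append _ _ _ lf171_ok ?_
  refine allR_append _ _ _ lf172_ok ?_
  refine allR_append _ _ _ lf173_ok ?_
  refine allR_append _ _ _ lf174_ok ?_
  refine allR_append _ _ _ lf175_ok ?_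
  refine allR_append _ _ _ lf176_ok ?_
  refine allR_append _ _ _ lf177_ok ?_
  refine allR_append _ _ _ lf178_ok ?_
  refine allR_append _ _ _ lf179_ok ?_
  refine allR_append _ _ _ lf180_ok ?_
  refine allR_append _ _ _ lf181_ok ?_
  refine allR_append _ _ _ lf182_ok ?_
  refine allR_append _ _ _ lf183_ok ?_
  refine allR_append _ _ _ lf184_ok ?_
  refine allR_append _ _ _ lf185_ok ?_
  refine allR_append _ _ _ lf186_ok ?_
  refine allR_append _ _ _ lf187_ok ?_
  refine allR_append _ _ _ lf188_ok ?_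
  refine allR_append _ _ _ lf189_ok ?_
  refine allR_append _ _ _ lf190_ok ?_
  refine allR_append _ _ _ lf191_ok ?_
  refine allR_append _ _ _ lf192_ok ?_
  refine allR_append _ _ _ lf193_ok ?_
  refine allR_append _ _ _ lf194_ok ?_
  refine allR_append _ _ _ lf195_ok ?_
  refine allR_append _ _ _ lf196_ok ?_
  refine allR_append _ _ _ lf197_ok ?_
  refine allR_append _ _ _ lf198_ok ?_
  refine allR_append _ _ _ lf199_ok ?_
  refine allR_append _ _ _ lf200_ok ?_
  refine allR_append _ _ _ lf201_ok ?_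
  refine allR_append _ _ _ lf202_ok ?_
  refine allR_append _ _ _ lf203_ok ?_
  refine allR_append _ _ _ lf204_ok ?_
  refine allR_append _ _ _ lf205_ok ?_
  refine allR_append _ _ _ lf206_ok ?_
  refine allR_append _ _ _ lf207_ok ?_
  refine allR_append _ _ _ lf208_ok ?_
  refine allR_append _ _ _ lf209_ok ?_
  refine allR_append _ _ _ lf210_ok ?_
  refine allR_append _ _ _ lf211_ok ?_
  refine allR_append _ _ _ lf212_ok ?_
  refine allR_append _ _ _ lf213_ok ?_
  refine allR_append _ _ _ lf214_ok ?_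
  refine allR_append _ _ _ lf215_ok ?_
  refine allR_append _ _ _ lf216_ok ?_
  refine allR_append _ _ _ lf217_ok ?_
  refine allR_append _ _ _ lf218_ok ?_
  refine allR_append _ _ _ lf219_ok ?_
  refine allR_append _ _ _ lf220_ok ?_
  refine allR_append _ _ _ lf221_ok ?_
  refine allR_append _ _ _ lf222_ok ?_
  refine allR_append _ _ _ lf223_ok ?_
  refine allR_append _ _ _ lf224_ok ?_
  refine allR_append _ _ _ lf225_ok ?_
  refine allR_append _ _ _ lf226_ok ?_
  refine allR_append _ _ _ lf227_ok ?_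
  refine allR_append _ _ _ lf228_ok ?_
  refine allR_append _ _ _ lf229_ok ?_
  refine allR_append _ _ _ lf230_ok ?_
  refine allR_append _ _ _ lf231_ok ?_
  refine allR_append _ _ _ lf232_ok ?_
  refine allR_append _ _ _ lf233_ok ?_
  refine allR_append _ _ _ lf234_ok ?_
  refine allR_append _ _ _ lf235_ok ?_
  refine allR_append _ _ _ lf236_ok ?_
  refine allR_append _ _ _ lf237_ok ?_
  refine allR_append _ _ _ lf238_ok ?_
  refine allR_append _ _ _ lf239_ok ?_
  refine allR_append _ _ _ lf240_ok ?_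
  refine allR_append _ _ _ lf241_ok ?_
  refine allR_append _ _ _ lf242_ok ?_
  refine allR_append _ _ _ lf243_ok ?_
  refine allR_append _ _ _ lf244_ok ?_
  refine allR_append _ _ _ lf245_ok ?_
  refine allR_append _ _ _ lf246_ok ?_
  refine allR_append _ _ _ lf247_ok ?_
  refine allR_append _ _ _ lf248_ok ?_
  refine allR_append _ _ _ lf249_ok ?_
  refine allR_append _ _ _ lf250_ok ?_
  refine allR_append _ _ _ lf251_ok ?_
  refine allR_append _ _ _ lf252_ok ?_
  refine allR_append _ _ _ lf253_ok ?_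
  refine allR_append _ _ _ lf254_ok ?_
  refine allR_append _ _ _ lf255_ok ?_
  rfl

theorem reps_all : chkAq 7 4503599627370496 8191 3582863654338593 8640000 vs sets reps 0 = true := by
  unfold reps
  refine chkAq_append _ _ _ 1 (by rfl) rg0_ok ?_
  refine chkAq_append _ _ _ 1 (by rfl) rg1_ok ?_
  refine chkAq_append _ _ _ 1 (by rfl) rg2_ok ?_
  refine chkAq_append _ _ _ 1 (by rfl) rg3_ok ?_
  refine chkAq_append _ _ _ 1 (by rfl) rg4_ok ?_
  refine chkAq_append _ _ _ 1 (by rfl) rg5_ok ?_
  refine chkAq_append _ _ _ 1 (by rfl) rg6_ok ?_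
  refine chkAq_append _ _ _ 1 (by rfl) rg7_ok ?_
  refine chkAq_append _ _ _ 1 (by rfl) rg8_ok ?_
  refine chkAq_append _ _ _ 1 (by rfl) rg9_ok ?_
  refine chkAq_append _ _ _ 1 (by rfl) rg10_ok ?_
  refine chkAq_append _ _ _ 1 (by rfl) rg11_ok ?_
  refine chkAq_append _ _ _ 1 (by rfl) rg12_ok ?_
  refine chkAq_append _ _ _ 1 (by rfl) rg13_ok ?_
  refine chkAq_append _ _ _ 1 (by rfl) rg14_ok ?_
  refine chkAq_append _ _ _ 1 (by rfl) rg15_ok ?_
  refine chkAq_append _ _ _ 1 (by rfl) rg16_ok ?_
  refine chkAq_append _ _ _ 1 (by rfl) rg17_ok ?_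
  refine chkAq_append _ _ _ 1 (by rfl) rg18_ok ?_
  refine chkAq_append _ _ _ 1 (by rfl) rg19_ok ?_
  refine chkAq_append _ _ _ 1 (by rfl) rg20_ok ?_
  refine chkAq_append _ _ _ 1 (by rfl) rg21_ok ?_
  refine chkAq_append _ _ _ 1 (by rfl) rg22_ok ?_
  refine chkAq_append _ _ _ 1 (by rfl) rg23_ok ?_
  refine chkAq_append _ _ _ 1 (by rfl) rg24_ok ?_
  refine chkAq_append _ _ _ 1 (by rfl) rg25_ok ?_
  rfl

theorem go_all : allR (rt7 6 7 (0, 1) prs vs 300239975158033 lf) vs = true := by
  refine allR_append _ [nat_lit 0] _ go0_ok ?_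
  refine allR_append _ [nat_lit 1] _ go1_ok ?_
  refine allR_append _ [nat_lit 2] _ go2_ok ?_
  refine allR_append _ [nat_lit 3] _ go3_ok ?_
  refine allR_append _ [nat_lit 4] _ go4_ok ?_
  refine allR_append _ [nat_lit 5] _ go5_ok ?_
  refine allR_append _ [nat_lit 6] _ go6_ok ?_
  refine allR_append _ [nat_lit 7] _ go7_ok ?_
  exact go8_ok

theorem hmsk : mask 13 = 300239975158033 := by decide +kernel

theorem hzip : (vl (1 : Equiv.Perm (Fin 13))).zip (vl rho) = (0, 1) :: prs := by decide +kernel

theorem hcov : Covers 13 7 rho lf :=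
  covers_of (t := 6) (by norm_num) (by norm_num) (by norm_num) (by decide +kernel)
    (by decide +kernel) hmsk hzip go_all

theorem oq (h : (Cen rho).card ≤ 8640) : OR 13 7 300239975158033 4503599627370496 18446744073709551616 8191 3582863654338593
    1000 5040 8640 rho vs sets reps lf where
  le := by norm_num
  hm := by norm_num
  hmsk := hmsk
  hN := by norm_num
  hNL := by norm_num
  hfull := by norm_num
  hvs := by decide +kernel
  hR := by decide +kernel
  hρ := by decide +kernel
  hD := by norm_num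
  hCC := h
  wt := wt
  hsets := sets_of sets_all
  hreps := reps_of reps_all
  hlf := allR_spec _ _ lf_all
  hcov := hcov

/-- result of the table -/
theorem res (h : (Cen rho).card ≤ 8640) : Tab 13 7 5040 rho := (oq h).tab

end Pool.Col46.P13c
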