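import Pool.Agent.Work.MP_46fa68_17.P13cS0
import Pool.Agent.Work.MP_46fa68_17.P13cS1
import Pool.Agent.Work.MP_46fa68_17.P13cS2
import Pool.Agent.Work.MP_46fa68_17.P13cS3
import Pool.Agent.Work.MP_46fa68_17.P13cS4
import Pool.Agent.Work.MP_46fa68_17.P13cS5
import Pool.Agent.Work.MP_46fa68_17.P13cS6
import Pool.Agent.Work.MP_46fa68_17.P13cS7
import Pool.Agent.Work.MP_46fa68_17.P13cS8
import Pool.Agent.Work.MP_46fa68_17.P13cS9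
import Pool.Agent.Work.MP_46fa68_17.P13cL0
import Pool.Agent.Work.MP_46fa68_17.P13cL1
import Pool.Agent.Work.MP_46fa68_17.P13cL2
import Pool.Agent.Work.MP_46fa68_17.P13cL3
import Pool.Agent.Work.MP_46fa68_17.P13cL4

/-!
# MP_46fa68_co: orbit certificate P13c, all data
-/

set_option autoImplicit false

namespace Pool.Col46.P13c

/-- all codes -/
def sets : List (ℕ × List ℕ) :=
  sets0 ++ (sets1 ++ (sets2 ++ (sets3 ++ (sets4 ++ (sets5 ++ (sets6 ++ (sets7 ++ (sets8 ++ (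
    sets9 ++ (sets10 ++ (sets11 ++ (sets12 ++ (sets13 ++ (sets14 ++ (sets15 ++ (sets16 ++ (
    sets17 ++ (sets18 ++ (sets19 ++ (sets20 ++ (sets21 ++ (sets22 ++ (sets23 ++ (sets24 ++ (
    sets25 ++ (sets26 ++ (sets27 ++ (sets28 ++ (sets29 ++ (sets30 ++ (sets31 ++ (sets32 ++ (
    sets33 ++ (sets34 ++ (sets35 ++ (sets36 ++ (sets37 ++ (sets38 ++ (sets39 ++ (sets40 ++ (
    sets41 ++ (sets42 ++ (sets43 ++ (sets44 ++ (sets45 ++ (sets46 ++ (sets47 ++ (sets48 ++ (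
    sets49 ++ (sets50 ++ (sets51 ++ (sets52 ++ (sets53 ++ (sets54 ++ (sets55 ++ (sets56 ++ (
    sets57 ++ (sets58 ++ (sets59 ++ (sets60 ++ (sets61 ++ (sets62 ++ (sets63 ++ (sets64 ++ (
    sets65 ++ (sets66 ++ (sets67 ++ (sets68 ++ (sets69 ++ (sets70 ++ (sets71 ++ (sets72 ++ (
    sets73 ++ (sets74 ++ (sets75 ++ (sets76 ++ (sets77 ++ (sets78 ++ (sets79 ++ [])))))))))))))))))))))))))))))))))))))))))))))))))))))))))))))))))))))))))))))))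

/-- all canonical members -/
def lf : List ℕ :=
  lf0 ++ (lf1 ++ (lf2 ++ (lf3 ++ (lf4 ++ (lf5 ++ (lf6 ++ (lf7 ++ (lf8 ++ (lf9 ++ (lf10 ++ (
    lf11 ++ (lf12 ++ (lf13 ++ (lf14 ++ (lf15 ++ (lf16 ++ (lf17 ++ (lf18 ++ (lf19 ++ (lf20 ++ (
    lf21 ++ (lf22 ++ (lf23 ++ (lf24 ++ (lf25 ++ (lf26 ++ (lf27 ++ (lf28 ++ (lf29 ++ (lf30 ++ (
    lf31 ++ (lf32 ++ (lf33 ++ (lf34 ++ (lf35 ++ (lf36 ++ (lf37 ++ (lf38 ++ (lf39 ++ (lf40 ++ (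
    lf41 ++ (lf42 ++ (lf43 ++ (lf44 ++ (lf45 ++ (lf46 ++ (lf47 ++ (lf48 ++ (lf49 ++ (lf50 ++ (
    lf51 ++ (lf52 ++ (lf53 ++ (lf54 ++ (lf55 ++ (lf56 ++ (lf57 ++ (lf58 ++ (lf59 ++ (lf60 ++ (
    lf61 ++ (lf62 ++ (lf63 ++ (lf64 ++ (lf65 ++ (lf66 ++ (lf67 ++ (lf68 ++ (lf69 ++ (lf70 ++ (
    lf71 ++ (lf72 ++ (lf73 ++ (lf74 ++ (lf75 ++ (lf76 ++ (lf77 ++ (lf78 ++ (lf79 ++ (lf80 ++ (
    lf81 ++ (lf82 ++ (lf83 ++ (lf84 ++ (lf85 ++ (lf86 ++ (lf87 ++ (lf88 ++ (lf89 ++ (lf90 ++ (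
    lf91 ++ (lf92 ++ (lf93 ++ (lf94 ++ (lf95 ++ (lf96 ++ (lf97 ++ (lf98 ++ (lf99 ++ (lf100 ++ (
    lf101 ++ (lf102 ++ (lf103 ++ (lf104 ++ (lf105 ++ (lf106 ++ (lf107 ++ (lf108 ++ (lf109 ++ (
    lf110 ++ (lf111 ++ (lf112 ++ (lf113 ++ (lf114 ++ (lf115 ++ (lf116 ++ (lf117 ++ (lf118 ++ (
    lf119 ++ (lf120 ++ (lf121 ++ (lf122 ++ (lf123 ++ (lf124 ++ (lf125 ++ (lf126 ++ (lf127 ++ (
    lf128 ++ (lf129 ++ (lf130 ++ (lf131 ++ (lf132 ++ (lf133 ++ (lf134 ++ (lf135 ++ (lf136 ++ (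
    lf137 ++ (lf138 ++ (lf139 ++ (lf140 ++ (lf141 ++ (lf142 ++ (lf143 ++ (lf144 ++ (lf145 ++ (
    lf146 ++ (lf147 ++ (lf148 ++ (lf149 ++ (lf150 ++ (lf151 ++ (lf152 ++ (lf153 ++ (lf154 ++ (
    lf155 ++ (lf156 ++ (lf157 ++ (lf158 ++ (lf159 ++ (lf160 ++ (lf161 ++ (lf162 ++ (lf163 ++ (
    lf164 ++ (lf165 ++ (lf166 ++ (lf167 ++ (lf168 ++ (lf169 ++ (lf170 ++ (lf171 ++ (lf172 ++ (
    lf173 ++ (lf174 ++ (lf175 ++ (lf176 ++ (lf177 ++ (lf178 ++ (lf179 ++ (lf180 ++ (lf181 ++ (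
    lf182 ++ (lf183 ++ (lf184 ++ (lf185 ++ (lf186 ++ (lf187 ++ (lf188 ++ (lf189 ++ (lf190 ++ (
    lf191 ++ (lf192 ++ (lf193 ++ (lf194 ++ (lf195 ++ (lf196 ++ (lf197 ++ (lf198 ++ (lf199 ++ (
    lf200 ++ (lf201 ++ (lf202 ++ (lf203 ++ (lf204 ++ (lf205 ++ (lf206 ++ (lf207 ++ (lf208 ++ (
    lf209 ++ (lf210 ++ (lf211 ++ (lf212 ++ (lf213 ++ (lf214 ++ (lf215 ++ (lf216 ++ (lf217 ++ (
    lf218 ++ (lf219 ++ (lf220 ++ (lf221 ++ (lf222 ++ (lf223 ++ (lf224 ++ (lf225 ++ (lf226 ++ (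
    lf227 ++ (lf228 ++ (lf229 ++ (lf230 ++ (lf231 ++ (lf232 ++ (lf233 ++ (lf234 ++ (lf235 ++ (
    lf236 ++ (lf237 ++ (lf238 ++ (lf239 ++ (lf240 ++ (lf241 ++ (lf242 ++ (lf243 ++ (lf244 ++ (
    lf245 ++ (lf246 ++ (lf247 ++ (lf248 ++ (lf249 ++ (lf250 ++ (lf251 ++ (lf252 ++ (lf253 ++ (
    lf254 ++ (lf255 ++ [])))))))))))))))))))))))))))))))))))))))))))))))))))))))))))))))))))))))))))))))))))))))))))))))))))))))))))))))))))))))))))))))))))))))))))))))))))))))))))))))))))))))))))))))))))))))))))))))))))))))))))))))))))))))))))))))))))))))))))))))))))))))))))))))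

theorem wt : wtR sets = 1000 * 5040 := by decide +kernel

end Pool.Col46.P13c
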