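import Pool.Agent.Work.MP_46fa68_17.P13cA

/-!
# MP_46fa68_co: orbit certificate P13c, coverage
-/

set_option autoImplicit false

namespace Pool.Col46.P13c

theorem rg0_ok : chkAq 7 4503599627370496 8191 3582863654338593 8640000 vs sets rg0 0 = true := by
  decide +kernel

theorem rg1_ok : chkAq 7 4503599627370496 8191 3582863654338593 8640000 vs sets rg1 1 = true := by
  decide +kernel

theorem rg2_ok : chkAq 7 4503599627370496 8191 3582863654338593 8640000 vs sets rg2 2 = true := by
  decide +kernel

theorem rg3_ok : chkAq 7 4503599627370496 8191 3582863654338593 8640000 vs sets rg3 3 = true := by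
  decide +kernel

theorem rg4_ok : chkAq 7 4503599627370496 8191 3582863654338593 8640000 vs sets rg4 4 = true := by
  decide +kernel

theorem rg5_ok : chkAq 7 4503599627370496 8191 3582863654338593 8640000 vs sets rg5 5 = true := by
  decide +kernel

theorem rg6_ok : chkAq 7 4503599627370496 8191 3582863654338593 8640000 vs sets rg6 6 = true := by
  decide +kernel

theorem rg7_ok : chkAq 7 4503599627370496 8191 3582863654338593 8640000 vs sets rg7 7 = true := by
  decide +kernel

theorem rg8_ok : chkAq 7 4503599627370496 8191 3582863654338593 8640000 vs sets rg8 8 = true := by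
  decide +kernel

theorem rg9_ok : chkAq 7 4503599627370496 8191 3582863654338593 8640000 vs sets rg9 9 = true := by
  decide +kernel

theorem rg10_ok : chkAq 7 4503599627370496 8191 3582863654338593 8640000 vs sets rg10 10 = true := by
  decide +kernel

theorem rg11_ok : chkAq 7 4503599627370496 8191 3582863654338593 8640000 vs sets rg11 11 = true := by
  decide +kernel

end Pool.Col46.P13c
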