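import Pool.Agent.Work.MP_46fa68_17.Oq3

/-!
# MP_46fa68_co: orbit certificate Q5a, representatives
-/

set_option autoImplicit false

namespace Pool.Col46.Q5a

/-- the second point -/
def rho : Equiv.Perm (Fin 5) := List.formPerm [0, 1, 2]

/-- the positions -/
def vs : List ℕ := [nat_lit 0, nat_lit 1, nat_lit 2, nat_lit 3, nat_lit 4]

/-- the pairs of values -/
def prs : List (ℕ × ℕ) := [(nat_lit 1, nat_lit 2), (nat_lit 2, nat_lit 0), (nat_lit 3, nat_lit 3), (nat_lit 4, nat_lit 4)]

/-- block 0 of the representatives -/
def rb0 : List (ℕ × List ℕ) :=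
    [(274960, [274465, 274690, 274960]), (274720, [274960]), (267040, [274960]), (274465, [274465
    , 274690, 274960]), (274690, [274465, 274690, 274960])]

/-- a group of blocks -/
def rg0 : List (List (ℕ × List ℕ)) := [rb0]

/-- all representatives -/
def reps : List (List (ℕ × List ℕ)) :=
  rg0 ++ []

/-- codes with weights, part 0 -/
def sets0 : List (ℕ × List ℕ) :=
    [(1000, [1180944207983120]), (3000, [1180944209031456, 1179784568898097, 1178818201264147]), 
    (1000, [1180944211128353]), (1000, [1180944212177154, 1178818201264147])]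

theorem sets0_ok : allR (fun s => cond (pwR 69905 3 s.2)
    (allR (chkXq 1048576 4294967296 31 274465 vs reps) s.2) false) sets0 = true := by
  decide +kernel

/-- canonical members, part 0 -/
def lf0 : List ℕ :=
    [1180944207983120, 1180944209031456, 1180944210072352, 1179784567861761, 1180944211128353, 
    1179784568898097, 1180944212177154, 1178818200219666, 1178818201264147]

theorem lf0_ok : allR (chkXq 1048576 4294967296 31 274465 vs reps) lf0 = true := by
  decide +kernel

/-- all codes -/
def sets : List (ℕ × List ℕ) :=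
  sets0 ++ []

/-- all canonical members -/
def lf : List ℕ :=
  lf0 ++ []

theorem wt : wtR sets = 1000 * 6 := by decide +kernel

theorem rg0_ok : chkAq 3 1048576 31 274465 6000 vs sets rg0 0 = true := by
  decide +kernel

theorem go0_ok : allR (brF 3 (0, 1) (go5 2 3 vs prs) 69905 0 0 0 1 lf) [nat_lit 0, nat_lit 1, nat_lit 2, nat_lit 3, nat_lit 4] = true := by
  decide +kernel

theorem sets_all : allR (fun s => cond (pwR 69905 3 s.2)
    (allR (chkXq 1048576 4294967296 31 274465 vs reps) s.2) false) sets = true := by
  unfold sets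
  refine allR_append _ _ _ sets0_ok ?_
  rfl

theorem lf_all : allR (chkXq 1048576 4294967296 31 274465 vs reps) lf = true := by
  unfold lf
  refine allR_append _ _ _ lf0_ok ?_
  rfl

theorem reps_all : chkAq 3 1048576 31 274465 6000 vs sets reps 0 = true := by
  unfold reps
  refine chkAq_append _ _ _ 1 (by rfl) rg0_ok ?_
  rfl

theorem go_all : allR (brF 3 (0, 1) (go5 2 3 vs prs) 69905 0 0 0 1 lf) vs = true := by
  exact go0_ok

theorem hmsk : mask 5 = 69905 := by decide +kernel

theorem hzip : (vl (1 : Equiv.Perm (Fin 5))).zip (vl rho) = (0, 1) :: prs := by decide +kernel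

theorem hgo : go4 (5 - 3) 3 69905 vs ((vl (1 : Equiv.Perm (Fin 5))).zip (vl rho)) 69905 0 0 0 1 lf
    = true := by
  have h := go4_root (t := 2) (m := 3) (n := 5) (by norm_num) (vs := vs) (ρ := rho) hzip (av := 69905)
    (u := 0) (a := 0) (b := 0) (w := 1) (cand := lf) go_all
  rw [hmsk] at h
  exact h

theorem oq (h : (Cen rho).card ≤ 6) : OQ 5 3 69905 1048576 4294967296 31 274465
    1000 6 6 rho vs sets reps lf where
  le := by norm_num
  hm := by norm_num
  hmsk := hmsk
  hN := by norm_num
  hNL := by norm_num
  hfull := by norm_num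
  hvs := by decide +kernel
  hR := by decide +kernel
  hρ := by decide +kernel
  hD := by norm_num
  hCC := h
  wt := wt
  hsets := sets_of sets_all
  hreps := reps_of reps_all
  hlf := allR_spec _ _ lf_all
  hgo := hgo

/-- result of the table -/
theorem res (h : (Cen rho).card ≤ 6) : Tab 5 3 6 rho := (oq h).tab

end Pool.Col46.Q5a
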