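import Pool.Agent.Work.MP_46fa68_17.P13a
import Pool.Agent.Work.MP_46fa68_17.P13b
import Pool.Agent.Work.MP_46fa68_17.P13c
import Pool.Agent.Work.MP_46fa68_17.P13d
import Pool.Agent.Work.MP_46fa68_17.E13_2
import Pool.Agent.Work.MP_46fa68_17.E13_3
import Pool.Agent.Work.MP_46fa68_17.E13_4a
import Pool.Agent.Work.MP_46fa68_17.E13_4b
import Pool.Agent.Work.MP_46fa68_17.E13_5a
import Pool.Agent.Work.MP_46fa68_17.E13_5b
import Pool.Agent.Work.MP_46fa68_17.E13_6a
import Pool.Agent.Work.MP_46fa68_17.E13_6b
import Pool.Agent.Work.MP_46fa68_17.E13_6c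
import Pool.Agent.Work.MP_46fa68_17.E13_6d
import Pool.Agent.Work.MP_46fa68_17.Cent

/-!
# MP_46fa68_co: all tables for n = 13

helper17
-/

set_option autoImplicit false

namespace Pool.Col46

/-- `m = 7`, one cycle of length 7 -/
theorem T13a.res : Tab 13 7 5040 (List.formPerm [0, 1, 2, 3, 4, 5, 6]) :=
  P13a.res (cen_one _ (by decide) (by decide) _ (by decide +kernel))

/-- `m = 7`, cycles of length 2, 5 -/
theorem T13b.res : Tab 13 7 5040 (List.formPerm [0, 1] * List.formPerm [2, 3, 4, 5, 6]) :=
  P13b.res (cen_two _ _ (by decide) (by decide) (by decide) (by decide) (by decide) _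
    (by decide +kernel))

/-- `m = 7`, cycles of length 3, 4 -/
theorem T13c.res : Tab 13 7 5040 (List.formPerm [0, 1, 2] * List.formPerm [3, 4, 5, 6]) :=
  P13c.res (cen_two _ _ (by decide) (by decide) (by decide) (by decide) (by decide) _
    (by decide +kernel))

/-- `m = 7`, cycles of length 2, 2, 3 -/
theorem T13d.res :
    Tab 13 7 5040 (List.formPerm [0, 1] * List.formPerm [2, 3] * List.formPerm [4, 5, 6]) :=
  P13d.res (cen_three _ _ _ (by decide) (by decide) (by decide) (by decide) (by decide)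
    (by decide) (by decide) (by decide) (by decide) _ (by decide +kernel))

theorem D13_2.res (A : Finset (Equiv.Perm (Fin 13))) (F : Fam 13 11 (List.formPerm [0, 1]) A) :
    A.card ≤ 3 :=
  (E13_2.res (cen_one _ (by decide) (by decide) _ (by decide +kernel)) A F).1

theorem D13_3.res (A : Finset (Equiv.Perm (Fin 13))) (F : Fam 13 10 (List.formPerm [0, 1, 2]) A) :
    A.card ≤ 16 :=
  (E13_3.res (cen_one _ (by decide) (by decide) _ (by decide +kernel)) A F).1

theorem D13_4a.res (A : Finset (Equiv.Perm (Fin 13)))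
    (F : Fam 13 9 (List.formPerm [0, 1, 2, 3]) A) : A.card ≤ 61 :=
  (E13_4a.res (cen_one _ (by decide) (by decide) _ (by decide +kernel)) A F).1

theorem D13_4b.res (A : Finset (Equiv.Perm (Fin 13)))
    (F : Fam 13 9 (List.formPerm [0, 1] * List.formPerm [2, 3]) A) : A.card ≤ 81 :=
  (E13_4b.res (cen_two _ _ (by decide) (by decide) (by decide) (by decide) (by decide) _
    (by decide +kernel)) A F).1

theorem D13_5a.res (A : Finset (Equiv.Perm (Fin 13)))
    (F : Fam 13 8 (List.formPerm [0, 1, 2, 3, 4]) A) : A.card ≤ 262 :=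
  (E13_5a.res (cen_one _ (by decide) (by decide) _ (by decide +kernel)) A F).1

theorem D13_5b.res (A : Finset (Equiv.Perm (Fin 13)))
    (F : Fam 13 8 (List.formPerm [0, 1] * List.formPerm [2, 3, 4]) A) : A.card ≤ 238 :=
  (E13_5b.res (cen_two _ _ (by decide) (by decide) (by decide) (by decide) (by decide) _
    (by decide +kernel)) A F).1

theorem D13_6a.res (A : Finset (Equiv.Perm (Fin 13)))
    (F : Fam 13 7 (List.formPerm [0, 1, 2, 3, 4, 5]) A) : A.card ≤ 1501 :=
  (E13_6a.res (cen_one _ (by decide) (by decide) _ (by decide +kernel)) A F).1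

theorem D13_6b.res (A : Finset (Equiv.Perm (Fin 13)))
    (F : Fam 13 7 (List.formPerm [0, 1] * List.formPerm [2, 3, 4, 5]) A) : A.card ≤ 1443 :=
  (E13_6b.res (cen_two _ _ (by decide) (by decide) (by decide) (by decide) (by decide) _
    (by decide +kernel)) A F).1

theorem D13_6c.res (A : Finset (Equiv.Perm (Fin 13)))
    (F : Fam 13 7 (List.formPerm [0, 1, 2] * List.formPerm [3, 4, 5]) A) : A.card ≤ 1473 :=
  (E13_6c.res (cen_two _ _ (by decide) (by decide) (by decide) (by decide) (by decide) _
    (by decide +kernel)) A F).1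

theorem D13_6d.res (A : Finset (Equiv.Perm (Fin 13)))
    (F : Fam 13 7 (List.formPerm [0, 1] * List.formPerm [2, 3] * List.formPerm [4, 5]) A) :
    A.card ≤ 1384 :=
  (E13_6d.res (cen_three _ _ _ (by decide) (by decide) (by decide) (by decide) (by decide)
    (by decide) (by decide) (by decide) (by decide) _ (by decide +kernel)) A F).1

end Pool.Col46
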